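import Pool.Agent.H61PP.Radial

/-! Tight substantial maps of low codimension have convex image. -/

set_option autoImplicit false

namespace Pool.Agent.H61PP

open Set Topology
open Pool.Agent.Helper775.Tight Pool.Agent.Helper775.Tight.SoftCx
open scoped InnerProductSpace

section hull

variable {P : Type*} [TopologicalSpace P] [CompactSpace P] [Nonempty P]
  {E : Type*} [NormedAddCommGroup E] [InnerProductSpace ℝ E] [FiniteDimensional ℝ E]

theorem hull_interior {f : P → E}
    (hs : ∀ (z : E) (t : ℝ), z ≠ 0 → ∃ x, ⟪z, f x⟫_ℝ ≠ t) :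
    (interior (convexHull ℝ (range f))).Nonempty := by
  have hspan : affineSpan ℝ (convexHull ℝ (range f)) = ⊤ := by
    rw [affineSpan_convexHull]
    by_contra hne
    obtain ⟨x₀⟩ := (inferInstance : Nonempty P)
    have hne' : (affineSpan ℝ (range f)).direction ≠ ⊤ := by
      intro h
      apply hne
      rwa [AffineSubspace.direction_eq_top_iff_of_nonempty] at h
      exact ⟨f x₀, subset_affineSpan ℝ _ (mem_range_self x₀)⟩
    obtain ⟨z, hz, hz0⟩ := (Submodule.ne_bot_iff _).1
      (fun h => hne' (Submodule.orthogonal_eq_bot_iff.1 h) :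
        ((affineSpan ℝ (range f)).direction)ᗮ ≠ ⊥)
    obtain ⟨x, hx⟩ := hs z ⟪z, f x₀⟫_ℝ hz0
    apply hx
    have h1 : f x - f x₀ ∈ (affineSpan ℝ (range f)).direction :=
      AffineSubspace.vsub_mem_direction (subset_affineSpan ℝ _ (mem_range_self x))
        (subset_affineSpan ℝ _ (mem_range_self x₀))
    have h2 := (Submodule.mem_orthogonal' _ _).1 hz _ h1
    rw [inner_sub_right] at h2
    linarith
  rw [(convex_convexHull ℝ (range f)).interior_nonempty_iff_affineSpan_eq_top]
  exact hspan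

omit [CompactSpace P] [Nonempty P] [FiniteDimensional ℝ E] [TopologicalSpace P] in
theorem pos_of_interior {f : P → E} {y : E} (hy : y ∈ interior (convexHull ℝ (range f)))
    (z : E) (hz : z ≠ 0) : ∃ x, 0 < ⟪z, f x - y⟫_ℝ := by
  by_contra hcon
  push Not at hcon
  have hsub : convexHull ℝ (range f) ⊆ {w | ⟪z, w⟫_ℝ ≤ ⟪z, y⟫_ℝ} := by
    refine convexHull_min ?_ ?_
    · rintro _ ⟨x, rfl⟩
      have := hcon x
      rw [inner_sub_right] at this
      change ⟪z, f x⟫_ℝ ≤ ⟪z, y⟫_ℝ
      linarith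
    · exact convex_halfSpace_le (innerSL ℝ z).isLinear _
  obtain ⟨ε, hε, hball⟩ := Metric.isOpen_iff.1 isOpen_interior y hy
  have hz' : 0 < ‖z‖ := norm_pos_iff.2 hz
  have h1 : y + (ε / (2 * ‖z‖)) • z ∈ Metric.ball y ε := by
    rw [Metric.mem_ball, dist_eq_norm, add_sub_cancel_left, norm_smul, Real.norm_eq_abs,
      abs_of_pos (by positivity)]
    have : ε / (2 * ‖z‖) * ‖z‖ = ε / 2 := by field_simp
    rw [this]; linarith
  have h2 := hsub (interior_subset (hball h1))
  have h3 : ⟪z, y + (ε / (2 * ‖z‖)) • z⟫_ℝ ≤ ⟪z, y⟫_ℝ := h2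
  rw [inner_add_right, real_inner_smul_right, real_inner_self_eq_norm_sq] at h3
  have : 0 < ε / (2 * ‖z‖) * ‖z‖ ^ 2 := by positivity
  linarith

/-- If the image is not convex then it misses an interior point of the hull. -/
theorem exists_missed {f : P → E} (hf : Continuous f)
    (hs : ∀ (z : E) (t : ℝ), z ≠ 0 → ∃ x, ⟪z, f x⟫_ℝ ≠ t) (hnc : ¬ Convex ℝ (range f)) :
    ∃ y : E, (∀ x, f x ≠ y) ∧ ∀ z : E, z ≠ 0 → ∃ x, 0 < ⟪z, f x - y⟫_ℝ := by
  by_contra hcon
  push Not at hcon
  apply hnc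
  have hcl : IsClosed (range f) := (isCompact_range hf).isClosed
  have h1 : interior (convexHull ℝ (range f)) ⊆ range f := by
    intro y hy
    by_contra hyn
    obtain ⟨z, hz, hz2⟩ := hcon y (fun x hx => hyn ⟨x, hx⟩)
    obtain ⟨x, hx⟩ := pos_of_interior hy z hz
    exact absurd hx (not_lt.2 (hz2 x))
  have h2 : convexHull ℝ (range f) ⊆ range f := by
    have h3 := (convex_convexHull ℝ (range f)).closure_interior_eq_closure_of_nonempty_interior
      (hull_interior hs)
    calc convexHull ℝ (range f) ⊆ closure (convexHull ℝ (range f)) := subset_closure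
      _ = closure (interior (convexHull ℝ (range f))) := h3.symm
      _ ⊆ closure (range f) := closure_mono h1
      _ = range f := hcl.closure_eq
  have h4 : convexHull ℝ (range f) = range f := subset_antisymm h2 (subset_convexHull ℝ _)
  rw [← h4]
  exact convex_convexHull ℝ _

end hull

section cups

variable {X : Type*} [MetricSpace X] {d : ℕ} {Z : Set X}

theorem cup_sub_right (d : ℕ) (a b b' : Ch X) : cup d a (b - b') = cup d a b - cup d a b' := by
  have h := cup_add_right d a (b - b') b'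
  rw [sub_add_cancel] at h
  rw [h, add_sub_cancel_right]

theorem cup_sub_left (d : ℕ) (a a' b : Ch X) : cup d (a - a') b = cup d a b - cup d a' b := by
  have h := cup_add_left d (a - a') a' b
  rw [sub_add_cancel] at h
  rw [h, add_sub_cancel_right]

theorem cup_coc {u b : Ch X} {m : ℕ} (hu : (AS X).Coc Z (d + 1) u) (hb : (AS X).Coc Z m b) :
    (AS X).Coc Z (m + d) (cup d u b) := by
  intro z hz
  rw [AS_D, AS_N, J15386_leib]
  have h1 : dd b ∈ Nz z (m + 1) := hb z hz
  have h2 : dd u ∈ Nz z (d + 2) := hu z hz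
  have h3 : m + d + 1 = m + 1 + d := by ring
  rw [h3]
  exact add_mem (J15386_cup_left _ h2) (J15386_cup_right (by omega) h1)

theorem cup_cob_right {u b : Ch X} {m : ℕ} (hm : m ≠ 0) (hu : (AS X).Coc Z (d + 1) u)
    (hb : (AS X).Cob Z m b) : (AS X).Cob Z (m + d) (cup d u b) := by
  obtain ⟨k, hk⟩ := hb
  refine ⟨cup d u k, fun z hz => ?_⟩
  have h1 : b - dd k ∈ Nz z m := hk z hz
  have h2 : dd u ∈ Nz z (d + 2) := hu z hz
  rw [AS_D, AS_N, J15386_leib]
  have h5 : cup d u b - (cup (d + 1) (dd u) k + cup d u (dd k)) =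
      cup d u (b - dd k) - cup (d + 1) (dd u) k := by
    rw [cup_sub_right]
    abel
  rw [h5]
  exact sub_mem (J15386_cup_right hm h1) (J15386_cup_left _ h2)

theorem cup_cob_left {u b : Ch X} {m : ℕ} (hd : 1 ≤ d) (hu : (AS X).Cob Z (d + 1) u)
    (hb : (AS X).Coc Z m b) : (AS X).Cob Z (m + d) (cup d u b) := by
  obtain ⟨k, hk⟩ := hu
  refine ⟨cup (d - 1) k b, fun z hz => ?_⟩
  have h1 : u - dd k ∈ Nz z (d + 1) := hk z hz
  have h2 : dd b ∈ Nz z (m + 1) := hb z hz
  rw [AS_D, AS_N, J15386_leib, Nat.sub_add_cancel hd]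
  have h5 : cup d u b - (cup d (dd k) b + cup (d - 1) k (dd b)) =
      cup d (u - dd k) b - cup (d - 1) k (dd b) := by
    rw [cup_sub_left]
    abel
  rw [h5]
  refine sub_mem (j15388_cup_left _ _ _ h1) ?_
  have h6 := J15386_cup_right (d := d - 1) (u := k) (by omega) h2
  have h7 : m + 1 + (d - 1) = m + d := by omega
  rwa [h7] at h6

theorem cup_self_cob {u v : Ch X} (hd : 1 ≤ d) (hu : (AS X).Coc Z (d + 1) u)
    (hv : (AS X).Coc Z (d + 1) v) (huv : (AS X).Cob Z (d + 1) (u - v))
    (h : (AS X).Cob Z (2 * d + 1) (cup d u u)) : (AS X).Cob Z (2 * d + 1) (cup d v v) := by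
  have e1 : 2 * d + 1 = d + 1 + d := by ring
  rw [e1] at h ⊢
  have h1 := cup_cob_left hd huv hu
  have h2 := cup_cob_right (by omega) hv huv
  have h3 := (h.sub h1).sub h2
  convert h3 using 1
  rw [cup_sub_left, cup_sub_right]
  abel

end cups

section facts

variable {P : Type*} [MetricSpace P] [CompactSpace P] {d : ℕ}

theorem plane_facts (hd : 1 ≤ d) (S : Set P)
    (eS : S ≃ₜ Metric.sphere (0 : EuclideanSpace ℝ (Fin (d + 1))) 1)
    (eC : (Sᶜ : Set P) ≃ₜ EuclideanSpace ℝ (Fin (2 * d))) :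
    ConnectedSpace P ∧ (∀ n, 2 ≤ n → n ≤ 2 * d → n ≠ d + 1 → (AS P).Ex univ n) ∧
      ∃ a, (AS P).Coc univ (d + 1) a ∧ ∀ c, (AS P).Coc univ (d + 1) c →
        (AS P).Cob univ (d + 1) c ∨ (AS P).Cob univ (d + 1) (c - a) := by
  have hScomp : IsCompact S := by
    have : CompactSpace S := eS.symm.compactSpace
    exact isCompact_iff_compactSpace.2 inferInstance
  have hSconn : IsConnected S := by
    have h1 : IsConnected (Metric.sphere (0 : EuclideanSpace ℝ (Fin (d + 1))) 1) := by
      refine isConnected_sphere ?_ 0 zero_le_one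
      rw [rank_eq_card_basis (EuclideanSpace.basisFun (Fin (d + 1)) ℝ).toBasis]
      simp only [Fintype.card_fin]
      exact_mod_cast (by omega : 1 < d + 1)
    rw [isConnected_iff_connectedSpace] at h1 ⊢
    have := h1
    exact eS.symm.surjective.connectedSpace eS.symm.continuous
  have hPconn : ConnectedSpace P :=
    connected_of_complement (D := 2 * d) (by omega) S hSconn hScomp.isClosed eC
  have hinj : ∀ q, 1 ≤ q → q + 1 ≤ 2 * d → ∀ c, (AS P).Coc univ (q + 1) c →
      (AS P).Cob S (q + 1) c → (AS P).Cob univ (q + 1) c := fun q hq hq2 c hc hcS =>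
    inj_of_complement (by omega) S hScomp.isClosed eC hq hq2 hc hcS
  have hPex : ∀ n, 2 ≤ n → n ≤ 2 * d → n ≠ d + 1 → (AS P).Ex univ n := by
    intro n hn hn2 hnd c hc
    obtain ⟨q, rfl⟩ : ∃ q, n = q + 1 := ⟨n - 1, by omega⟩
    exact hinj q (by omega) hn2 c hc
      (ex_sphere_image hd S hScomp.isClosed eS (q + 1) hn hnd c (hc.mono (subset_univ _)))
  have hrank : ∀ c c', (AS P).Coc univ (d + 1) c → (AS P).Coc univ (d + 1) c' →
      (AS P).Cob univ (d + 1) c ∨ (AS P).Cob univ (d + 1) c' ∨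
        (AS P).Cob univ (d + 1) (c - c') := by
    intro c c' hc hc'
    rcases rank_sphere_image hd S hScomp.isClosed eS c c' (hc.mono (subset_univ _))
      (hc'.mono (subset_univ _)) with h | h | h
    · exact Or.inl (hinj d hd (by omega) c hc h)
    · exact Or.inr (Or.inl (hinj d hd (by omega) c' hc' h))
    · exact Or.inr (Or.inr (hinj d hd (by omega) _ (hc.sub hc') h))
  refine ⟨hPconn, hPex, ?_⟩
  by_cases h : ∃ a, (AS P).Coc univ (d + 1) a ∧ ¬ (AS P).Cob univ (d + 1) a
  · obtain ⟨a, ha, hna⟩ := h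
    refine ⟨a, ha, fun c hc => ?_⟩
    rcases hrank c a hc ha with h | h | h
    · exact Or.inl h
    · exact absurd h hna
    · exact Or.inr h
  · push Not at h
    exact ⟨0, coc_zero _ _, fun c hc => Or.inl (h c hc)⟩

theorem top_fib [ConnectedSpace P] (hd : 1 ≤ d) [ChartedSpace (EuclideanSpace ℝ (Fin (2 * d))) P]
    (hPex : ∀ n, 2 ≤ n → n ≤ 2 * d → n ≠ d + 1 → (AS P).Ex univ n) (a : Ch P)
    (ha2 : ∀ c, (AS P).Coc univ (d + 1) c →
        (AS P).Cob univ (d + 1) c ∨ (AS P).Cob univ (d + 1) (c - a)) {N : ℕ}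
    (f : P → EuclideanSpace ℝ (Fin N)) (hf : Continuous f)
    (hs : ∀ (z : EuclideanSpace ℝ (Fin N)) (t : ℝ), z ≠ 0 → ∃ x, ⟪z, f x⟫_ℝ ≠ t)
    (hsurj : ∀ z : EuclideanSpace ℝ (Fin N), z ≠ 0 → ∀ n, 1 ≤ n → ∀ c,
      (AS P).Coc (top f z) n c → ∃ c', (AS P).Coc univ n c' ∧ (AS P).Cob (top f z) n (c - c'))
    (z : EuclideanSpace ℝ (Fin N)) (hz : ‖z‖ = 1) :
    (AS P).Acy one (top f z) ∨ (AS P).AType one d a (top f z) := by
  have hP : ∀ Z : Set P, IsCompact Z → ∀ n, 2 * d + 2 ≤ n → (AS P).Ex Z n :=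
    fun Z hZ n hn => ex_of_locally_embed (m := 2 * d) exists_local_embed hZ hn (by omega)
  have hz0 : z ≠ 0 := by rintro rfl; simp at hz
  have hZc : IsCompact (top f z) := isCompact_top hf z
  obtain ⟨x₀⟩ := (inferInstance : Nonempty P)
  have hZne : (top f z).Nonempty := by
    obtain ⟨x, -, hx⟩ := isCompact_univ.exists_isMaxOn (univ_nonempty (α := P))
      ((continuous_const.inner hf : Continuous fun x => ⟪z, f x⟫_ℝ).continuousOn)
    exact ⟨x, fun y => hx (mem_univ y)⟩
  have hZu : top f z ≠ univ := by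
    intro h
    obtain ⟨x, hx⟩ := hs z ⟪z, f x₀⟫_ℝ hz0
    apply hx
    have h1 : x ∈ top f z := h ▸ mem_univ x
    have h2 : x₀ ∈ top f z := h ▸ mem_univ x₀
    exact le_antisymm (h2 x) (h1 x₀)
  have h1 : ∀ k, (AS P).Coc (top f z) 1 k →
      (∀ w ∈ top f z, k ∈ (AS P).N w 1) ∨ ∀ w ∈ top f z, k - one ∈ (AS P).N w 1 := by
    intro k hk
    obtain ⟨c', hc', hcob⟩ := hsurj z hz0 1 le_rfl k hk
    have h0 := cob_one.1 hcob
    rcases coc_one_connected c' hc' with h | h
    · left
      intro w hw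
      simpa using add_mem (h0 w hw) (h w (mem_univ w))
    · right
      intro w hw
      have := add_mem (h0 w hw) (h w (mem_univ w))
      simpa using this
  have hex : ∀ n, 2 ≤ n → n ≠ d + 1 → (AS P).Ex (top f z) n := by
    intro n hn hnd
    rcases Nat.lt_or_ge (2 * d) n with h | h
    · rcases Nat.lt_or_ge (2 * d + 1) n with h' | h'
      · exact hP _ hZc n (by omega)
      · obtain rfl : n = 2 * d + 1 := by omega
        exact ex_top (by omega) hZc.isClosed hZu
    · intro k hk
      obtain ⟨c', hc', hcob⟩ := hsurj z hz0 n (by omega) k hk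
      have := hcob.add ((hPex n hn h hnd c' hc').mono (subset_univ _))
      simpa using this
  have hd1 : ∀ k, (AS P).Coc (top f z) (d + 1) k →
      (AS P).Cob (top f z) (d + 1) k ∨ (AS P).Cob (top f z) (d + 1) (k - a) := by
    intro k hk
    obtain ⟨c', hc', hcob⟩ := hsurj z hz0 (d + 1) (by omega) k hk
    rcases ha2 c' hc' with h | h
    · left
      have := hcob.add (h.mono (subset_univ _))
      simpa using this
    · right
      have := hcob.add (h.mono (subset_univ _))
      simpa using this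
  by_cases hca : (AS P).Cob (top f z) (d + 1) a
  · left
    refine ⟨not_one_mem hZne, h1, fun n hn => ?_⟩
    by_cases hnd : n = d + 1
    · subst hnd
      intro k hk
      rcases hd1 k hk with h | h
      · exact h
      · simpa using h.add hca
    · exact hex n hn hnd
  · right
    exact ⟨not_one_mem hZne, h1, hex, hd1, hca⟩

theorem conv_metric [ConnectedSpace P] (hd : 1 ≤ d) [ChartedSpace (EuclideanSpace ℝ (Fin (2 * d))) P]
    (hPex : ∀ n, 2 ≤ n → n ≤ 2 * d → n ≠ d + 1 → (AS P).Ex univ n) (a : Ch P)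
    (ha : (AS P).Coc univ (d + 1) a)
    (ha2 : ∀ c, (AS P).Coc univ (d + 1) c →
        (AS P).Cob univ (d + 1) c ∨ (AS P).Cob univ (d + 1) (c - a)) {N : ℕ}
    (hN : N ≤ d + 1) (hsq : N = d + 1 → ¬ (AS P).Cob univ (2 * d + 1) (cup d a a))
    (f : P → EuclideanSpace ℝ (Fin N)) (hf : Continuous f)
    (hs : ∀ (z : EuclideanSpace ℝ (Fin N)) (t : ℝ), z ≠ 0 → ∃ x, ⟪z, f x⟫_ℝ ≠ t)
    (hsurj : ∀ z : EuclideanSpace ℝ (Fin N), z ≠ 0 → ∀ n, 1 ≤ n → ∀ c,
      (AS P).Coc (top f z) n c → ∃ c', (AS P).Coc univ n c' ∧ (AS P).Cob (top f z) n (c - c')) :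
    Convex ℝ (range f) := by
  by_contra hnc
  obtain ⟨y, hy, hpos⟩ := exists_missed hf hs hnc
  have htop : ∀ z, top (fun x => f x - y) z = top f z := by
    intro z
    ext x
    simp only [top, mem_ofPred_eq, inner_sub_right, sub_le_sub_iff_right]
  have hgc : Continuous fun x => f x - y := hf.sub continuous_const
  have hfib : ∀ z : EuclideanSpace ℝ (Fin N), ‖z‖ = 1 →
      (AS P).Acy one (top (fun x => f x - y) z) ∨
        (AS P).AType one d a (top (fun x => f x - y) z) := by
    intro z hz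
    rw [htop]
    exact top_fib hd hPex a ha2 f hf hs hsurj z hz
  have hgne : ∀ x, f x - y ≠ 0 := fun x => sub_ne_zero.2 (hy x)
  rcases Nat.lt_or_ge N 2 with hN2 | hN2
  · rcases Nat.eq_zero_or_pos N with rfl | hN0
    · exact hnc (Set.subsingleton_of_subsingleton.convex)
    · obtain rfl : N = 1 := by omega
      set z : EuclideanSpace ℝ (Fin 1) := EuclideanSpace.single 0 1 with hz
      have hz0 : z ≠ 0 := by
        intro h
        have := congrArg (fun v : EuclideanSpace ℝ (Fin 1) => v 0) h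
        simp [hz] at this
      have hin : ∀ v : EuclideanSpace ℝ (Fin 1), ⟪z, v⟫_ℝ = v 0 := by
        intro v
        rw [hz, EuclideanSpace.inner_single_left]
        simp
      obtain ⟨x₁, hx₁⟩ := hpos z hz0
      obtain ⟨x₂, hx₂⟩ := hpos (-z) (neg_ne_zero.2 hz0)
      rw [inner_neg_left] at hx₂
      have hc : Continuous fun x => ⟪z, f x - y⟫_ℝ := continuous_const.inner hgc
      obtain ⟨x, hx⟩ := mem_range_of_exists_le_of_exists_ge (c := (0 : ℝ)) hc
        ⟨x₂, by linarith⟩ ⟨x₁, hx₁.le⟩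
      apply hgne x
      ext i
      obtain rfl : i = 0 := Subsingleton.elim _ _
      have h1 : ⟪z, f x - y⟫_ℝ = 0 := hx
      rw [hin] at h1
      exact h1
  · obtain ⟨e, he, hne⟩ := sp_top (M := N) (k := N) hN2 le_rfl
    rw [sp_eq_sphere] at he hne
    have key := radial_ne (f := fun x => f x - y) hgc hd hN hpos hgne a ha hfib he hne
    apply key
    have hrc : Continuous fun x : P => ‖f x - y‖⁻¹ • (f x - y) :=
      (Continuous.inv₀ hgc.norm fun x => norm_ne_zero_iff.2 (hgne x)).smul hgc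
    have hcoc : (AS P).Coc univ N (pb (fun x => ‖f x - y‖⁻¹ • (f x - y)) e) := by
      refine coc_pb (F' := Metric.sphere 0 1) (fun x _ => hrc.continuousAt) ?_ he
      intro x _
      rw [mem_sphere_zero_iff_norm, norm_smul, norm_inv, norm_norm,
        inv_mul_cancel₀ (norm_ne_zero_iff.2 (hgne x))]
    rcases Nat.lt_or_ge d N with h | h
    · obtain rfl : N = d + 1 := by omega
      rcases ha2 _ hcoc with h1 | h1
      · exact h1
      · exfalso
        apply hsq rfl
        refine cup_self_cob hd hcoc ha h1 ?_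
        rw [← j15388_pb_cup]
        refine cob_pb (F' := Metric.sphere 0 1) (fun x _ => hrc.continuousAt) ?_ ?_
        · intro x _
          rw [mem_sphere_zero_iff_norm, norm_smul, norm_inv, norm_norm,
            inv_mul_cancel₀ (norm_ne_zero_iff.2 (hgne x))]
        · rw [← sp_eq_sphere]
          refine sp_ex (by omega) le_rfl (2 * d + 1) (by omega) (by omega) _ ?_
          rw [sp_eq_sphere]
          have h2 := cup_coc he he
          have e1 : d + 1 + d = 2 * d + 1 := by ring
          rwa [e1] at h2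
    · exact hPex N hN2 (by omega) (by omega) _ hcoc

end facts

section tops

variable {P : Type*} [MetricSpace P] [CompactSpace P] [Nonempty P]

/-- tight maps: every class near a top set comes from the whole space. -/
theorem top_surj {m : ℕ} [ChartedSpace (EuclideanSpace ℝ (Fin m)) P] {N : ℕ}
    (f : P → EuclideanSpace ℝ (Fin N)) (hf : Continuous f) (ht : TightMap f ∨ CechTightMap f)
    (z : EuclideanSpace ℝ (Fin N)) (hz : z ≠ 0) (n : ℕ) (hn : 1 ≤ n) (c : Ch P)
    (hc : (AS P).Coc (top f z) n c) :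
    ∃ c', (AS P).Coc univ n c' ∧ (AS P).Cob (top f z) n (c - c') := by
  obtain ⟨x₁, -, hx₁⟩ := isCompact_univ.exists_isMaxOn (univ_nonempty (α := P))
    ((continuous_const.inner hf : Continuous fun x => ⟪z, f x⟫_ℝ).continuousOn)
  have htop : top f z = {x | ⟪z, f x₁⟫_ℝ ≤ ⟪z, f x⟫_ℝ} := by
    ext x
    constructor
    · intro h
      exact h x₁
    · intro h y
      exact (hx₁ (mem_univ y)).trans h
  rw [htop] at hc ⊢
  rcases ht with ht | ht
  · exact surj_of_sing (m := m) (fun x => ⟪z, f x⟫_ℝ) (continuous_const.inner hf) _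
      (fun t _ => ht z t hz) n c hc
  · exact surj_of_cech (isClosed_le continuous_const (continuous_const.inner hf)).isCompact
      (ht z _ hz) n hn c hc

end tops

/-- Tight substantial maps into dimension at most `d` have convex image. -/
theorem conv_final {P : Type*} [TopologicalSpace P] {d N : ℕ} (hd : 1 ≤ d) (hN : N ≤ d)
    [ChartedSpace (EuclideanSpace ℝ (Fin (2 * d))) P] (hP : IsLikeProjectivePlane d P)
    (f : P → EuclideanSpace ℝ (Fin N)) (hf : Continuous f) (hs : Substantial f)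
    (ht : TightMap f ∨ CechTightMap f) : Convex ℝ (range f) := by
  obtain ⟨hPc, hPh, S, ⟨eS⟩, ⟨eC⟩⟩ := hP
  haveI : SecondCountableTopology P :=
    ChartedSpace.secondCountable_of_sigmaCompact (EuclideanSpace ℝ (Fin (2 * d))) P
  haveI : TopologicalSpace.MetrizableSpace P :=
    TopologicalSpace.metrizableSpace_of_t3_secondCountable P
  letI : MetricSpace P := TopologicalSpace.metrizableSpaceMetric P
  obtain ⟨hconn, hPex, a, ha, ha2⟩ := plane_facts hd S eS eC
  haveI := hconn
  exact conv_metric hd hPex a ha ha2 (by omega) (fun h => by omega) f hf hs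
    (fun z hz n hn c hc => top_surj (m := 2 * d) f hf ht z hz n hn c hc)

end Pool.Agent.H61PP
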