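import Pool.Agent.Helper158.PD.Base
import Pool.Agent.Helper775.Tight.Final

/-! The top cohomology of a closed manifold is not trivial. -/

set_option autoImplicit false

namespace Pool.Agent.H61PP

open Set Topology
open Pool.Agent.Helper775.Tight Pool.Agent.Helper775.Tight.SoftCx

/-- Top Alexander-Spanier cohomology mod 2 of a closed manifold does not vanish. -/
theorem top_class_ne {P : Type*} [MetricSpace P] [CompactSpace P] [Nonempty P] (m : ℕ)
    [ChartedSpace (EuclideanSpace ℝ (Fin (m + 1))) P] :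
    ∃ c, (AS P).Coc univ (m + 2) c ∧ ¬ (AS P).Cob univ (m + 2) c := by
  obtain ⟨I, hI1, hI2⟩ := Pool.Agent.Helper158.PD.exists_fund (X := P) m
  obtain ⟨x₀⟩ := (inferInstance : Nonempty P)
  obtain ⟨V, hV, -, -, hgen⟩ := hI2 x₀
  obtain ⟨w, hw⟩ := Pool.Agent.Helper158.PD.box_gen hV
  obtain ⟨-, hw2, -⟩ := Pool.Agent.Helper158.PD.box_top_ne hw
  have hIw : I.1 w = 1 := hgen w hw
  set s : SCh P := fun n σ => Pool.Agent.Helper158.PD.inc (m + 1) w ⟨n, σ⟩ with hs
  have hsw : ∀ σ : Sing P (m + 1), s (m + 1) σ = w σ := by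
    intro σ
    exact congrFun (Pool.Agent.Helper158.PD.cp_inc (m + 1) w) σ
  have hcoc : (Sg P).Coc univ (m + 2) s := by
    intro z _
    obtain ⟨U, hU, hzU, h⟩ := hw2 z (mem_univ z)
    refine ⟨U, hU.mem_nhds hzU, fun σ hσ => ?_⟩
    have h1 := h σ hσ
    rw [Pool.Agent.Helper158.PD.dl_apply] at h1
    change ∑ i : Fin (m + 1 + 2), s (m + 1) (sface (m + 1) i σ) = 0
    rw [← h1]
    exact Finset.sum_congr rfl fun i _ => hsw _
  have hncob : ¬ (Sg P).Cob univ (m + 2) s := by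
    rintro ⟨t, ht⟩
    have h1 : w - Pool.Agent.Helper158.PD.dl m (t m) ∈
        (Pool.Agent.Helper158.PD.Gr P).N (m + 1) univ := by
      intro z _
      obtain ⟨W, hW, h⟩ := ht z (mem_univ z)
      obtain ⟨U, hUW, hU, hzU⟩ := mem_nhds_iff.1 hW
      refine ⟨U, hU, hzU, fun σ hσ => ?_⟩
      have h2 := h σ (hσ.trans hUW)
      change w σ - Pool.Agent.Helper158.PD.dl m (t m) σ = 0
      rw [Pool.Agent.Helper158.PD.dl_apply, ← hsw]
      exact h2
    have h2 : I.1 (w - Pool.Agent.Helper158.PD.dl m (t m)) = 0 := I.2 _ h1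
    rw [map_sub, hI1, hIw, sub_zero] at h2
    exact one_ne_zero h2
  obtain ⟨c, hc, hcob⟩ := theta_surj (m := m + 1) isCompact_univ hcoc
  refine ⟨c, hc, fun h => hncob ?_⟩
  have h1 : (Sg P).Cob univ (m + 2) (theta c) := by
    obtain ⟨b, hb⟩ := h
    refine ⟨theta b, fun z hz => ?_⟩
    have h2 := Theta.mem z (m + 2) _ (hb z hz)
    have h3 : (Sg P).D (theta b) = theta ((AS P).D b) := sdf_theta b
    rw [h3]
    exact h2
  have := hcob.add h1
  simpa using this

end Pool.Agent.H61PP
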