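import Pool.Agent.H61PP.Conv
import Pool.Agent.H61PP.TopNe

/-! Tight substantial maps into dimension `d + 1`. -/

set_option autoImplicit false

namespace Pool.Agent.H61PP

open Set Topology
open Pool.Agent.Helper775.Tight Pool.Agent.Helper775.Tight.SoftCx
open scoped InnerProductSpace

section hemi

variable {E : Type*} [NormedAddCommGroup E] [InnerProductSpace ℝ E] [FiniteDimensional ℝ E]

/-- closed hemisphere -/
def hem (w : E) : Set E := {z | ‖z‖ = 1 ∧ 0 ≤ ⟪z, w⟫_ℝ}

theorem hem_compact (w : E) : IsCompact (hem w) := by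
  have h1 : IsClosed ({z : E | ‖z‖ = 1} ∩ {z : E | 0 ≤ ⟪z, w⟫_ℝ}) :=
    (isClosed_eq continuous_norm continuous_const).inter
      (isClosed_le continuous_const (continuous_id.inner continuous_const))
  refine (isCompact_sphere (0 : E) 1).of_isClosed_subset h1 ?_
  intro z hz
  simpa using hz.1

theorem hem_acy (w : E) (hw : w ≠ 0) : (AS E).Acy one (hem w) := by
  have hw0 : 0 < ‖w‖ := norm_pos_iff.2 hw
  set p : E := ‖w‖⁻¹ • w with hp
  have hp1 : ‖p‖ = 1 := by
    rw [hp, norm_smul, norm_inv, norm_norm, inv_mul_cancel₀ hw0.ne']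
  have hpw : ⟪p, w⟫_ℝ = ‖w‖ := by
    rw [hp, real_inner_smul_left, real_inner_self_eq_norm_sq]
    field_simp
  have hin : ∀ t : ℝ, ∀ z : E, ⟪(1 - t) • z + t • p, w⟫_ℝ = (1 - t) * ⟪z, w⟫_ℝ + t * ‖w‖ := by
    intro t z
    rw [inner_add_left, real_inner_smul_left, real_inner_smul_left, hpw]
  have hne : ∀ t ∈ Icc (0 : ℝ) 1, ∀ z ∈ hem w, (1 - t) • z + t • p ≠ 0 := by
    intro t ht z hz h0
    have h1 := hin t z
    rw [h0, inner_zero_left] at h1
    have h2 : 0 ≤ (1 - t) * ⟪z, w⟫_ℝ := mul_nonneg (sub_nonneg.2 ht.2) hz.2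
    have h3 : 0 ≤ t * ‖w‖ := mul_nonneg ht.1 hw0.le
    have h4 : t * ‖w‖ = 0 := by linarith
    have h5 : t = 0 := by
      rcases mul_eq_zero.1 h4 with h | h
      · exact h
      · exact absurd h hw0.ne'
    rw [h5] at h0
    simp only [sub_zero, one_smul, zero_smul, add_zero] at h0
    have := hz.1
    rw [h0, norm_zero] at this
    exact zero_ne_one this
  refine acy_of_contract (hem_compact w)
    (fun t z => ‖(1 - t) • z + t • p‖⁻¹ • ((1 - t) • z + t • p)) p ?_ ?_ ?_ ?_ ⟨hp1, ?_⟩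
  · intro t ht z hz
    have hc : Continuous fun q : ℝ × E => (1 - q.1) • q.2 + q.1 • p := by fun_prop
    exact ((hc.norm.continuousAt (x := (t, z))).inv₀ (by
      simpa using hne t ht z hz)).smul hc.continuousAt
  · intro t ht z hz
    refine ⟨norm_smul_inv_norm (hne t ht z hz), ?_⟩
    rw [real_inner_smul_left, hin]
    have h2 : 0 ≤ (1 - t) * ⟪z, w⟫_ℝ := mul_nonneg (sub_nonneg.2 ht.2) hz.2
    have h3 : 0 ≤ t * ‖w‖ := mul_nonneg ht.1 hw0.le
    exact mul_nonneg (inv_nonneg.2 (norm_nonneg _)) (add_nonneg h2 h3)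
  · intro z hz
    simp [hz.1]
  · intro z hz
    simp [hp1]
  · rw [hpw]; exact hw0.le

end hemi

section space

variable {P : Type*} [MetricSpace P] [CompactSpace P] {E : Type*} [NormedAddCommGroup E]
  [InnerProductSpace ℝ E] [FiniteDimensional ℝ E]

/-- the incidence space of half-spaces. -/
def WW (g : P → E) : Set (P × E) := {q | ‖q.2‖ = 1 ∧ 0 ≤ ⟪q.2, g q.1⟫_ℝ}

theorem isCompact_WW {g : P → E} (hg : Continuous g) : IsCompact (WW g) := by
  have h1 : IsClosed ({q : P × E | ‖q.2‖ = 1} ∩ {q : P × E | 0 ≤ ⟪q.2, g q.1⟫_ℝ}) :=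
    (isClosed_eq (continuous_snd.norm) continuous_const).inter
      (isClosed_le continuous_const (continuous_snd.inner (hg.comp continuous_fst)))
  refine (isCompact_univ.prod (isCompact_sphere (0 : E) 1)).of_isClosed_subset h1 ?_
  intro q hq
  exact ⟨mem_univ _, by simpa using hq.1⟩

theorem WW_fst_acy {g : P → E} (x : P) (hx : g x ≠ 0) :
    (AS (P × E)).Acy one (WW g ∩ Prod.fst ⁻¹' {x}) := by
  have hne : (hem (g x)).Nonempty := by
    by_contra hne
    rw [not_nonempty_iff_eq_empty] at hne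
    exact (hem_acy (g x) hx).1 (by simp [hne])
  refine acy_retract (g := Prod.snd) (g' := fun z => (x, z)) (fun x _ => continuous_snd.continuousAt)
    (fun _ _ => (Continuous.prodMk_right x).continuousAt) ?_
    (fun z hz => ⟨hz, rfl⟩) ?_ ?_ (hem_acy (g x) hx)
  · rintro ⟨x', z⟩ ⟨h1, h2⟩
    have : x' = x := h2
    subst this
    exact h1
  · rintro ⟨x', z⟩ ⟨h1, h2⟩
    have : x' = x := h2
    rw [this]
  · obtain ⟨z, hz⟩ := hne
    exact ⟨(x, z), ⟨hz, rfl⟩⟩

theorem WW_snd_acy {g : P → E} (z : E) (hz : ‖z‖ = 1)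
    (h : (AS P).Acy one {x | 0 ≤ ⟪z, g x⟫_ℝ}) :
    (AS (P × E)).Acy one (WW g ∩ Prod.snd ⁻¹' {z}) := by
  have hne : ({x | 0 ≤ ⟪z, g x⟫_ℝ} : Set P).Nonempty := by
    by_contra hne
    rw [not_nonempty_iff_eq_empty] at hne
    exact h.1 (by simp [hne])
  refine acy_retract (g := Prod.fst) (g' := fun x => (x, z)) (fun x _ => continuous_fst.continuousAt)
    (fun x _ => (Continuous.prodMk_left z).continuousAt) ?_
    (fun x hx => ⟨⟨hz, hx⟩, rfl⟩) ?_ ?_ h
  · rintro ⟨x, z'⟩ ⟨h1, h2⟩
    have : z' = z := h2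
    subst this
    exact h1.2
  · rintro ⟨x, z'⟩ ⟨h1, h2⟩
    have : z' = z := h2
    rw [this]
  · obtain ⟨x, hx⟩ := hne
    exact ⟨(x, z), ⟨⟨hz, hx⟩, rfl⟩⟩

/-- If all half-space preimages are acyclic then the cohomology of `P` is that of a sphere. -/
theorem ex_of_halfspaces {g : P → E} (hg : Continuous g) (hg0 : ∀ x, g x ≠ 0)
    (hH : ∀ z : E, ‖z‖ = 1 → (AS P).Acy one {x | 0 ≤ ⟪z, g x⟫_ℝ}) (n : ℕ)
    (hS : (AS E).Ex (Metric.sphere (0 : E) 1) n) : (AS P).Ex univ n := by
  have hW := isCompact_WW hg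
  have himg : Prod.snd '' WW g = Metric.sphere (0 : E) 1 := by
    ext z
    constructor
    · rintro ⟨q, hq, rfl⟩
      simpa using hq.1
    · intro hz
      have hz1 : ‖z‖ = 1 := by simpa using hz
      have hne : ({x | 0 ≤ ⟪z, g x⟫_ℝ} : Set P).Nonempty := by
        by_contra hne
        rw [not_nonempty_iff_eq_empty] at hne
        exact (hH z hz1).1 (by simp [hne])
      obtain ⟨x, hx⟩ := hne
      exact ⟨(x, z), ⟨hz1, hx⟩, rfl⟩
  have h1 : (AS (P × E)).Ex (WW g) n := by
    refine vietoris_begle continuous_snd hW (fun z hz => ?_) ?_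
    · rw [himg] at hz
      exact WW_snd_acy z (by simpa using hz) (hH z (by simpa using hz))
    · rw [himg]; exact hS
  intro c hc
  have h2 : (AS (P × E)).Coc (WW g) n (pb Prod.fst c) :=
    coc_pb (F' := univ) (fun x _ => continuous_fst.continuousAt) (mapsTo_univ _ _) hc
  have h3 := h1 _ h2
  have hEx : (cone (phi Prod.fst continuous_fst (WW g) hW)).Ex univ n := by
    refine ex_of_pointwise n isCompact_univ fun x _ m _ => ?_
    refine cone_ex_of_acy (phi Prod.fst continuous_fst (WW g) hW) one x (one_D_mem x)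
      (acy_singleton x) ?_ m
    rw [push_acy]
    exact WW_fst_acy x (hg0 x)
  have h5 : (PF Prod.fst continuous_fst (WW g) hW).Cob univ n (pb Prod.fst c) := by
    rw [push_cob]
    exact h3.mono inter_subset_left
  obtain ⟨t, ht⟩ := h5
  have h6 : (cone (phi Prod.fst continuous_fst (WW g) hW)).Coc univ n (c, t) := by
    intro z hz
    rw [cone_D, cone_N]
    refine ⟨hc z hz, ?_⟩
    rw [Nat.add_sub_cancel]
    exact ht z hz
  obtain ⟨⟨e', t'⟩, h7⟩ := hEx _ h6
  exact ⟨e', fun z hz => (h7 z hz).1⟩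

end space

section main

variable {P : Type*} [MetricSpace P] [CompactSpace P]

theorem conv_metric2 [ConnectedSpace P] {d : ℕ} (hd : 1 ≤ d)
    [ChartedSpace (EuclideanSpace ℝ (Fin (2 * d))) P]
    (hPex : ∀ n, 2 ≤ n → n ≤ 2 * d → n ≠ d + 1 → (AS P).Ex univ n) (a : Ch P)
    (ha : (AS P).Coc univ (d + 1) a)
    (ha2 : ∀ c, (AS P).Coc univ (d + 1) c →
        (AS P).Cob univ (d + 1) c ∨ (AS P).Cob univ (d + 1) (c - a))
    (hPtop : ¬ (AS P).Ex univ (2 * d + 1))
    (f : P → EuclideanSpace ℝ (Fin (d + 1))) (hf : Continuous f)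
    (hs : ∀ (z : EuclideanSpace ℝ (Fin (d + 1))) (t : ℝ), z ≠ 0 → ∃ x, ⟪z, f x⟫_ℝ ≠ t)
    (hsurj : ∀ z : EuclideanSpace ℝ (Fin (d + 1)), z ≠ 0 → ∀ t : ℝ, ∀ n, 1 ≤ n → ∀ c,
      (AS P).Coc {x | t ≤ ⟪z, f x⟫_ℝ} n c →
        ∃ c', (AS P).Coc univ n c' ∧ (AS P).Cob {x | t ≤ ⟪z, f x⟫_ℝ} n (c - c')) :
    Convex ℝ (range f) := by
  by_contra hnc
  obtain ⟨y, hy, hpos⟩ := exists_missed hf hs hnc
  have htopeq : ∀ z, top (fun x => f x - y) z = top f z := by
    intro z
    ext x
    simp only [top, mem_ofPred_eq, inner_sub_right, sub_le_sub_iff_right]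
  have hgc : Continuous fun x => f x - y := hf.sub continuous_const
  have hgne : ∀ x, f x - y ≠ 0 := fun x => sub_ne_zero.2 (hy x)
  -- surjectivity for the top sets
  have hsurj' : ∀ z : EuclideanSpace ℝ (Fin (d + 1)), z ≠ 0 → ∀ n, 1 ≤ n → ∀ c,
      (AS P).Coc (top f z) n c →
        ∃ c', (AS P).Coc univ n c' ∧ (AS P).Cob (top f z) n (c - c') := by
    intro z hz n hn c hc
    obtain ⟨x₁, -, hx₁⟩ := isCompact_univ.exists_isMaxOn (univ_nonempty (α := P))
      ((continuous_const.inner hf : Continuous fun x => ⟪z, f x⟫_ℝ).continuousOn)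
    have htop : top f z = {x | ⟪z, f x₁⟫_ℝ ≤ ⟪z, f x⟫_ℝ} := by
      ext x
      constructor
      · intro h
        exact h x₁
      · intro h y
        exact (hx₁ (mem_univ y)).trans h
    rw [htop] at hc ⊢
    exact hsurj z hz _ n hn c hc
  have hfib : ∀ z : EuclideanSpace ℝ (Fin (d + 1)), ‖z‖ = 1 →
      (AS P).Acy one (top (fun x => f x - y) z) ∨
        (AS P).AType one d a (top (fun x => f x - y) z) := by
    intro z hz
    rw [htopeq]
    exact top_fib hd hPex a ha2 f hf hs hsurj' z hz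
  obtain ⟨e, he, hne⟩ := sp_top (M := d + 1) (k := d + 1) (by omega) le_rfl
  rw [sp_eq_sphere] at he hne
  have key := radial_ne (f := fun x => f x - y) hgc hd le_rfl hpos hgne a ha hfib he hne
  set r : P → EuclideanSpace ℝ (Fin (d + 1)) := fun x => ‖f x - y‖⁻¹ • (f x - y) with hr
  have hrc : Continuous r :=
    (Continuous.inv₀ hgc.norm fun x => norm_ne_zero_iff.2 (hgne x)).smul hgc
  have hr1 : ∀ x, ‖r x‖ = 1 := by
    intro x
    rw [hr]
    simp only
    rw [norm_smul, norm_inv, norm_norm, inv_mul_cancel₀ (norm_ne_zero_iff.2 (hgne x))]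
  have hcoc : (AS P).Coc univ (d + 1) (pb r e) := by
    refine coc_pb (F' := Metric.sphere 0 1) (fun x _ => hrc.continuousAt) ?_ he
    intro x _
    rw [mem_sphere_zero_iff_norm]
    exact hr1 x
  have har : (AS P).Cob univ (d + 1) (pb r e - a) := by
    rcases ha2 _ hcoc with h | h
    · exact absurd h key
    · exact h
  -- the half-space preimages are acyclic
  have hH : ∀ z : EuclideanSpace ℝ (Fin (d + 1)), ‖z‖ = 1 →
      (AS P).Acy one {x | 0 ≤ ⟪z, f x - y⟫_ℝ} := by
    intro z hz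
    have hz0 : z ≠ 0 := by rintro rfl; simp at hz
    set H : Set P := {x | 0 ≤ ⟪z, f x - y⟫_ℝ} with hHdef
    have hHeq : H = {x | ⟪z, y⟫_ℝ ≤ ⟪z, f x⟫_ℝ} := by
      ext x
      rw [hHdef]
      simp only [mem_ofPred_eq, inner_sub_right, sub_nonneg]
    have hHcl : IsClosed H := isClosed_le continuous_const (continuous_const.inner hgc)
    have hHne : H.Nonempty := by
      obtain ⟨x, hx⟩ := hpos z hz0
      exact ⟨x, hx.le⟩
    have hHu : H ≠ univ := by
      intro h
      obtain ⟨x, hx⟩ := hpos (-z) (neg_ne_zero.2 hz0)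
      have h1 : x ∈ H := h ▸ mem_univ x
      rw [inner_neg_left] at hx
      have h2 : 0 ≤ ⟪z, f x - y⟫_ℝ := h1
      linarith
    have hs1 : ∀ n, 1 ≤ n → ∀ c, (AS P).Coc H n c →
        ∃ c', (AS P).Coc univ n c' ∧ (AS P).Cob H n (c - c') := by
      intro n hn c hc
      rw [hHeq] at hc ⊢
      exact hsurj z hz0 _ n hn c hc
    have haH : (AS P).Cob H (d + 1) a := by
      have h1 : (AS (EuclideanSpace ℝ (Fin (d + 1)))).Cob (hem z) (d + 1) e := by
        refine (hem_acy z hz0).2.2 (d + 1) (by omega) e (he.mono ?_)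
        intro w hw
        rw [mem_sphere_zero_iff_norm]
        exact hw.1
      have h2 : (AS P).Cob H (d + 1) (pb r e) := by
        refine cob_pb (F' := hem z) (fun x _ => hrc.continuousAt) ?_ h1
        intro x hx
        refine ⟨hr1 x, ?_⟩
        rw [real_inner_comm]
        change 0 ≤ ⟪z, ‖f x - y‖⁻¹ • (f x - y)⟫_ℝ
        rw [real_inner_smul_right]
        exact mul_nonneg (inv_nonneg.2 (norm_nonneg _)) hx
      have h3 := h2.sub (har.mono (subset_univ H))
      simpa using h3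
    refine ⟨not_one_mem hHne, ?_, ?_⟩
    · intro k hk
      obtain ⟨c', hc', hcob⟩ := hs1 1 le_rfl k hk
      have h0 := cob_one.1 hcob
      rcases coc_one_connected c' hc' with h | h
      · left
        intro w hw
        simpa using add_mem (h0 w hw) (h w (mem_univ w))
      · right
        intro w hw
        have := add_mem (h0 w hw) (h w (mem_univ w))
        simpa using this
    · intro n hn
      rcases Nat.lt_or_ge (2 * d) n with h | h
      · rcases Nat.lt_or_ge (2 * d + 1) n with h' | h'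
        · exact ex_of_locally_embed (m := 2 * d) exists_local_embed hHcl.isCompact (by omega)
            (by omega)
        · obtain rfl : n = 2 * d + 1 := by omega
          exact ex_top (by omega) hHcl hHu
      · intro k hk
        obtain ⟨c', hc', hcob⟩ := hs1 n (by omega) k hk
        by_cases hnd : n = d + 1
        · subst hnd
          rcases ha2 c' hc' with h1 | h1
          · have := hcob.add (h1.mono (subset_univ _))
            simpa using this
          · have := (hcob.add (h1.mono (subset_univ _))).add haH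
            simpa using this
        · have := hcob.add ((hPex n hn h hnd c' hc').mono (subset_univ _))
          simpa using this
  apply hPtop
  refine ex_of_halfspaces hgc hgne hH (2 * d + 1) ?_
  rw [← sp_eq_sphere]
  exact sp_ex (by omega) le_rfl (2 * d + 1) (by omega) (by omega)

end main

/-- Tight substantial maps of manifolds like projective planes into `ℝ^N`, `N ≤ d + 1`, have
convex image. -/
theorem conv_sharp {P : Type*} [TopologicalSpace P] {d N : ℕ} (hd : 1 ≤ d) (hN : N ≤ d + 1)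
    [ChartedSpace (EuclideanSpace ℝ (Fin (2 * d))) P] (hP : IsLikeProjectivePlane d P)
    (f : P → EuclideanSpace ℝ (Fin N)) (hf : Continuous f) (hs : Substantial f)
    (ht : TightMap f ∨ CechTightMap f) : Convex ℝ (range f) := by
  rcases Nat.lt_or_ge d N with hdN | hdN
  swap
  · exact conv_final hd hdN hP f hf hs ht
  obtain rfl : N = d + 1 := by omega
  obtain ⟨hPc, hPh, S, ⟨eS⟩, ⟨eC⟩⟩ := hP
  haveI : SecondCountableTopology P :=
    ChartedSpace.secondCountable_of_sigmaCompact (EuclideanSpace ℝ (Fin (2 * d))) P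
  haveI : TopologicalSpace.MetrizableSpace P :=
    TopologicalSpace.metrizableSpace_of_t3_secondCountable P
  letI : MetricSpace P := TopologicalSpace.metrizableSpaceMetric P
  obtain ⟨hconn, hPex, a, ha, ha2⟩ := plane_facts hd S eS eC
  haveI := hconn
  have hPtop : ¬ (AS P).Ex univ (2 * d + 1) := by
    intro h
    obtain ⟨m, hm⟩ : ∃ m, 2 * d = m + 1 := ⟨2 * d - 1, by omega⟩
    have key : ∀ k : ℕ, k = m + 1 → ∀ _ : ChartedSpace (EuclideanSpace ℝ (Fin k)) P,
        ∃ c, (AS P).Coc univ (k + 1) c ∧ ¬ (AS P).Cob univ (k + 1) c := by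
      rintro k rfl cs
      exact top_class_ne m
    obtain ⟨c, hc, hnc⟩ := key (2 * d) hm inferInstance
    exact hnc (h c hc)
  refine conv_metric2 hd hPex a ha ha2 hPtop f hf hs fun z hz t n hn c hc => ?_
  rcases ht with ht | ht
  · exact surj_of_sing (m := 2 * d) (fun x => ⟪z, f x⟫_ℝ) (continuous_const.inner hf) _
      (fun t _ => ht z t hz) n c hc
  · exact surj_of_cech (isClosed_le continuous_const (continuous_const.inner hf)).isCompact
      (ht z _ hz) n hn c hc

end Pool.Agent.H61PP
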