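import Pool.Agent.H61PP.SingT

/-! Injectivity in singular homology from surjectivity in Alexander-Spanier cohomology. -/

set_option autoImplicit false

namespace Pool.Agent.H61PP

open Set Topology
open Pool.Agent.Helper775.Tight Pool.Agent.Helper775.Tight.SoftCx

theorem lin_zero {X : Type*} [TopologicalSpace X] {n : ℕ}
    (φ : (Sing X n →₀ ZMod 2) →ₗ[ZMod 2] ZMod 2) (z : Sing X n →₀ ZMod 2)
    (h : ∀ σ ∈ z.support, φ (Finsupp.single σ 1) = 0) : φ z = 0 := by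
  conv_lhs => rw [← Finsupp.sum_single z]
  rw [Finsupp.sum, map_sum]
  refine Finset.sum_eq_zero fun σ hσ => ?_
  have h1 : (Finsupp.single σ (z σ) : Sing X n →₀ ZMod 2) = z σ • Finsupp.single σ 1 := by simp
  rw [h1, map_smul, h σ hσ, smul_zero]

theorem hi_of_surj {P : Type*} [MetricSpace P] {Z : Set P} (hZc : IsClosed Z)
    (hθ : ∀ (n : ℕ) (s : SCh Z), (Sg Z).Coc univ n s →
      ∃ c, (AS Z).Coc univ n c ∧ (Sg Z).Cob univ n (s - theta c))
    (hS : ∀ (n : ℕ), 1 ≤ n → ∀ (c : Ch Z), (AS Z).Coc univ n c →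
      ∃ c' : Ch P, (AS P).Coc univ n c' ∧ (AS Z).Cob univ n (c - pb Subtype.val c')) :
    HomologyInjective Z := by
  classical
  intro n z hz hcyc ⟨b, hb⟩
  by_contra hno
  set B : Submodule (ZMod 2) (Sing P n →₀ ZMod 2) :=
    (Finsupp.supported (ZMod 2) (ZMod 2) {σ : Sing P (n + 1) | range σ ⊆ Z}).map (bdry P n)
    with hB
  have hzB : z ∉ B := by
    rintro ⟨w, hw, hwz⟩
    exact hno ⟨w, fun σ hσ => (Finsupp.mem_supported _ _).1 hw hσ, hwz⟩
  obtain ⟨ψ, hψz, hψB⟩ := Submodule.exists_le_ker_of_notMem hzB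
  have hψB' : ∀ w : Sing P (n + 1) →₀ ZMod 2, ChainIn Z w → ψ (bdry P n w) = 0 := by
    intro w hw
    refine LinearMap.mem_ker.1 (hψB (Submodule.mem_map_of_mem ?_))
    rw [Finsupp.mem_supported]
    exact fun σ hσ => hw σ hσ
  -- the singular cocycle
  set s : SCh Z := Function.update 0 n (fun σ => ψ (Finsupp.single (sbIota Z n σ) 1)) with hsdef
  have hsn : ∀ σ : Sing Z n, s n σ = ψ (Finsupp.single (sbIota Z n σ) 1) := by
    intro σ; rw [hsdef, Function.update_self]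
  have hs : (Sg Z).Coc univ (n + 1) s := by
    intro x _
    refine ⟨univ, Filter.univ_mem, fun σ _ => ?_⟩
    change ∑ i : Fin (n + 2), s n (sface n i σ) = 0
    have h1 := hψB' (Finsupp.single (sbIota Z (n + 1) σ) 1) (by
      intro τ hτ
      have : τ = sbIota Z (n + 1) σ := by
        have := Finsupp.support_single_subset hτ
        simpa using this
      rw [this]
      exact sbIota_range Z _ σ)
    rw [sx_bdry_single, map_sum] at h1
    simp only [hsn]
    exact h1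
  obtain ⟨c, hc, t, ht⟩ := hθ (n + 1) s hs
  obtain ⟨c', hc', k, hk⟩ := hS (n + 1) (by omega) c hc
  set r : SCh Z := t + theta k with hr
  have hrr : ∀ x : Z, ∃ W ∈ 𝓝 x, ∀ σ : Sing Z n, range σ ⊆ W →
      s n σ - theta (pb Subtype.val c') n σ - sdf r n σ = 0 := by
    intro x
    have h1 : s - theta c - sdf t ∈ SNz x (n + 1) := ht x (mem_univ x)
    have h2 : theta (c - pb Subtype.val c' - dd k) ∈ SNz x (n + 1) :=
      (Theta (P := Z)).mem x (n + 1) _ (hk x (mem_univ x))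
    have h3 := add_mem h1 h2
    obtain ⟨W, hW, h4⟩ := h3
    refine ⟨W, hW, fun σ hσ => ?_⟩
    have h5 := h4 σ hσ
    have e1 : theta (c - pb Subtype.val c' - dd k) =
        theta c - theta (pb Subtype.val c') - sdf (theta k) := by
      rw [theta_sub, theta_sub, sdf_theta]
    have e2 : sdf r = sdf t + sdf (theta k) := (SDD (P := Z)).map_add t (theta k)
    rw [e1] at h5
    rw [e2]
    simp only [Pi.add_apply, Pi.sub_apply] at h5 ⊢
    linear_combination h5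
  have hcc : ∀ x : P, ∃ W ∈ 𝓝 x, ∀ τ : Sing P (n + 1), range τ ⊆ W →
      ∑ i : Fin (n + 2), theta c' n (sface n i τ) = 0 := by
    intro x
    have h1 : theta (dd c') ∈ SNz x (n + 2) :=
      (Theta (P := P)).mem x (n + 2) _ (hc' x (mem_univ x))
    rw [← sdf_theta] at h1
    exact h1
  -- the cover
  set 𝒞 : Set (Set P) := {C | IsOpen C ∧
    (∀ τ : Sing P (n + 1), range τ ⊆ C → ∑ i : Fin (n + 2), theta c' n (sface n i τ) = 0) ∧
    (∀ σ : Sing Z n, range (sbIota Z n σ) ⊆ C →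
      s n σ - theta (pb Subtype.val c') n σ - sdf r n σ = 0)} with h𝒞
  have hCo : ∀ C ∈ 𝒞, IsOpen C := fun C hC => hC.1
  have hCcov : ∀ x : P, ∃ C ∈ 𝒞, x ∈ C := by
    intro x
    obtain ⟨W1, hW1, h1⟩ := hcc x
    obtain ⟨U1, hU1, hU1o, hxU1⟩ := mem_nhds_iff.1 hW1
    by_cases hx : x ∈ Z
    · obtain ⟨W2, hW2, h2⟩ := hrr ⟨x, hx⟩
      obtain ⟨V, hV, hVW⟩ := (mem_nhds_subtype _ _ _).1 hW2
      obtain ⟨U2, hU2, hU2o, hxU2⟩ := mem_nhds_iff.1 hV
      refine ⟨U1 ∩ U2, ⟨hU1o.inter hU2o, ?_, ?_⟩, hxU1, hxU2⟩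
      · intro τ hτ
        exact h1 τ ((hτ.trans inter_subset_left).trans hU1)
      · intro σ hσ
        apply h2
        rintro _ ⟨y, rfl⟩
        apply hVW
        apply hU2
        exact (hσ ⟨y, rfl⟩).2
    · refine ⟨U1 ∩ Zᶜ, ⟨hU1o.inter hZc.isOpen_compl, ?_, ?_⟩, hxU1, hx⟩
      · intro τ hτ
        exact h1 τ ((hτ.trans inter_subset_left).trans hU1)
      · intro σ hσ
        exfalso
        have h2 := (hσ ⟨stdSimplex.vertex 0, rfl⟩).2
        exact h2 (σ (stdSimplex.vertex 0)).2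
  have hopen' : ∀ D ∈ sbCov 𝒞 Z, IsOpen D := by
    rintro D ⟨C, hC, rfl⟩
    exact (hCo C hC).preimage continuous_subtype_val
  have hcov' : ∀ x : Z, ∃ D ∈ sbCov 𝒞 Z, x ∈ D := by
    intro x
    obtain ⟨C, hC, hx⟩ := hCcov x
    exact ⟨_, ⟨C, hC, rfl⟩, hx⟩
  -- subdivide
  obtain ⟨z0, hz0⟩ := sb_lift Z n z hz
  set z1 := sbPhi Z n (Sc.rho (sbCov 𝒞 Z) n z0) with hz1
  have hsmall : ∀ σ ∈ z1.support, σ ∈ sbSet 𝒞 Z n :=
    sbPhi_small 𝒞 Z n _ (Sc.rho_small _ hopen' hcov' _ _)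
  obtain ⟨w, hwZ, hw⟩ : ∃ w : Sing P (n + 1) →₀ ZMod 2, ChainIn Z w ∧ z1 = z + bdry P n w := by
    rcases n with _ | n
    · refine ⟨0, fun σ hσ => absurd hσ (by simp), ?_⟩
      rw [map_zero, add_zero, hz1]
      exact hz0
    · refine ⟨- sbPhi Z (n + 2) (Sc.DD (sbCov 𝒞 Z) (n + 1) z0), ?_, ?_⟩
      · intro σ hσ
        rw [Finsupp.support_neg] at hσ
        exact sbPhi_chainIn _ σ hσ
      · have h4 : sbPhi Z n (Sc.sbd Z n z0) = 0 := by
          rw [← sbPhi_bdry, hz0]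
          exact hcyc
        obtain ⟨y, hy⟩ := even_of_sbPhi _ h4
        have h5 : sbPhi Z (n + 1) (Sc.DD (sbCov 𝒞 Z) n (Sc.sbd Z n z0)) = 0 := by
          rw [hy, map_smul, map_smul, two_smul_mod]
        rw [hz1, Sc.rho_succ, map_sub, map_sub, h5, sub_zero, hz0, map_neg, sbPhi_bdry]
        rw [sub_eq_add_neg]
  have hψz1 : ψ z1 = ψ z := by
    rw [hw, map_add, hψB' w hwZ, add_zero]
  have hz1cyc : IsCycle n z1 := by
    rcases n with _ | n
    · trivial
    · change bdry P n z1 = 0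
      have h1 : bdry P n z = 0 := hcyc
      rw [hw, map_add, h1, bdry_bdry, add_zero]
  have hz1b : bdry P n (b + w) = z1 := by
    rw [map_add, hb, hw]
  obtain ⟨b', hb', hbz'⟩ := small_bound 𝒞 univ hCo (fun x _ => hCcov x) n z1
    (fun σ hσ => ⟨subset_univ _, (hsmall σ hσ).2⟩) (b + w) (fun σ _ => subset_univ _) hz1b
  set Θ : (Sing P n →₀ ZMod 2) →ₗ[ZMod 2] ZMod 2 :=
    Finsupp.linearCombination (ZMod 2) (theta c' n) with hΘ
  have hΘ1 : ∀ τ, Θ (Finsupp.single τ 1) = theta c' n τ := by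
    intro τ; simp [hΘ, Finsupp.linearCombination_single]
  have hΘz : Θ z1 = 0 := by
    rw [← hbz']
    apply sx_bdry_zero
    intro σ hσ
    simp only [hΘ1]
    obtain ⟨C, hC, hσC⟩ := (hb' σ hσ).2
    exact hC.2.1 σ hσC
  obtain ⟨Ξ, hΞ1, hΞ2⟩ : ∃ Ξ : (Sing P n →₀ ZMod 2) →ₗ[ZMod 2] ZMod 2,
      (∀ τ : Sing Z n, Ξ (Finsupp.single (sbIota Z n τ) 1) = sdf r n τ) ∧
        ∀ y, IsCycle n y → Ξ y = 0 := by
    rcases n with _ | m
    · exact ⟨0, fun τ => rfl, fun y _ => rfl⟩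
    · set ρ : (Sing P m →₀ ZMod 2) →ₗ[ZMod 2] ZMod 2 :=
        Finsupp.linearCombination (ZMod 2) (fun τ => if h : ∃ τ', sbIota Z m τ' = τ then
          r m h.choose else 0) with hρ
      have hρ1 : ∀ τ' : Sing Z m, ρ (Finsupp.single (sbIota Z m τ') 1) = r m τ' := by
        intro τ'
        have h : ∃ τ'', sbIota Z m τ'' = sbIota Z m τ' := ⟨τ', rfl⟩
        have h1 : h.choose = τ' := sbIota_inj Z m h.choose_spec
        simp only [hρ, Finsupp.linearCombination_single, one_smul]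
        rw [dif_pos h, h1]
      refine ⟨ρ.comp (bdry P m), fun τ => ?_, fun y hy => ?_⟩
      · rw [LinearMap.comp_apply, sx_bdry_single, map_sum]
        change _ = ∑ i : Fin (m + 2), r m (sface m i τ)
        refine Finset.sum_congr rfl fun i _ => ?_
        rw [← hρ1]
        rfl
      · have h1 : bdry P m y = 0 := hy
        rw [LinearMap.comp_apply, h1, map_zero]
  have hfin : (ψ - Θ - Ξ) z1 = 0 := by
    apply lin_zero
    intro σ hσ
    obtain ⟨hσZ, C, hC, hσC⟩ := hsmall σ hσ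
    obtain ⟨τ, rfl⟩ := sbIota_surj Z n σ hσZ
    have h1 := hC.2.2 τ hσC
    rw [LinearMap.sub_apply, LinearMap.sub_apply, hΞ1, hΘ1]
    rw [hsn] at h1
    have e : theta (pb Subtype.val c') n τ = theta c' n (sbIota Z n τ) := by
      simp only [theta, pb, List.map_ofFn]
      rfl
    rw [e] at h1
    exact h1
  rw [LinearMap.sub_apply, LinearMap.sub_apply, hΘz, hΞ2 z1 hz1cyc, hψz1, sub_zero, sub_zero]
    at hfin
  exact hψz hfin

end Pool.Agent.H61PP
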