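import Mathlib

/-! Convex hypersurfaces. -/

set_option autoImplicit false

namespace Pool.Agent.H61PP

/-- A convex hypersurface: the boundary of a compact convex set with nonempty interior. -/
def IsConvexHypersurface {N : ℕ} (S : Set (EuclideanSpace ℝ (Fin N))) : Prop :=
  ∃ K : Set (EuclideanSpace ℝ (Fin N)), IsCompact K ∧ Convex ℝ K ∧ (interior K).Nonempty ∧
    S = frontier K

end Pool.Agent.H61PP
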