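import Pool.Agent.H61PP.Geo4
import Pool.Agent.H61PP.HDefs

/-! Examples of tight substantial maps with nonconvex image. -/

set_option autoImplicit false

namespace Pool.Agent.H61PP

open Set Topology Matrix
open Pool.Agent.Helper775.Tight Pool.Agent.Helper775.Tight.SoftCx
open scoped ComplexConjugate InnerProductSpace

section convex

variable {N : ℕ} {S : Set (EuclideanSpace ℝ (Fin N))}

theorem not_convex_of (a b m : EuclideanSpace ℝ (Fin N)) (ha : a ∈ S) (hb : b ∈ S)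
    (hm : m = (1 / 2 : ℝ) • a + (1 / 2 : ℝ) • b) (hmS : m ∉ S) : ¬ Convex ℝ S := by
  intro h
  apply hmS
  rw [hm]
  exact h ha hb (by norm_num) (by norm_num) (by norm_num)

theorem mem_frontier_of_max {K : Set (EuclideanSpace ℝ (Fin N))} (j : Fin N)
    {x : EuclideanSpace ℝ (Fin N)} (hx : x ∈ K) (hmax : ∀ y ∈ K, y j ≤ x j) : x ∈ frontier K := by
  rw [frontier, mem_sdiff]
  refine ⟨subset_closure hx, fun hint => ?_⟩
  obtain ⟨ε, hε, hball⟩ := Metric.isOpen_iff.1 isOpen_interior x hint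
  have h1 : x + (ε / 2) • EuclideanSpace.single j (1 : ℝ) ∈ Metric.ball x ε := by
    rw [Metric.mem_ball, dist_eq_norm, add_sub_cancel_left, norm_smul, EuclideanSpace.norm_single,
      norm_one, mul_one, Real.norm_eq_abs, abs_of_pos (by positivity)]
    linarith
  have h2 := hmax _ (interior_subset (hball h1))
  simp at h2
  linarith

theorem not_hyper_of (j : Fin N) (hj : ∀ x ∈ S, x j ≤ 1) (a b m : EuclideanSpace ℝ (Fin N))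
    (ha : a ∈ S) (hb : b ∈ S) (hm : m = (1 / 2 : ℝ) • a + (1 / 2 : ℝ) • b)
    (hmS : m ∉ S) (hmj : m j = 1) : ¬ IsConvexHypersurface S := by
  rintro ⟨K, hKc, hKconv, -, hSK⟩
  have hfK : frontier K ⊆ K := hKc.isClosed.frontier_subset
  have haK : a ∈ K := hfK (hSK ▸ ha)
  have hbK : b ∈ K := hfK (hSK ▸ hb)
  have hmK : m ∈ K := by
    rw [hm]
    exact hKconv haK hbK (by norm_num) (by norm_num) (by norm_num)
  have hc : Continuous fun x : EuclideanSpace ℝ (Fin N) => x j := by fun_prop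
  obtain ⟨x₀, hx₀, hmax⟩ := hKc.exists_isMaxOn ⟨m, hmK⟩ hc.continuousOn
  have hx₀S : x₀ ∈ S := by
    rw [hSK]
    exact mem_frontier_of_max j hx₀ fun y hy => hmax hy
  have h1 := hj x₀ hx₀S
  apply hmS
  rw [hSK]
  refine mem_frontier_of_max j hmK fun y hy => ?_
  have h2 : y j ≤ x₀ j := hmax hy
  linarith

end convex

section mats

variable (𝕜 : Type) [RCLike 𝕜]

/-- `|x₀|² + |x₁|²` -/
def m0 : Matrix (Fin (2 + 1)) (Fin (2 + 1)) 𝕜 := !![1, 0, 0; 0, 1, 0; 0, 0, 0]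

/-- `|x₀|² - |x₁|²` -/
def m1 : Matrix (Fin (2 + 1)) (Fin (2 + 1)) 𝕜 := !![1, 0, 0; 0, -1, 0; 0, 0, 0]

/-- `2 Re (conj x₀ * x₁)` -/
def m2 : Matrix (Fin (2 + 1)) (Fin (2 + 1)) 𝕜 := !![0, 1, 0; 1, 0, 0; 0, 0, 0]

/-- `2 Im (conj x₀ * x₁)` -/
noncomputable def m3 : Matrix (Fin (2 + 1)) (Fin (2 + 1)) 𝕜 :=
  !![0, -RCLike.I, 0; RCLike.I, 0, 0; 0, 0, 0]

/-- `2 Re (conj x₀ * x₂)` -/
def m4 : Matrix (Fin (2 + 1)) (Fin (2 + 1)) 𝕜 := !![0, 0, 1; 0, 0, 0; 1, 0, 0]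

theorem m0_herm : (m0 𝕜).IsHermitian := by
  ext i j
  fin_cases i <;> fin_cases j <;> simp [m0, Matrix.conjTranspose_apply]

theorem m1_herm : (m1 𝕜).IsHermitian := by
  ext i j
  fin_cases i <;> fin_cases j <;> simp [m1, Matrix.conjTranspose_apply]

theorem m2_herm : (m2 𝕜).IsHermitian := by
  ext i j
  fin_cases i <;> fin_cases j <;> simp [m2, Matrix.conjTranspose_apply]

theorem m3_herm : (m3 𝕜).IsHermitian := by
  ext i j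
  fin_cases i <;> fin_cases j <;> simp [m3, Matrix.conjTranspose_apply]

theorem m4_herm : (m4 𝕜).IsHermitian := by
  ext i j
  fin_cases i <;> fin_cases j <;> simp [m4, Matrix.conjTranspose_apply]

variable {𝕜}

theorem qf_expand (T : Matrix (Fin (2 + 1)) (Fin (2 + 1)) 𝕜) (x : Fin (2 + 1) → 𝕜) :
    qf T x = RCLike.re (conj (x 0) * (T 0 0 * x 0 + T 0 1 * x 1 + T 0 2 * x 2) +
      conj (x 1) * (T 1 0 * x 0 + T 1 1 * x 1 + T 1 2 * x 2) +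
      conj (x 2) * (T 2 0 * x 0 + T 2 1 * x 1 + T 2 2 * x 2)) := by
  have key : ∀ g : Fin (2 + 1) → 𝕜, ∑ i, g i = g 0 + g 1 + g 2 := fun g => Fin.sum_univ_three g
  unfold qf
  simp only [dotProduct, Matrix.mulVec, key, Pi.star_apply, RCLike.star_def]

theorem re_conj_self (a : 𝕜) : RCLike.re (conj a * a) = ‖a‖ ^ 2 := by
  rw [RCLike.conj_mul]
  have h : ((‖a‖ : 𝕜) ^ 2) = ((‖a‖ ^ 2 : ℝ) : 𝕜) := by push_cast; rfl
  rw [h, RCLike.ofReal_re]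

theorem qf_m0 (x : Fin (2 + 1) → 𝕜) : qf (m0 𝕜) x = ‖x 0‖ ^ 2 + ‖x 1‖ ^ 2 := by
  rw [qf_expand]
  have h : (conj (x 0) * (m0 𝕜 0 0 * x 0 + m0 𝕜 0 1 * x 1 + m0 𝕜 0 2 * x 2) +
      conj (x 1) * (m0 𝕜 1 0 * x 0 + m0 𝕜 1 1 * x 1 + m0 𝕜 1 2 * x 2) +
      conj (x 2) * (m0 𝕜 2 0 * x 0 + m0 𝕜 2 1 * x 1 + m0 𝕜 2 2 * x 2)) =
      conj (x 0) * x 0 + conj (x 1) * x 1 := by
    simp [m0]
  rw [h, map_add, re_conj_self, re_conj_self]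

theorem qf_m1 (x : Fin (2 + 1) → 𝕜) : qf (m1 𝕜) x = ‖x 0‖ ^ 2 - ‖x 1‖ ^ 2 := by
  rw [qf_expand]
  have h : (conj (x 0) * (m1 𝕜 0 0 * x 0 + m1 𝕜 0 1 * x 1 + m1 𝕜 0 2 * x 2) +
      conj (x 1) * (m1 𝕜 1 0 * x 0 + m1 𝕜 1 1 * x 1 + m1 𝕜 1 2 * x 2) +
      conj (x 2) * (m1 𝕜 2 0 * x 0 + m1 𝕜 2 1 * x 1 + m1 𝕜 2 2 * x 2)) =
      conj (x 0) * x 0 - conj (x 1) * x 1 := by
    simp [m1]
    ring
  rw [h, map_sub, re_conj_self, re_conj_self]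

theorem re_swap (a b : 𝕜) : RCLike.re (conj b * a) = RCLike.re (conj a * b) := by
  have h : conj b * a = conj (conj a * b) := by
    rw [map_mul, RCLike.conj_conj]
    ring
  rw [h, RCLike.conj_re]

theorem qf_m2 (x : Fin (2 + 1) → 𝕜) : qf (m2 𝕜) x = 2 * RCLike.re (conj (x 0) * x 1) := by
  rw [qf_expand]
  have h : (conj (x 0) * (m2 𝕜 0 0 * x 0 + m2 𝕜 0 1 * x 1 + m2 𝕜 0 2 * x 2) +
      conj (x 1) * (m2 𝕜 1 0 * x 0 + m2 𝕜 1 1 * x 1 + m2 𝕜 1 2 * x 2) +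
      conj (x 2) * (m2 𝕜 2 0 * x 0 + m2 𝕜 2 1 * x 1 + m2 𝕜 2 2 * x 2)) =
      conj (x 0) * x 1 + conj (x 1) * x 0 := by
    simp [m2]
  rw [h, map_add, re_swap (x 0) (x 1)]
  ring

theorem qf_m4 (x : Fin (2 + 1) → 𝕜) : qf (m4 𝕜) x = 2 * RCLike.re (conj (x 0) * x 2) := by
  rw [qf_expand]
  have h : (conj (x 0) * (m4 𝕜 0 0 * x 0 + m4 𝕜 0 1 * x 1 + m4 𝕜 0 2 * x 2) +
      conj (x 1) * (m4 𝕜 1 0 * x 0 + m4 𝕜 1 1 * x 1 + m4 𝕜 1 2 * x 2) +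
      conj (x 2) * (m4 𝕜 2 0 * x 0 + m4 𝕜 2 1 * x 1 + m4 𝕜 2 2 * x 2)) =
      conj (x 0) * x 2 + conj (x 2) * x 0 := by
    simp [m4]
  rw [h, map_add, re_swap (x 0) (x 2)]
  ring

theorem qf_m3 (x : Fin (2 + 1) → ℂ) : qf (m3 ℂ) x = 2 * (conj (x 0) * x 1).im := by
  rw [qf_expand]
  have h : (conj (x 0) * (m3 ℂ 0 0 * x 0 + m3 ℂ 0 1 * x 1 + m3 ℂ 0 2 * x 2) +
      conj (x 1) * (m3 ℂ 1 0 * x 0 + m3 ℂ 1 1 * x 1 + m3 ℂ 1 2 * x 2) +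
      conj (x 2) * (m3 ℂ 2 0 * x 0 + m3 ℂ 2 1 * x 1 + m3 ℂ 2 2 * x 2)) =
      -(conj (x 0) * (Complex.I * x 1)) + conj (x 1) * (Complex.I * x 0) := by
    simp [m3]
  rw [h, RCLike.re_eq_complex_re]
  simp [Complex.add_re, Complex.mul_re, Complex.mul_im]
  ring

/-- first unit vector -/
noncomputable def nv (x y z : 𝕜) (h : x ≠ 0 ∨ y ≠ 0 ∨ z ≠ 0) : NZ 𝕜 := ⟨![x, y, z], by
  intro h0
  have h1 : x = 0 := congrFun h0 0
  have h2 : y = 0 := congrFun h0 1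
  have h3 : z = 0 := congrFun h0 2
  rcases h with h | h | h
  · exact h h1
  · exact h h2
  · exact h h3⟩

theorem nn_three (x : Fin (2 + 1) → 𝕜) : nn x = ‖x 0‖ ^ 2 + ‖x 1‖ ^ 2 + ‖x 2‖ ^ 2 := by
  unfold nn
  rw [Fin.sum_univ_three]

end mats

end Pool.Agent.H61PP
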