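import Pool.Agent.H61PP.Exam

/-! Examples of tight substantial maps with nonconvex image: conclusion. -/

set_option autoImplicit false

namespace Pool.Agent.H61PP

open Set Topology Matrix
open Pool.Agent.Helper775.Tight Pool.Agent.Helper775.Tight.SoftCx
open scoped ComplexConjugate InnerProductSpace

section

variable {𝕜 : Type} [RCLike 𝕜]

theorem fT_inner {N : ℕ} (T : Fin N → Matrix (Fin (2 + 1)) (Fin (2 + 1)) 𝕜)
    (z : EuclideanSpace ℝ (Fin N)) (v : NZ 𝕜) :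
    ⟪z, fT T (pj v)⟫_ℝ = (∑ i, z i * qf (T i) v.1) / nn v.1 := by
  rw [PiLp.inner_apply, Finset.sum_div]
  refine Finset.sum_congr rfl fun i _ => ?_
  change ⟪z i, gT (T i) (pj v)⟫_ℝ = _
  rw [gT_pj, real_inner_eq_re_inner]
  simp
  ring

theorem fT_apply {N : ℕ} (T : Fin N → Matrix (Fin (2 + 1)) (Fin (2 + 1)) 𝕜) (v : NZ 𝕜)
    (i : Fin N) : fT T (pj v) i = qf (T i) v.1 / nn v.1 := gT_pj (T i) v

theorem image_bad {N : ℕ} (T : Fin N → Matrix (Fin (2 + 1)) (Fin (2 + 1)) 𝕜) (i0 i1 : Fin N)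
    (h0 : T i0 = m0 𝕜) (h1 : T i1 = m1 𝕜) (h01 : i1 ≠ i0)
    (hcross : ∀ v : NZ 𝕜, (∀ i, i ≠ i0 → qf (T i) v.1 = 0) → conj (v.1 0) * v.1 1 = 0)
    (hd0 : ∀ i, i ≠ i0 → i ≠ i1 → qf (T i) ![1, 0, 0] = 0 ∧ qf (T i) ![0, 1, 0] = 0) :
    ¬ Convex ℝ (range (fT T)) ∧ ¬ IsConvexHypersurface (range (fT T)) := by
  set e0 : NZ 𝕜 := nv 1 0 0 (by simp) with he0
  set e1 : NZ 𝕜 := nv 0 1 0 (by simp) with he1
  have v0 : e0.1 = ![1, 0, 0] := rfl
  have v1 : e1.1 = ![0, 1, 0] := rfl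
  have n0 : nn e0.1 = 1 := by rw [nn_three, v0]; simp
  have n1 : nn e1.1 = 1 := by rw [nn_three, v1]; simp
  set m : EuclideanSpace ℝ (Fin N) := EuclideanSpace.single i0 1 with hm
  have hmi : ∀ i, i ≠ i0 → m i = 0 := by
    intro i hi
    simp [hm, hi]
  have hm0 : m i0 = 1 := by simp [hm]
  have hmid : m = (1 / 2 : ℝ) • fT T (pj e0) + (1 / 2 : ℝ) • fT T (pj e1) := by
    ext i
    rw [PiLp.add_apply, PiLp.smul_apply, PiLp.smul_apply, fT_apply, fT_apply, n0, n1, v0, v1]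
    by_cases hi0 : i = i0
    · subst hi0
      rw [hm0, h0, qf_m0, qf_m0]
      simp
      norm_num
    · rw [hmi i hi0]
      by_cases hi1 : i = i1
      · subst hi1
        rw [h1, qf_m1, qf_m1]
        simp
      · obtain ⟨h2, h3⟩ := hd0 i hi0 hi1
        rw [h2, h3]
        simp
  have hmS : m ∉ range (fT T) := by
    rintro ⟨p, hp⟩
    obtain ⟨v, rfl⟩ := pj_surj p
    have hn := nn_pos v
    have hz : ∀ i, i ≠ i0 → qf (T i) v.1 = 0 := by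
      intro i hi
      have h2 : fT T (pj v) i = m i := by rw [hp]
      rw [fT_apply, hmi i hi, div_eq_zero_iff] at h2
      rcases h2 with h2 | h2
      · exact h2
      · exact absurd h2 hn.ne'
    have hc := hcross v hz
    have h3 := hz i1 h01
    rw [h1, qf_m1] at h3
    have h4 : fT T (pj v) i0 = m i0 := by rw [hp]
    rw [fT_apply, hm0, h0, qf_m0, div_eq_one_iff_eq hn.ne'] at h4
    rcases mul_eq_zero.1 hc with h5 | h5
    · have h6 : v.1 0 = 0 := by simpa using h5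
      rw [h6, norm_zero] at h3 h4
      nlinarith
    · rw [h5, norm_zero] at h3 h4
      nlinarith
  have hle : ∀ x ∈ range (fT T), x i0 ≤ 1 := by
    rintro _ ⟨p, rfl⟩
    obtain ⟨v, rfl⟩ := pj_surj p
    rw [fT_apply, h0, qf_m0, div_le_one (nn_pos v), nn_three]
    have : 0 ≤ ‖v.1 2‖ ^ 2 := by positivity
    linarith
  exact ⟨not_convex_of _ _ m ⟨_, rfl⟩ ⟨_, rfl⟩ hmid hmS,
    not_hyper_of i0 hle _ _ m ⟨_, rfl⟩ ⟨_, rfl⟩ hmid hmS hm0⟩

theorem subst_of {N : ℕ} (T : Fin N → Matrix (Fin (2 + 1)) (Fin (2 + 1)) 𝕜)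
    (h : ∀ (z : EuclideanSpace ℝ (Fin N)) (t : ℝ),
      (∀ v : NZ 𝕜, ∑ i, z i * qf (T i) v.1 = t * nn v.1) → z = 0) : Substantial (fT T) := by
  intro z t hz
  by_contra hcon
  push Not at hcon
  apply hz
  refine h z t fun v => ?_
  have h1 := hcon (pj v)
  rw [fT_inner, div_eq_iff (nn_pos v).ne'] at h1
  exact h1

variable (𝕜) in
theorem pp_like {d : ℕ} (hd : Module.finrank ℝ 𝕜 = d) :
    ∃ _ : ChartedSpace (EuclideanSpace ℝ (Fin (2 * d))) (PP 𝕜), IsLikeProjectivePlane d (PP 𝕜) := by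
  obtain ⟨cs⟩ := pp_charts hd
  obtain ⟨e⟩ := ppL_sphere hd 2
  obtain ⟨e'⟩ := ppU_homeo hd 2
  exact ⟨cs, pp_compact 𝕜, pp_t2 𝕜, ppL 𝕜 2, ⟨e⟩, ⟨e'⟩⟩

end

/-- the real example -/
theorem exam_real : ∃ f : PP ℝ → EuclideanSpace ℝ (Fin 3), Continuous f ∧ Substantial f ∧
    TightMap f ∧ CechTightMap f ∧ ¬ Convex ℝ (range f) ∧ ¬ IsConvexHypersurface (range f) := by
  set T : Fin 3 → Matrix (Fin (2 + 1)) (Fin (2 + 1)) ℝ := ![m0 ℝ, m1 ℝ, m2 ℝ] with hT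
  have hh : ∀ i, (T i).IsHermitian := by
    intro i
    fin_cases i
    · exact m0_herm ℝ
    · exact m1_herm ℝ
    · exact m2_herm ℝ
  have hb := image_bad T 0 1 rfl rfl (by decide) (by
    intro v hv
    have h1 := hv 2 (by decide)
    change qf (m2 ℝ) v.1 = 0 at h1
    rw [qf_m2] at h1
    simpa using h1) (by
    intro i hi0 hi1
    fin_cases i
    · exact absurd rfl hi0
    · exact absurd rfl hi1
    · change qf (m2 ℝ) _ = 0 ∧ qf (m2 ℝ) _ = 0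
      rw [qf_m2, qf_m2]
      simp)
  refine ⟨fT T, fT_cont T, ?_, fT_tight hh, fT_cech hh, hb.1, hb.2⟩
  apply subst_of
  intro z t h
  have hs : ∀ v : NZ ℝ, z 0 * (‖v.1 0‖ ^ 2 + ‖v.1 1‖ ^ 2) + z 1 * (‖v.1 0‖ ^ 2 - ‖v.1 1‖ ^ 2) +
      z 2 * (2 * RCLike.re (conj (v.1 0) * v.1 1)) =
      t * (‖v.1 0‖ ^ 2 + ‖v.1 1‖ ^ 2 + ‖v.1 2‖ ^ 2) := by
    intro v
    have h1 := h v
    rw [Fin.sum_univ_three, nn_three] at h1
    change z 0 * qf (m0 ℝ) v.1 + z 1 * qf (m1 ℝ) v.1 + z 2 * qf (m2 ℝ) v.1 = _ at h1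
    rw [qf_m0, qf_m1, qf_m2] at h1
    exact h1
  have e2 := hs (nv 0 0 1 (by simp))
  have e0 := hs (nv 1 0 0 (by simp))
  have e1 := hs (nv 0 1 0 (by simp))
  have e3 := hs (nv 1 1 0 (by simp))
  simp [nv] at e0 e1 e2 e3
  ext i
  fin_cases i
  · change z 0 = 0
    linarith
  · change z 1 = 0
    linarith
  · change z 2 = 0
    linarith

/-- the complex example in dimension four -/
theorem exam_four : ∃ f : PP ℂ → EuclideanSpace ℝ (Fin 4), Continuous f ∧ Substantial f ∧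
    TightMap f ∧ CechTightMap f ∧ ¬ Convex ℝ (range f) ∧ ¬ IsConvexHypersurface (range f) := by
  set T : Fin 4 → Matrix (Fin (2 + 1)) (Fin (2 + 1)) ℂ := ![m0 ℂ, m1 ℂ, m2 ℂ, m3 ℂ] with hT
  have hh : ∀ i, (T i).IsHermitian := by
    intro i
    fin_cases i
    · exact m0_herm ℂ
    · exact m1_herm ℂ
    · exact m2_herm ℂ
    · exact m3_herm ℂ
  have hb := image_bad T 0 1 rfl rfl (by decide) (by
    intro v hv
    have h1 := hv 2 (by decide)
    have h2 := hv 3 (by decide)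
    change qf (m2 ℂ) v.1 = 0 at h1
    change qf (m3 ℂ) v.1 = 0 at h2
    rw [qf_m2, RCLike.re_eq_complex_re] at h1
    rw [qf_m3] at h2
    apply Complex.ext
    · rw [Complex.zero_re]; linarith
    · rw [Complex.zero_im]; linarith) (by
    intro i hi0 hi1
    fin_cases i
    · exact absurd rfl hi0
    · exact absurd rfl hi1
    · change qf (m2 ℂ) _ = 0 ∧ qf (m2 ℂ) _ = 0
      rw [qf_m2, qf_m2]
      simp
    · change qf (m3 ℂ) _ = 0 ∧ qf (m3 ℂ) _ = 0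
      rw [qf_m3, qf_m3]
      simp)
  refine ⟨fT T, fT_cont T, ?_, fT_tight hh, fT_cech hh, hb.1, hb.2⟩
  apply subst_of
  intro z t h
  have hs : ∀ v : NZ ℂ, z 0 * (‖v.1 0‖ ^ 2 + ‖v.1 1‖ ^ 2) + z 1 * (‖v.1 0‖ ^ 2 - ‖v.1 1‖ ^ 2) +
      z 2 * (2 * (conj (v.1 0) * v.1 1).re) + z 3 * (2 * (conj (v.1 0) * v.1 1).im) =
      t * (‖v.1 0‖ ^ 2 + ‖v.1 1‖ ^ 2 + ‖v.1 2‖ ^ 2) := by
    intro v
    have h1 := h v
    rw [Fin.sum_univ_four, nn_three] at h1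
    change z 0 * qf (m0 ℂ) v.1 + z 1 * qf (m1 ℂ) v.1 + z 2 * qf (m2 ℂ) v.1 +
      z 3 * qf (m3 ℂ) v.1 = _ at h1
    rw [qf_m0, qf_m1, qf_m2, qf_m3, RCLike.re_eq_complex_re] at h1
    exact h1
  have e2 := hs (nv 0 0 1 (by simp))
  have e0 := hs (nv 1 0 0 (by simp))
  have e1 := hs (nv 0 1 0 (by simp))
  have e3 := hs (nv 1 1 0 (by simp))
  have e4 := hs (nv 1 Complex.I 0 (by simp))
  simp [nv] at e0 e1 e2 e3 e4
  ext i
  fin_cases i
  · change z 0 = 0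
    linarith
  · change z 1 = 0
    linarith
  · change z 2 = 0
    linarith
  · change z 3 = 0
    linarith

/-- the complex example in dimension five -/
theorem exam_five : ∃ f : PP ℂ → EuclideanSpace ℝ (Fin 5), Continuous f ∧ Substantial f ∧
    TightMap f ∧ CechTightMap f ∧ ¬ Convex ℝ (range f) ∧ ¬ IsConvexHypersurface (range f) := by
  set T : Fin 5 → Matrix (Fin (2 + 1)) (Fin (2 + 1)) ℂ := ![m0 ℂ, m1 ℂ, m2 ℂ, m3 ℂ, m4 ℂ] with hT
  have hh : ∀ i, (T i).IsHermitian := by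
    intro i
    fin_cases i
    · exact m0_herm ℂ
    · exact m1_herm ℂ
    · exact m2_herm ℂ
    · exact m3_herm ℂ
    · exact m4_herm ℂ
  have hb := image_bad T 0 1 rfl rfl (by decide) (by
    intro v hv
    have h1 := hv 2 (by decide)
    have h2 := hv 3 (by decide)
    change qf (m2 ℂ) v.1 = 0 at h1
    change qf (m3 ℂ) v.1 = 0 at h2
    rw [qf_m2, RCLike.re_eq_complex_re] at h1
    rw [qf_m3] at h2
    apply Complex.ext
    · rw [Complex.zero_re]; linarith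
    · rw [Complex.zero_im]; linarith) (by
    intro i hi0 hi1
    fin_cases i
    · exact absurd rfl hi0
    · exact absurd rfl hi1
    · change qf (m2 ℂ) _ = 0 ∧ qf (m2 ℂ) _ = 0
      rw [qf_m2, qf_m2]
      simp
    · change qf (m3 ℂ) _ = 0 ∧ qf (m3 ℂ) _ = 0
      rw [qf_m3, qf_m3]
      simp
    · change qf (m4 ℂ) _ = 0 ∧ qf (m4 ℂ) _ = 0
      rw [qf_m4, qf_m4]
      simp)
  refine ⟨fT T, fT_cont T, ?_, fT_tight hh, fT_cech hh, hb.1, hb.2⟩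
  apply subst_of
  intro z t h
  have hs : ∀ v : NZ ℂ, z 0 * (‖v.1 0‖ ^ 2 + ‖v.1 1‖ ^ 2) + z 1 * (‖v.1 0‖ ^ 2 - ‖v.1 1‖ ^ 2) +
      z 2 * (2 * (conj (v.1 0) * v.1 1).re) + z 3 * (2 * (conj (v.1 0) * v.1 1).im) +
      z 4 * (2 * (conj (v.1 0) * v.1 2).re) =
      t * (‖v.1 0‖ ^ 2 + ‖v.1 1‖ ^ 2 + ‖v.1 2‖ ^ 2) := by
    intro v
    have h1 := h v
    rw [Fin.sum_univ_five, nn_three] at h1
    change z 0 * qf (m0 ℂ) v.1 + z 1 * qf (m1 ℂ) v.1 + z 2 * qf (m2 ℂ) v.1 +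
      z 3 * qf (m3 ℂ) v.1 + z 4 * qf (m4 ℂ) v.1 = _ at h1
    rw [qf_m0, qf_m1, qf_m2, qf_m3, qf_m4, RCLike.re_eq_complex_re] at h1
    exact h1
  have e2 := hs (nv 0 0 1 (by simp))
  have e0 := hs (nv 1 0 0 (by simp))
  have e1 := hs (nv 0 1 0 (by simp))
  have e3 := hs (nv 1 1 0 (by simp))
  have e4 := hs (nv 1 Complex.I 0 (by simp))
  have e5 := hs (nv 1 0 1 (by simp))
  simp [nv] at e0 e1 e2 e3 e4 e5
  ext i
  fin_cases i
  · change z 0 = 0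
    linarith
  · change z 1 = 0
    linarith
  · change z 2 = 0
    linarith
  · change z 3 = 0
    linarith
  · change z 4 = 0
    linarith

end Pool.Agent.H61PP
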