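import Pool.Agent.H61PP.PP

/-! Quadratic superlevel sets in the standard planes: deformation to coordinate subspaces. -/

set_option autoImplicit false

namespace Pool.Agent.H61PP

open Set Topology
open Pool.Agent.Helper775.Tight Pool.Agent.Helper775.Tight.SoftCx

section

variable {𝕜 : Type} [RCLike 𝕜]

/-- sums of weighted squares -/
noncomputable def dq (l : Fin (2 + 1) → ℝ) (x : Fin (2 + 1) → 𝕜) : ℝ := ∑ i, l i * ‖x i‖ ^ 2

theorem dq_smul (l : Fin (2 + 1) → ℝ) (a : 𝕜) (x : Fin (2 + 1) → 𝕜) :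
    dq l (a • x) = ‖a‖ ^ 2 * dq l x := by
  unfold dq
  rw [Finset.mul_sum]
  refine Finset.sum_congr rfl fun i _ => ?_
  rw [Pi.smul_apply, smul_eq_mul, norm_mul]
  ring

/-- the region where the form is nonnegative -/
def AL (𝕜 : Type) [RCLike 𝕜] (l : Fin (2 + 1) → ℝ) : Set (PP 𝕜) := {p | 0 ≤ dq l (rp p)}

theorem mem_AL_def (l : Fin (2 + 1) → ℝ) (p : PP 𝕜) : p ∈ AL 𝕜 l ↔ 0 ≤ dq l (rp p) := Iff.rfl

theorem mem_AL (l : Fin (2 + 1) → ℝ) (v : NZ 𝕜) : pj v ∈ AL 𝕜 l ↔ 0 ≤ dq l v.1 := by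
  obtain ⟨a, ha, h⟩ := rp_pj v
  have h1 : 0 < ‖a‖ ^ 2 := by positivity
  rw [mem_AL_def, h, dq_smul]
  exact mul_nonneg_iff_of_pos_left h1

/-- partial scaling -/
noncomputable def dvec (l : Fin (2 + 1) → ℝ) (t : ℝ) (x : Fin (2 + 1) → 𝕜) : Fin (2 + 1) → 𝕜 :=
  fun i => if 0 ≤ l i then x i else ((1 - t : ℝ) : 𝕜) * x i

theorem dvec_smul (l : Fin (2 + 1) → ℝ) (t : ℝ) (a : 𝕜) (x : Fin (2 + 1) → 𝕜) :
    dvec l t (a • x) = a • dvec l t x := by
  funext i
  simp only [dvec, Pi.smul_apply, smul_eq_mul]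
  split_ifs
  · rfl
  · ring

theorem dq_dvec (l : Fin (2 + 1) → ℝ) {t : ℝ} (ht : t ∈ Icc (0 : ℝ) 1) (x : Fin (2 + 1) → 𝕜) :
    dq l x ≤ dq l (dvec l t x) := by
  unfold dq
  refine Finset.sum_le_sum fun i _ => ?_
  by_cases h : 0 ≤ l i
  · simp [dvec, h]
  · push Not at h
    simp only [dvec, not_le.2 h, if_false, norm_mul]
    have h1 : ‖((1 - t : ℝ) : 𝕜)‖ = 1 - t := by
      rw [RCLike.norm_ofReal, abs_of_nonneg (by linarith [ht.2])]
    rw [h1, mul_pow]
    have h2 : (1 - t) ^ 2 ≤ 1 := by nlinarith [ht.1, ht.2]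
    have h3 : 0 ≤ ‖x i‖ ^ 2 := by positivity
    nlinarith [mul_nonneg (sub_nonneg.2 h2) h3, mul_nonneg (neg_nonneg.2 h.le)
      (mul_nonneg (sub_nonneg.2 h2) h3)]

theorem dvec_ne (l : Fin (2 + 1) → ℝ) (t : ℝ) {x : Fin (2 + 1) → 𝕜}
    (hx : x ≠ 0) (h : 0 ≤ dq l x) : dvec l t x ≠ 0 := by
  intro h0
  have h1 : ∀ i, 0 ≤ l i → x i = 0 := by
    intro i hi
    have := congrFun h0 i
    simpa [dvec, hi] using this
  obtain ⟨j, hj⟩ := Function.ne_iff.1 hx
  have hlj : l j < 0 := by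
    by_contra hcon
    push Not at hcon
    exact hj (h1 j hcon)
  have h2 : dq l x < 0 := by
    unfold dq
    refine Finset.sum_neg' (fun i _ => ?_) ⟨j, Finset.mem_univ j, ?_⟩
    · by_cases hi : 0 ≤ l i
      · rw [h1 i hi]; simp
      · push Not at hi
        exact mul_nonpos_of_nonpos_of_nonneg hi.le (by positivity)
    · have h3 : 0 < ‖x j‖ ^ 2 := by
        have : 0 < ‖x j‖ := norm_pos_iff.2 hj
        positivity
      exact mul_neg_of_neg_of_pos hlj h3
  linarith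

theorem dvec_cont (l : Fin (2 + 1) → ℝ) :
    Continuous fun p : ℝ × (Fin (2 + 1) → 𝕜) => dvec l p.1 p.2 := by
  refine continuous_pi fun i => ?_
  by_cases h : 0 ≤ l i
  · simp only [dvec, h, if_true]
    fun_prop
  · simp only [dvec, h, if_false]
    have h1 : Continuous fun p : ℝ × (Fin (2 + 1) → 𝕜) => ((1 - p.1 : ℝ) : 𝕜) :=
      RCLike.continuous_ofReal.comp (by fun_prop)
    exact h1.mul (by fun_prop)

/-- the coordinate subspace of the nonnegative directions -/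
def PL (𝕜 : Type) [RCLike 𝕜] (l : Fin (2 + 1) → ℝ) : Set (PP 𝕜) :=
  {p | ∀ i, l i < 0 → rp p i = 0}

theorem mem_PL_def (l : Fin (2 + 1) → ℝ) (p : PP 𝕜) :
    p ∈ PL 𝕜 l ↔ ∀ i, l i < 0 → rp p i = 0 := Iff.rfl

theorem mem_PL (l : Fin (2 + 1) → ℝ) (v : NZ 𝕜) : pj v ∈ PL 𝕜 l ↔ ∀ i, l i < 0 → v.1 i = 0 := by
  obtain ⟨a, ha, h⟩ := rp_pj v
  rw [mem_PL_def, h]
  simp [ha]

theorem PL_sub (l : Fin (2 + 1) → ℝ) : PL 𝕜 l ⊆ AL 𝕜 l := by
  intro p hp
  obtain ⟨v, rfl⟩ := pj_surj p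
  rw [mem_PL] at hp
  rw [mem_AL]
  unfold dq
  refine Finset.sum_nonneg fun i _ => ?_
  by_cases h : 0 ≤ l i
  · positivity
  · rw [hp i (not_le.1 h)]; simp

/-- the deformation -/
noncomputable def defo (l : Fin (2 + 1) → ℝ) (q : AL 𝕜 l × unitInterval) : AL 𝕜 l :=
  ⟨pj ⟨dvec l q.2.1 (rp q.1.1), dvec_ne l q.2.1 (rp_ne _) q.1.2⟩, by
    rw [mem_AL]
    exact le_trans q.1.2 (dq_dvec l q.2.2 _)⟩

theorem defo_pj (l : Fin (2 + 1) → ℝ) (v : NZ 𝕜) (hv : 0 ≤ dq l v.1) (t : unitInterval) :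
    (defo l (⟨pj v, (mem_AL l v).2 hv⟩, t)).1 = pj ⟨dvec l t.1 v.1, dvec_ne l t.1 v.2 hv⟩ := by
  obtain ⟨a, ha, h⟩ := rp_pj v
  have h2 : dvec l t.1 (rp (pj v)) = a • dvec l t.1 v.1 := by
    rw [h, dvec_smul]
  exact pj_eq (a := a) h2

theorem defo_zero (l : Fin (2 + 1) → ℝ) (p : AL 𝕜 l) : defo l (p, 0) = p := by
  apply Subtype.ext
  obtain ⟨p, hp⟩ := p
  obtain ⟨v, rfl⟩ := pj_surj p
  rw [defo_pj l v ((mem_AL l v).1 hp)]
  refine pj_eq (a := 1) ?_
  funext i
  simp [dvec]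

theorem defo_one (l : Fin (2 + 1) → ℝ) (p : AL 𝕜 l) : (defo l (p, 1)).1 ∈ PL 𝕜 l := by
  obtain ⟨p, hp⟩ := p
  obtain ⟨v, rfl⟩ := pj_surj p
  rw [defo_pj l v ((mem_AL l v).1 hp), mem_PL]
  intro i hi
  simp [dvec, not_le.2 hi]

theorem defo_cont (l : Fin (2 + 1) → ℝ) : Continuous (defo (𝕜 := 𝕜) l) := by
  have hopen : IsOpenMap ((AL 𝕜 l).restrictPreimage (pq 𝕜)) :=
    IsOpenMap.restrictPreimage pq_open _
  have hcont : Continuous ((AL 𝕜 l).restrictPreimage (pq 𝕜)) :=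
    Continuous.restrictPreimage pq_cont
  have hsurj : Function.Surjective ((AL 𝕜 l).restrictPreimage (pq 𝕜)) := by
    rintro ⟨p, hp⟩
    obtain ⟨x, rfl⟩ := pq_surj p
    exact ⟨⟨x, hp⟩, rfl⟩
  have hq : IsOpenQuotientMap (Prod.map ((AL 𝕜 l).restrictPreimage (pq 𝕜))
      (id : unitInterval → unitInterval)) :=
    (IsOpenQuotientMap.mk hsurj hcont hopen).prodMap IsOpenQuotientMap.id
  rw [hq.isQuotientMap.continuous_iff]
  have hmem : ∀ x : ↥(pq 𝕜 ⁻¹' AL 𝕜 l), 0 ≤ dq l (snz x.1).1 := by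
    intro x
    rw [← mem_AL, ← pq_eq_pj]
    exact x.2
  have hc : Continuous fun y : ↥(pq 𝕜 ⁻¹' AL 𝕜 l) × unitInterval =>
      pj ⟨dvec l y.2.1 (snz y.1.1).1, dvec_ne l y.2.1 (snz y.1.1).2 (hmem y.1)⟩ := by
    refine pj_cont.comp (Continuous.subtype_mk ?_ _)
    have h1 : Continuous fun y : ↥(pq 𝕜 ⁻¹' AL 𝕜 l) × unitInterval =>
        ((y.2.1, y.1.1.1) : ℝ × (Fin (2 + 1) → 𝕜)) := by
      fun_prop
    exact (dvec_cont l).comp h1
  rw [Topology.IsInducing.subtypeVal.continuous_iff]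
  refine hc.congr fun y => ?_
  exact (defo_pj l (snz y.1.1) (hmem y.1) y.2).symm

theorem nz_cont (i : Fin (2 + 1)) : Continuous fun v : NZ 𝕜 => v.1 i :=
  (continuous_apply i).comp continuous_subtype_val

/-- the region as a closed set -/
theorem AL_closed (l : Fin (2 + 1) → ℝ) : IsClosed (AL 𝕜 l) := by
  rw [← pj_quot.isClosed_preimage]
  have h : pj ⁻¹' (AL 𝕜 l) = {v : NZ 𝕜 | 0 ≤ dq l v.1} := by
    ext v
    exact mem_AL l v
  rw [h]
  refine isClosed_le continuous_const ?_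
  unfold dq
  exact continuous_finset_sum _ fun i _ => continuous_const.mul ((nz_cont i).norm.pow 2)

theorem PL_closed (l : Fin (2 + 1) → ℝ) : IsClosed (PL 𝕜 l) := by
  rw [← pj_quot.isClosed_preimage]
  have h : pj ⁻¹' (PL 𝕜 l) = ⋂ i, ⋂ (_ : l i < 0), {v : NZ 𝕜 | v.1 i = 0} := by
    ext v
    simp only [mem_preimage, mem_PL, mem_iInter]
    rfl
  rw [h]
  exact isClosed_iInter fun i => isClosed_iInter fun _ => isClosed_eq (nz_cont i) continuous_const

theorem ppL_closed (k : Fin (2 + 1)) : IsClosed (ppL 𝕜 k) := by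
  rw [← pj_quot.isClosed_preimage]
  have h : pj ⁻¹' (ppL 𝕜 k) = {v : NZ 𝕜 | v.1 k = 0} := by
    ext v
    exact mem_ppL k v
  rw [h]
  exact isClosed_eq (nz_cont k) continuous_const

/-- the coordinate point -/
noncomputable def ept (𝕜 : Type) [RCLike 𝕜] (k : Fin (2 + 1)) : PP 𝕜 :=
  pj ⟨Pi.single k 1, by
    intro h
    have := congrFun h k
    simp at this⟩

/-- the four types of coordinate subspaces -/
theorem PL_cases (l : Fin (2 + 1) → ℝ) : PL 𝕜 l = univ ∨ PL 𝕜 l = ∅ ∨ (∃ k, PL 𝕜 l = ppL 𝕜 k) ∨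
    ∃ k, PL 𝕜 l = {ept 𝕜 k} := by
  have key : ∀ S : Set (PP 𝕜), (∀ v : NZ 𝕜, pj v ∈ PL 𝕜 l ↔ pj v ∈ S) → PL 𝕜 l = S := by
    intro S h
    ext p
    obtain ⟨v, rfl⟩ := pj_surj p
    exact h v
  have hpt : ∀ (k : Fin (2 + 1)) (v : NZ 𝕜), (∀ i, i ≠ k → v.1 i = 0) ↔
      pj v ∈ ({ept 𝕜 k} : Set (PP 𝕜)) := by
    intro k v
    rw [mem_singleton_iff, ept, pj_eq_iff]
    constructor
    · intro h
      refine ⟨v.1 k, ?_⟩
      funext i
      by_cases hi : i = k
      · subst hi; simp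
      · simp [h i hi, hi]
    · rintro ⟨a, ha⟩ i hi
      rw [← ha]
      simp [hi]
  by_cases h0 : l 0 < 0 <;> by_cases h1 : l 1 < 0 <;> by_cases h2 : l 2 < 0
  · right; left
    apply key
    intro v
    rw [mem_PL]
    simp only [mem_empty_iff_false, iff_false]
    intro h
    apply v.2
    funext i
    fin_cases i
    · exact h 0 h0
    · exact h 1 h1
    · exact h 2 h2
  · right; right; right
    refine ⟨2, key _ fun v => ?_⟩
    rw [mem_PL, ← hpt]
    constructor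
    · intro h i hi
      fin_cases i
      · exact h 0 h0
      · exact h 1 h1
      · exact absurd rfl hi
    · intro h i hi
      fin_cases i
      · exact h 0 (by decide)
      · exact h 1 (by decide)
      · exact absurd hi h2
  · right; right; right
    refine ⟨1, key _ fun v => ?_⟩
    rw [mem_PL, ← hpt]
    constructor
    · intro h i hi
      fin_cases i
      · exact h 0 h0
      · exact absurd rfl hi
      · exact h 2 h2
    · intro h i hi
      fin_cases i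
      · exact h 0 (by decide)
      · exact absurd hi h1
      · exact h 2 (by decide)
  · right; right; left
    refine ⟨0, key _ fun v => ?_⟩
    rw [mem_PL, mem_ppL]
    constructor
    · intro h
      exact h 0 h0
    · intro h i hi
      fin_cases i
      · exact h
      · exact absurd hi h1
      · exact absurd hi h2
  · right; right; right
    refine ⟨0, key _ fun v => ?_⟩
    rw [mem_PL, ← hpt]
    constructor
    · intro h i hi
      fin_cases i
      · exact absurd rfl hi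
      · exact h 1 h1
      · exact h 2 h2
    · intro h i hi
      fin_cases i
      · exact absurd hi h0
      · exact h 1 (by decide)
      · exact h 2 (by decide)
  · right; right; left
    refine ⟨1, key _ fun v => ?_⟩
    rw [mem_PL, mem_ppL]
    constructor
    · intro h
      exact h 1 h1
    · intro h i hi
      fin_cases i
      · exact absurd hi h0
      · exact h
      · exact absurd hi h2
  · right; right; left
    refine ⟨2, key _ fun v => ?_⟩
    rw [mem_PL, mem_ppL]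
    constructor
    · intro h
      exact h 2 h2
    · intro h i hi
      fin_cases i
      · exact absurd hi h0
      · exact absurd hi h1
      · exact h
  · left
    apply key
    intro v
    rw [mem_PL]
    simp only [mem_univ, iff_true]
    intro i hi
    fin_cases i
    · exact absurd hi h0
    · exact absurd hi h1
    · exact absurd hi h2

end

end Pool.Agent.H61PP
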