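import Pool.Agent.H61PP.Geo1

/-! Coordinate lines are spheres. -/

set_option autoImplicit false

namespace Pool.Agent.H61PP

open Set Topology
open Pool.Agent.Helper775.Tight Pool.Agent.Helper775.Tight.SoftCx
open scoped ComplexConjugate

section

variable {𝕜 : Type} [RCLike 𝕜]

/-- squared Euclidean norm -/
noncomputable def nn (v : Fin (2 + 1) → 𝕜) : ℝ := ∑ i, ‖v i‖ ^ 2

theorem nn_pos (v : NZ 𝕜) : 0 < nn v.1 := by
  obtain ⟨j, hj⟩ := Function.ne_iff.1 v.2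
  have h1 : 0 < ‖v.1 j‖ := norm_pos_iff.2 hj
  exact Finset.sum_pos' (fun i _ => by positivity) ⟨j, Finset.mem_univ j, by positivity⟩

theorem nn_smul (a : 𝕜) (v : Fin (2 + 1) → 𝕜) : nn (a • v) = ‖a‖ ^ 2 * nn v := by
  unfold nn
  rw [Finset.mul_sum]
  refine Finset.sum_congr rfl fun i _ => ?_
  rw [Pi.smul_apply, smul_eq_mul, norm_mul]
  ring

theorem nn_cont : Continuous fun v : NZ 𝕜 => nn v.1 :=
  continuous_finset_sum _ fun i _ => (nz_cont i).norm.pow 2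

theorem nn_eq (k : Fin (2 + 1)) (v : Fin (2 + 1) → 𝕜) :
    nn v = ‖v k‖ ^ 2 + (‖v (k.succAbove 0)‖ ^ 2 + ‖v (k.succAbove 1)‖ ^ 2) := by
  unfold nn
  rw [Fin.sum_univ_succAbove _ k, Fin.sum_univ_two]

/-- the Hopf vector -/
noncomputable def hv (k : Fin (2 + 1)) (v : Fin (2 + 1) → 𝕜) : WithLp 2 (𝕜 × ℝ) :=
  WithLp.toLp 2 (2 * (conj (v (k.succAbove 0)) * v (k.succAbove 1)),
    ‖v (k.succAbove 0)‖ ^ 2 - ‖v (k.succAbove 1)‖ ^ 2)

theorem hv_smul (k : Fin (2 + 1)) (a : 𝕜) (v : Fin (2 + 1) → 𝕜) :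
    hv k (a • v) = ‖a‖ ^ 2 • hv k v := by
  unfold hv
  rw [← WithLp.toLp_smul]
  congr 1
  simp only [Pi.smul_apply, smul_eq_mul, map_mul, norm_mul, Prod.smul_mk]
  refine Prod.ext ?_ ?_
  · simp only
    rw [RCLike.real_smul_eq_coe_mul]
    have h : (conj a * a : 𝕜) = ((‖a‖ ^ 2 : ℝ) : 𝕜) := by
      rw [RCLike.conj_mul]
      push_cast
      rfl
    rw [← h]
    ring
  · simp only
    ring

theorem hv_norm (k : Fin (2 + 1)) (v : Fin (2 + 1) → 𝕜) (hk : v k = 0) : ‖hv k v‖ = nn v := by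
  have h1 : ‖hv k v‖ ^ 2 = nn v ^ 2 := by
    rw [WithLp.prod_norm_sq_eq_of_L2, nn_eq k v, hk]
    simp only [hv, WithLp.toLp_fst, WithLp.toLp_snd, norm_mul, RCLike.norm_conj,
      Real.norm_eq_abs, sq_abs, norm_zero]
    rw [RCLike.norm_ofNat]
    ring
  have h2 : 0 ≤ nn v := Finset.sum_nonneg fun i _ => by positivity
  exact (sq_eq_sq₀ (norm_nonneg _) h2).1 h1

theorem hv_cont (k : Fin (2 + 1)) : Continuous fun v : NZ 𝕜 => hv k v.1 := by
  unfold hv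
  refine (WithLp.prod_continuous_toLp 2 𝕜 ℝ).comp ?_
  refine Continuous.prodMk ?_ ?_
  · exact continuous_const.mul
      ((RCLike.continuous_conj.comp (nz_cont _)).mul (nz_cont _))
  · exact ((nz_cont _).norm.pow 2).sub ((nz_cont _).norm.pow 2)

/-- the Hopf map -/
noncomputable def hop (k : Fin (2 + 1)) (p : PP 𝕜) : WithLp 2 (𝕜 × ℝ) :=
  (nn (rp p))⁻¹ • hv k (rp p)

theorem hop_pj (k : Fin (2 + 1)) (v : NZ 𝕜) : hop k (pj v) = (nn v.1)⁻¹ • hv k v.1 := by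
  obtain ⟨a, ha, h⟩ := rp_pj v
  unfold hop
  rw [h, hv_smul, nn_smul, smul_smul]
  congr 1
  have h1 : ‖a‖ ^ 2 ≠ 0 := by positivity
  have h2 : nn v.1 ≠ 0 := (nn_pos v).ne'
  field_simp

theorem hop_cont (k : Fin (2 + 1)) : Continuous (hop (𝕜 := 𝕜) k) := by
  rw [pj_quot.continuous_iff]
  have h : hop (𝕜 := 𝕜) k ∘ pj = fun v => (nn v.1)⁻¹ • hv k v.1 := by
    funext v
    exact hop_pj k v
  rw [h]
  exact (nn_cont.inv₀ fun v => (nn_pos v).ne').smul (hv_cont k)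

/-- the Hopf map on the coordinate line -/
noncomputable def hopL (k : Fin (2 + 1)) (p : ppL 𝕜 k) :
    Metric.sphere (0 : WithLp 2 (𝕜 × ℝ)) 1 :=
  ⟨hop k p.1, by
    obtain ⟨p, hp⟩ := p
    obtain ⟨v, rfl⟩ := pj_surj p
    rw [mem_ppL] at hp
    rw [mem_sphere_zero_iff_norm, hop_pj, norm_smul, hv_norm k v.1 hp, norm_inv,
      Real.norm_eq_abs, abs_of_pos (nn_pos v), inv_mul_cancel₀ (nn_pos v).ne']⟩

theorem hopL_cont (k : Fin (2 + 1)) : Continuous (hopL (𝕜 := 𝕜) k) :=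
  Continuous.subtype_mk ((hop_cont k).comp continuous_subtype_val) _

theorem hopL_inj (k : Fin (2 + 1)) : Function.Injective (hopL (𝕜 := 𝕜) k) := by
  rintro ⟨p, hp⟩ ⟨p', hp'⟩ h
  apply Subtype.ext
  obtain ⟨v, rfl⟩ := pj_surj p
  obtain ⟨w, rfl⟩ := pj_surj p'
  have h1 : hop k (pj v) = hop k (pj w) := congrArg Subtype.val h
  rw [mem_ppL] at hp hp'
  rw [hop_pj, hop_pj] at h1
  have hN := nn_pos v
  have hM := nn_pos w
  have e1 : ((nn v.1)⁻¹ : ℝ) • (2 * (conj (v.1 (k.succAbove 0)) * v.1 (k.succAbove 1)) : 𝕜) =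
      ((nn w.1)⁻¹ : ℝ) • (2 * (conj (w.1 (k.succAbove 0)) * w.1 (k.succAbove 1))) :=
    congrArg (fun z : WithLp 2 (𝕜 × ℝ) => z.fst) h1
  have e2 : (nn v.1)⁻¹ * (‖v.1 (k.succAbove 0)‖ ^ 2 - ‖v.1 (k.succAbove 1)‖ ^ 2) =
      (nn w.1)⁻¹ * (‖w.1 (k.succAbove 0)‖ ^ 2 - ‖w.1 (k.succAbove 1)‖ ^ 2) :=
    congrArg (fun z : WithLp 2 (𝕜 × ℝ) => z.snd) h1
  have e3 := nn_eq k v.1
  have e4 := nn_eq k w.1
  rw [hp, norm_zero] at e3
  rw [hp', norm_zero] at e4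
  set x := v.1 (k.succAbove 0) with hx
  set y := v.1 (k.succAbove 1) with hy
  set x' := w.1 (k.succAbove 0) with hx'
  set y' := w.1 (k.succAbove 1) with hy'
  set N := nn v.1 with hNdef
  set M := nn w.1 with hMdef
  -- the moduli
  have f2 : M * (‖x‖ ^ 2 - ‖y‖ ^ 2) = N * (‖x'‖ ^ 2 - ‖y'‖ ^ 2) := by
    have h5 := congrArg (fun t => N * M * t) e2
    have h6 : N * M * (N⁻¹ * (‖x‖ ^ 2 - ‖y‖ ^ 2)) = M * (‖x‖ ^ 2 - ‖y‖ ^ 2) := by
      field_simp
    have h7 : N * M * (M⁻¹ * (‖x'‖ ^ 2 - ‖y'‖ ^ 2)) = N * (‖x'‖ ^ 2 - ‖y'‖ ^ 2) := by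
      field_simp
    rw [h6, h7] at h5
    exact h5
  have f3 : M * ‖x‖ ^ 2 = N * ‖x'‖ ^ 2 := by nlinarith
  have f4 : (M : 𝕜) * (conj x * y) = (N : 𝕜) * (conj x' * y') := by
    rw [RCLike.real_smul_eq_coe_mul, RCLike.real_smul_eq_coe_mul] at e1
    have h5 := congrArg (fun t : 𝕜 => (N : 𝕜) * (M : 𝕜) * t) e1
    have hN' : (N : 𝕜) ≠ 0 := by exact_mod_cast hN.ne'
    have hM' : (M : 𝕜) ≠ 0 := by exact_mod_cast hM.ne'
    have h6 : (N : 𝕜) * M * (((N⁻¹ : ℝ) : 𝕜) * (2 * (conj x * y))) = 2 * (M * (conj x * y)) := by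
      push_cast
      field_simp
    have h7 : (N : 𝕜) * M * (((M⁻¹ : ℝ) : 𝕜) * (2 * (conj x' * y'))) =
        2 * (N * (conj x' * y')) := by
      push_cast
      field_simp
    rw [h6, h7] at h5
    exact mul_left_cancel₀ two_ne_zero h5
  have hvx : ∀ (i : Fin (2 + 1)), i = k ∨ i = k.succAbove 0 ∨ i = k.succAbove 1 := by
    intro i
    rcases Fin.eq_self_or_eq_succAbove k i with h5 | ⟨j, h5⟩
    · exact Or.inl h5
    · fin_cases j
      · exact Or.inr (Or.inl h5)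
      · exact Or.inr (Or.inr h5)
  by_cases hx0 : x = 0
  · have hx0' : x' = 0 := by
      rw [hx0, norm_zero] at f3
      have h5 : ‖x'‖ ^ 2 = 0 := by
        have : N * ‖x'‖ ^ 2 = 0 := by rw [← f3]; ring
        rcases mul_eq_zero.1 this with h6 | h6
        · exact absurd h6 hN.ne'
        · exact h6
      exact norm_eq_zero.1 (pow_eq_zero_iff (by norm_num) |>.1 h5)
    have hy0' : y' ≠ 0 := by
      intro h5
      rw [hx0', h5, norm_zero] at e4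
      norm_num at e4
      exact hM.ne' e4
    refine pj_eq (a := y / y') ?_
    funext i
    rw [Pi.smul_apply, smul_eq_mul]
    rcases hvx i with rfl | rfl | rfl
    · rw [hp, hp', mul_zero]
    · rw [← hx, ← hx', hx0, hx0', mul_zero]
    · rw [← hy, ← hy', div_mul_cancel₀ _ hy0']
  · have hxn : 0 < ‖x‖ ^ 2 := by
      have : 0 < ‖x‖ := norm_pos_iff.2 hx0
      positivity
    have hx0' : x' ≠ 0 := by
      intro h5
      rw [h5, norm_zero] at f3
      have : M * ‖x‖ ^ 2 = 0 := by rw [f3]; ring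
      exact (mul_pos hM hxn).ne' this
    have f5 : y * x' = y' * x := by
      have h5 := congrArg (fun t : 𝕜 => t * (x * x')) f4
      have h6 : (M : 𝕜) * (conj x * y) * (x * x') = ((M * ‖x‖ ^ 2 : ℝ) : 𝕜) * (y * x') := by
        have : (conj x * x : 𝕜) = ((‖x‖ ^ 2 : ℝ) : 𝕜) := by
          rw [RCLike.conj_mul]
          push_cast
          rfl
        push_cast at this ⊢
        rw [← this]
        ring
      have h7 : (N : 𝕜) * (conj x' * y') * (x * x') = ((N * ‖x'‖ ^ 2 : ℝ) : 𝕜) * (y' * x) := by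
        have : (conj x' * x' : 𝕜) = ((‖x'‖ ^ 2 : ℝ) : 𝕜) := by
          rw [RCLike.conj_mul]
          push_cast
          rfl
        push_cast at this ⊢
        rw [← this]
        ring
      rw [h6, h7, ← f3] at h5
      have h8 : ((M * ‖x‖ ^ 2 : ℝ) : 𝕜) ≠ 0 := by
        exact_mod_cast (mul_pos hM hxn).ne'
      exact mul_left_cancel₀ h8 h5
    refine pj_eq (a := x / x') ?_
    funext i
    rw [Pi.smul_apply, smul_eq_mul]
    rcases hvx i with rfl | rfl | rfl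
    · rw [hp, hp', mul_zero]
    · rw [← hx, ← hx', div_mul_cancel₀ _ hx0']
    · rw [← hy, ← hy', div_mul_eq_mul_div, eq_div_iff hx0', f5]
      ring

theorem hopL_surj (k : Fin (2 + 1)) : Function.Surjective (hopL (𝕜 := 𝕜) k) := by
  rintro ⟨z, hz⟩
  rw [mem_sphere_zero_iff_norm] at hz
  have hz2 : ‖z.fst‖ ^ 2 + z.snd ^ 2 = 1 := by
    have h := WithLp.prod_norm_sq_eq_of_L2 z
    rw [hz, Real.norm_eq_abs, sq_abs] at h
    linarith
  -- build the vector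
  have main : ∀ (x y : 𝕜), 0 < ‖x‖ ^ 2 + ‖y‖ ^ 2 →
      2 * (conj x * y) = ((‖x‖ ^ 2 + ‖y‖ ^ 2 : ℝ) : 𝕜) * z.fst →
      ‖x‖ ^ 2 - ‖y‖ ^ 2 = (‖x‖ ^ 2 + ‖y‖ ^ 2) * z.snd →
      ∃ p, hopL (𝕜 := 𝕜) k p = ⟨z, by rw [mem_sphere_zero_iff_norm]; exact hz⟩ := by
    intro x y hpos h1 h2
    set v : Fin (2 + 1) → 𝕜 := Fin.insertNth k (0 : 𝕜) ![x, y] with hv0
    have v0 : v k = 0 := by rw [hv0]; simp
    have v1 : v (k.succAbove 0) = x := by rw [hv0]; simp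
    have v2 : v (k.succAbove 1) = y := by rw [hv0]; simp
    have hne : v ≠ 0 := by
      intro h0
      have h3 : x = 0 := by rw [← v1, h0]; rfl
      have h4 : y = 0 := by rw [← v2, h0]; rfl
      rw [h3, h4, norm_zero] at hpos
      norm_num at hpos
    refine ⟨⟨pj ⟨v, hne⟩, (mem_ppL k ⟨v, hne⟩).2 v0⟩, ?_⟩
    apply Subtype.ext
    change hop k (pj ⟨v, hne⟩) = z
    rw [hop_pj]
    have hnn : nn v = ‖x‖ ^ 2 + ‖y‖ ^ 2 := by
      rw [nn_eq k v, v0, v1, v2, norm_zero]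
      ring
    simp only
    rw [hnn, inv_smul_eq_iff₀ hpos.ne']
    apply (WithLp.equiv 2 (𝕜 × ℝ)).injective
    refine Prod.ext ?_ ?_
    · change 2 * (conj (v (k.succAbove 0)) * v (k.succAbove 1)) = (‖x‖ ^ 2 + ‖y‖ ^ 2) • z.fst
      rw [v1, v2, RCLike.real_smul_eq_coe_mul]
      exact h1
    · change ‖v (k.succAbove 0)‖ ^ 2 - ‖v (k.succAbove 1)‖ ^ 2 = (‖x‖ ^ 2 + ‖y‖ ^ 2) • z.snd
      rw [v1, v2, smul_eq_mul]
      exact h2
  by_cases hs : z.snd = -1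
  · have hf : z.fst = 0 := by
      rw [hs] at hz2
      have : ‖z.fst‖ ^ 2 = 0 := by linarith
      exact norm_eq_zero.1 (pow_eq_zero_iff (by norm_num) |>.1 this)
    refine main 0 1 (by simp) ?_ ?_
    · rw [hf]; simp
    · rw [hs]; simp
  · have hs1 : -1 < z.snd := by
      rcases lt_or_ge (-1) z.snd with h | h
      · exact h
      · exfalso
        have h1 : z.snd < -1 := lt_of_le_of_ne h hs
        nlinarith [sq_nonneg ‖z.fst‖]
    have hxx : ‖((1 + z.snd : ℝ) : 𝕜)‖ ^ 2 = (1 + z.snd) ^ 2 := by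
      rw [RCLike.norm_ofReal, sq_abs]
    refine main ((1 + z.snd : ℝ) : 𝕜) z.fst ?_ ?_ ?_
    · rw [hxx]
      have : 0 < (1 + z.snd) ^ 2 := by
        have : 0 < 1 + z.snd := by linarith
        positivity
      positivity
    · rw [RCLike.conj_ofReal, hxx]
      have h1 : (1 + z.snd) ^ 2 + ‖z.fst‖ ^ 2 = 2 * (1 + z.snd) := by nlinarith
      rw [h1]
      push_cast
      ring
    · rw [hxx]
      nlinarith

theorem ppL_compact (k : Fin (2 + 1)) : CompactSpace (ppL 𝕜 k) := by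
  haveI := pp_compact 𝕜
  exact isCompact_iff_compactSpace.1 (ppL_closed k).isCompact

/-- the coordinate line is a sphere -/
noncomputable def hopH (k : Fin (2 + 1)) :
    ppL 𝕜 k ≃ₜ Metric.sphere (0 : WithLp 2 (𝕜 × ℝ)) 1 :=
  haveI := ppL_compact (𝕜 := 𝕜) k
  Continuous.homeoOfEquivCompactToT2 (f := Equiv.ofBijective _ ⟨hopL_inj k, hopL_surj k⟩)
    (hopL_cont k)

theorem finrank_prod {d : ℕ} (hd : Module.finrank ℝ 𝕜 = d) :
    Module.finrank ℝ (WithLp 2 (𝕜 × ℝ)) = d + 1 := by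
  rw [(WithLp.linearEquiv 2 ℝ (𝕜 × ℝ)).finrank_eq, Module.finrank_prod, hd, Module.finrank_self]

/-- spheres in Euclidean spaces of the same dimension -/
noncomputable def sphere_homeo {V W : Type*} [NormedAddCommGroup V] [InnerProductSpace ℝ V]
    [NormedAddCommGroup W] [InnerProductSpace ℝ W] (e : V ≃ₗᵢ[ℝ] W) :
    Metric.sphere (0 : V) 1 ≃ₜ Metric.sphere (0 : W) 1 where
  toFun x := ⟨e x.1, by
    rw [mem_sphere_zero_iff_norm, e.norm_map]; exact mem_sphere_zero_iff_norm.1 x.2⟩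
  invFun x := ⟨e.symm x.1, by
    rw [mem_sphere_zero_iff_norm, e.symm.norm_map]; exact mem_sphere_zero_iff_norm.1 x.2⟩
  left_inv x := by apply Subtype.ext; simp
  right_inv x := by apply Subtype.ext; simp
  continuous_toFun := Continuous.subtype_mk (e.continuous.comp continuous_subtype_val) _
  continuous_invFun := Continuous.subtype_mk (e.symm.continuous.comp continuous_subtype_val) _

theorem ppL_sphere {d : ℕ} (hd : Module.finrank ℝ 𝕜 = d) (k : Fin (2 + 1)) :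
    Nonempty (ppL 𝕜 k ≃ₜ Metric.sphere (0 : EuclideanSpace ℝ (Fin (d + 1))) 1) := by
  have e : WithLp 2 (𝕜 × ℝ) ≃ₗᵢ[ℝ] EuclideanSpace ℝ (Fin (d + 1)) :=
    ((stdOrthonormalBasis ℝ (WithLp 2 (𝕜 × ℝ))).reindex (finCongr (finrank_prod hd))).repr
  exact ⟨(hopH k).trans (sphere_homeo e)⟩

end

end Pool.Agent.H61PP
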