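import Pool.Agent.H61PP.Geo2
import Pool.Agent.Helper775.Surf.Tig

/-! Quadratic superlevel sets of the standard planes are homologically injective. -/

set_option autoImplicit false

namespace Pool.Agent.H61PP

open Set Topology
open Pool.Agent.Helper775.Tight Pool.Agent.Helper775.Tight.SoftCx

section

variable {𝕜 : Type} [RCLike 𝕜]

theorem norm_succAbove (k : Fin (2 + 1)) (x : Fin (2 + 1) → 𝕜) (hk : x k = 0) :
    ‖(fun j => x (k.succAbove j) : Fin 2 → 𝕜)‖ = ‖x‖ := by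
  apply le_antisymm
  · rw [pi_norm_le_iff_of_nonneg (norm_nonneg _)]
    intro j
    exact norm_le_pi_norm x (k.succAbove j)
  · rw [pi_norm_le_iff_of_nonneg (norm_nonneg _)]
    intro i
    rcases Fin.eq_self_or_eq_succAbove k i with h | ⟨j, h⟩
    · rw [h, hk, norm_zero]
      exact norm_nonneg _
    · rw [h]
      exact norm_le_pi_norm (fun j => x (k.succAbove j) : Fin 2 → 𝕜) j

theorem mem_pqL (k : Fin (2 + 1)) (x : Metric.sphere (0 : Fin (2 + 1) → 𝕜) 1) :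
    x ∈ pq 𝕜 ⁻¹' ppL 𝕜 k ↔ x.1 k = 0 := by
  rw [mem_preimage, pq_eq_pj, mem_ppL]
  rfl

/-- the part of the sphere over a coordinate line is a sphere -/
noncomputable def sphL (k : Fin (2 + 1)) :
    ↥(pq 𝕜 ⁻¹' ppL 𝕜 k) ≃ₜ Metric.sphere (0 : Fin 2 → 𝕜) 1 where
  toFun x := ⟨fun j => x.1.1 (k.succAbove j), by
    rw [mem_sphere_zero_iff_norm, norm_succAbove k _ ((mem_pqL k x.1).1 x.2)]
    exact mem_sphere_zero_iff_norm.1 x.1.2⟩
  invFun y := ⟨⟨Fin.insertNth k (0 : 𝕜) y.1, by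
    rw [mem_sphere_zero_iff_norm, ← norm_succAbove k _ (by simp)]
    have h : (fun j => (Fin.insertNth k (0 : 𝕜) y.1 : Fin (2 + 1) → 𝕜) (k.succAbove j)) = y.1 := by
      funext j
      simp
    rw [h]
    exact mem_sphere_zero_iff_norm.1 y.2⟩, by
    rw [mem_pqL]
    simp⟩
  left_inv x := by
    apply Subtype.ext
    apply Subtype.ext
    funext i
    have hx := (mem_pqL k x.1).1 x.2
    rcases Fin.eq_self_or_eq_succAbove k i with h | ⟨j, h⟩
    · rw [h]
      simp [hx]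
    · rw [h]
      simp
  right_inv y := by
    apply Subtype.ext
    funext j
    simp
  continuous_toFun := by
    refine Continuous.subtype_mk ?_ _
    refine continuous_pi fun j => ?_
    exact (continuous_apply _).comp (continuous_subtype_val.comp continuous_subtype_val)
  continuous_invFun := by
    refine Continuous.subtype_mk (Continuous.subtype_mk ?_ _) _
    exact Continuous.finInsertNth k continuous_const continuous_subtype_val

theorem ept_mem (k : Fin (2 + 1)) : (ppL 𝕜 k).Nonempty := by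
  obtain ⟨x⟩ : Nonempty (Metric.sphere (0 : Fin 2 → 𝕜) 1) := by
    have h1 : (Metric.sphere (0 : Fin 2 → 𝕜) 1).Nonempty :=
      NormedSpace.sphere_nonempty.2 zero_le_one
    exact h1.to_subtype
  exact ⟨_, ((sphL k).symm x).2⟩

theorem coords_not_cob {d : ℕ} (hd : Module.finrank ℝ 𝕜 = d) :
    letI := ppMetric 𝕜
    ∃ u : Ch (PP 𝕜), (AS (PP 𝕜)).Coc univ (d + 1) u ∧
      ∀ k, ¬ (AS (PP 𝕜)).Cob (ppL 𝕜 k) (d + 1) u := by
  letI := ppMetric 𝕜
  have hd1 : 1 ≤ d := by rw [← hd]; exact Module.finrank_pos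
  obtain ⟨u, hu, hZ⟩ := pp_ring hd
  refine ⟨u, hu, fun k => ?_⟩
  haveI : CompactSpace (Metric.sphere (0 : Fin (2 + 1) → 𝕜) 1) := sphere_compact _
  have hcl : IsCompact (pq 𝕜 ⁻¹' ppL 𝕜 k) := ((ppL_closed k).preimage pq_cont).isCompact
  have hfr : Module.finrank ℝ (Fin 2 → 𝕜) = 2 * d := by
    rw [Module.finrank_pi_fintype]
    simp [hd]
  have hne : (pq 𝕜 ⁻¹' ppL 𝕜 k).Nonempty := by
    obtain ⟨p, hp⟩ := ept_mem (𝕜 := 𝕜) k
    obtain ⟨x, rfl⟩ := pq_surj p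
    exact ⟨x, hp⟩
  obtain ⟨a, ha⟩ := rt_of_homeo hcl hne hfr (by omega) (sphL k)
  refine hZ _ (ept_mem k) (fun h2 c hc => ?_) (fun h1 c hc => ?_)
  · rcases ha.1 d c hc with h | ⟨h, -⟩ | ⟨h, -⟩ | ⟨h, -⟩
    · exact h
    · omega
    · omega
    · omega
  · rcases ha.1 1 c hc with h | ⟨-, h⟩ | ⟨h, -⟩ | ⟨-, h, -⟩
    · exact Or.inl (cob_one.1 h)
    · exact Or.inr (cob_one.1 h)
    · omega
    · omega

theorem surA_line (k : Fin (2 + 1)) :
    letI := ppMetric 𝕜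
    SurA (ppL 𝕜 k) := by
  letI := ppMetric 𝕜
  haveI := pp_compact 𝕜
  obtain ⟨d, hd⟩ : ∃ d, Module.finrank ℝ 𝕜 = d := ⟨_, rfl⟩
  have hd1 : 1 ≤ d := by rw [← hd]; exact Module.finrank_pos
  obtain ⟨u, hu, hL⟩ := coords_not_cob hd
  have hcl : IsCompact (ppL 𝕜 k) := (ppL_closed k).isCompact
  obtain ⟨a, ha⟩ := rt_of_homeo hcl (ept_mem k) (finrank_prod hd) (by omega) (hopH k)
  refine surA_of_germ hcl fun n hn c hc => ?_
  rcases ha.1 n c hc with h | ⟨rfl, h⟩ | ⟨rfl, h⟩ | ⟨rfl, h, -⟩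
  · exact ⟨0, coc_zero _ _, by rw [sub_zero]; exact h⟩
  · exact ⟨one, fun z _ => one_D_mem z, h⟩
  · refine ⟨u, hu, ?_⟩
    rcases ha.1 (d + 1) u (hu.mono (subset_univ _)) with h' | ⟨h', -⟩ | ⟨-, h'⟩ | ⟨h', -⟩
    · exact absurd h' (hL k)
    · omega
    · have := h.sub h'
      simpa using this
    · omega
  · omega

theorem hi_line (k : Fin (2 + 1)) : HomologyInjective (ppL 𝕜 k) := by
  letI := ppMetric 𝕜
  obtain ⟨d, hd⟩ : ∃ d, Module.finrank ℝ 𝕜 = d := ⟨_, rfl⟩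
  obtain ⟨e⟩ := ppL_sphere hd k
  haveI : Fact (Module.finrank ℝ (EuclideanSpace ℝ (Fin (d + 1))) = d + 1) :=
    ⟨finrank_euclideanSpace_fin⟩
  letI c1 : ChartedSpace (Metric.sphere (0 : EuclideanSpace ℝ (Fin (d + 1))) 1) (ppL 𝕜 k) :=
    e.toOpenPartialHomeomorph.singletonChartedSpace rfl
  letI c2 : ChartedSpace (EuclideanSpace ℝ (Fin d)) (ppL 𝕜 k) :=
    ChartedSpace.comp _ (Metric.sphere (0 : EuclideanSpace ℝ (Fin (d + 1))) 1) _
  haveI := ppL_compact (𝕜 := 𝕜) k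
  refine hi_of_surj (ppL_closed k) (fun n s hs => ?_) (surA_line k)
  exact theta_surj (m := d) isCompact_univ hs

theorem hi_point (p : PP 𝕜) : HomologyInjective ({p} : Set (PP 𝕜)) := by
  letI := ppMetric 𝕜
  refine hi_of_surj isClosed_singleton (fun n s hs => ?_) (surA_singleton p)
  refine Pool.Agent.Helper775.Surf.theta_surj' (fun z W hW => ?_) isCompact_univ hs
  refine ⟨univ, mem_univ z, Filter.univ_mem, fun x _ => ?_, ⟨?_⟩⟩
  · rw [Subsingleton.elim x z]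
    exact mem_of_mem_nhds hW
  · have h : ContinuousMap.id (univ : Set ({p} : Set (PP 𝕜))) =
        ContinuousMap.const (univ : Set ({p} : Set (PP 𝕜))) ⟨z, mem_univ z⟩ := by
      apply ContinuousMap.ext
      intro x
      apply Subtype.ext
      exact Subsingleton.elim _ _
    rw [h]
    exact ContinuousMap.Homotopy.refl _

theorem surA_PL (l : Fin (2 + 1) → ℝ) :
    letI := ppMetric 𝕜
    SurA (PL 𝕜 l) := by
  letI := ppMetric 𝕜
  rcases PL_cases (𝕜 := 𝕜) l with h | h | ⟨k, h⟩ | ⟨k, h⟩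
  · rw [h]; exact surA_univ
  · rw [h]; exact surA_empty
  · rw [h]; exact surA_line k
  · rw [h]; exact surA_singleton _

theorem hi_PL (l : Fin (2 + 1) → ℝ) : HomologyInjective (PL 𝕜 l) := by
  rcases PL_cases (𝕜 := 𝕜) l with h | h | ⟨k, h⟩ | ⟨k, h⟩
  · rw [h]; exact hi_univ
  · rw [h]; exact hi_empty
  · rw [h]; exact hi_line k
  · rw [h]; exact hi_point _

theorem surA_AL (l : Fin (2 + 1) → ℝ) :
    letI := ppMetric 𝕜
    SurA (AL 𝕜 l) := by
  letI := ppMetric 𝕜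
  haveI := pp_compact 𝕜
  exact surA_deform (AL_closed l).isCompact (PL_sub l) ⟨defo l, defo_cont l⟩ (defo_zero l)
    (defo_one l) (surA_PL l)

theorem hi_AL (l : Fin (2 + 1) → ℝ) : HomologyInjective (AL 𝕜 l) :=
  hi_of_deform (PL_sub l) ⟨defo l, defo_cont l⟩ (defo_zero l) (defo_one l) (hi_PL l)

end

end Pool.Agent.H61PP
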