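import Pool.Agent.H61PP.Geo3

/-! Maps of the standard planes given by Hermitian matrices are tight. -/

set_option autoImplicit false

namespace Pool.Agent.H61PP

open Set Topology Matrix
open Pool.Agent.Helper775.Tight Pool.Agent.Helper775.Tight.SoftCx
open scoped ComplexConjugate InnerProductSpace

section

variable {𝕜 : Type} [RCLike 𝕜]

/-- linear automorphisms act by homeomorphisms -/
noncomputable def lm (M : (Fin (2 + 1) → 𝕜) ≃ₗ[𝕜] (Fin (2 + 1) → 𝕜)) (p : PP 𝕜) : PP 𝕜 :=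
  pj ⟨M (rp p), by
    intro h
    exact rp_ne p ((LinearEquiv.map_eq_zero_iff M).1 h)⟩

theorem lm_pj (M : (Fin (2 + 1) → 𝕜) ≃ₗ[𝕜] (Fin (2 + 1) → 𝕜)) (v : NZ 𝕜) :
    lm M (pj v) = pj ⟨M v.1, by
      intro h
      exact v.2 ((LinearEquiv.map_eq_zero_iff M).1 h)⟩ := by
  obtain ⟨a, ha, h⟩ := rp_pj v
  refine pj_eq (a := a) ?_
  change M (rp (pj v)) = a • M v.1
  rw [h, map_smul]

theorem lm_cont (M : (Fin (2 + 1) → 𝕜) ≃ₗ[𝕜] (Fin (2 + 1) → 𝕜)) : Continuous (lm M) := by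
  rw [pj_quot.continuous_iff]
  have h : lm M ∘ pj = fun v => pj ⟨M v.1, by
      intro h
      exact v.2 ((LinearEquiv.map_eq_zero_iff M).1 h)⟩ := by
    funext v
    exact lm_pj M v
  rw [h]
  refine pj_cont.comp (Continuous.subtype_mk ?_ _)
  have h1 : Continuous fun v : Fin (2 + 1) → 𝕜 => M v :=
    LinearMap.continuous_on_pi (M : (Fin (2 + 1) → 𝕜) →ₗ[𝕜] (Fin (2 + 1) → 𝕜))
  exact h1.comp continuous_subtype_val

theorem lm_lm (M : (Fin (2 + 1) → 𝕜) ≃ₗ[𝕜] (Fin (2 + 1) → 𝕜)) (p : PP 𝕜) :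
    lm M.symm (lm M p) = p := by
  obtain ⟨v, rfl⟩ := pj_surj p
  rw [lm_pj, lm_pj]
  refine pj_eq (a := 1) ?_
  simp

/-- the homeomorphism -/
noncomputable def lmH (M : (Fin (2 + 1) → 𝕜) ≃ₗ[𝕜] (Fin (2 + 1) → 𝕜)) : PP 𝕜 ≃ₜ PP 𝕜 where
  toFun := lm M
  invFun := lm M.symm
  left_inv := lm_lm M
  right_inv p := by
    have := lm_lm M.symm p
    rwa [LinearEquiv.symm_symm] at this
  continuous_toFun := lm_cont M
  continuous_invFun := lm_cont M.symm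

/-- the real part of the Hermitian form -/
noncomputable def qf (T : Matrix (Fin (2 + 1)) (Fin (2 + 1)) 𝕜) (x : Fin (2 + 1) → 𝕜) : ℝ :=
  RCLike.re (star x ⬝ᵥ (T *ᵥ x))

theorem qf_smul (T : Matrix (Fin (2 + 1)) (Fin (2 + 1)) 𝕜) (a : 𝕜) (x : Fin (2 + 1) → 𝕜) :
    qf T (a • x) = ‖a‖ ^ 2 * qf T x := by
  unfold qf
  rw [Matrix.mulVec_smul, star_smul, dotProduct_smul, smul_dotProduct, smul_smul]
  have h : (a * star a : 𝕜) = ((‖a‖ ^ 2 : ℝ) : 𝕜) := by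
    rw [RCLike.star_def, RCLike.mul_conj]
    push_cast
    rfl
  rw [h, smul_eq_mul, RCLike.re_ofReal_mul]

theorem qf_add (S T : Matrix (Fin (2 + 1)) (Fin (2 + 1)) 𝕜) (x : Fin (2 + 1) → 𝕜) :
    qf (S + T) x = qf S x + qf T x := by
  unfold qf
  rw [Matrix.add_mulVec, dotProduct_add, map_add]

theorem qf_smul_left (r : ℝ) (T : Matrix (Fin (2 + 1)) (Fin (2 + 1)) 𝕜) (x : Fin (2 + 1) → 𝕜) :
    qf ((r : 𝕜) • T) x = r * qf T x := by
  unfold qf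
  rw [Matrix.smul_mulVec, dotProduct_smul, smul_eq_mul, RCLike.re_ofReal_mul]

theorem qf_sum {ι : Type*} (s : Finset ι) (T : ι → Matrix (Fin (2 + 1)) (Fin (2 + 1)) 𝕜)
    (x : Fin (2 + 1) → 𝕜) : qf (∑ i ∈ s, T i) x = ∑ i ∈ s, qf (T i) x := by
  classical
  induction s using Finset.induction_on with
  | empty => simp [qf]
  | insert a s ha ih => rw [Finset.sum_insert ha, Finset.sum_insert ha, qf_add, ih]

theorem qf_one (x : Fin (2 + 1) → 𝕜) : qf (1 : Matrix (Fin (2 + 1)) (Fin (2 + 1)) 𝕜) x = nn x := by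
  unfold qf nn
  rw [Matrix.one_mulVec, dotProduct, map_sum]
  refine Finset.sum_congr rfl fun i _ => ?_
  rw [Pi.star_apply, RCLike.star_def, RCLike.conj_mul]
  have h : ((‖x i‖ : 𝕜) ^ 2) = ((‖x i‖ ^ 2 : ℝ) : 𝕜) := by push_cast; rfl
  rw [h, RCLike.ofReal_re]

theorem qf_cont (T : Matrix (Fin (2 + 1)) (Fin (2 + 1)) 𝕜) : Continuous fun v : NZ 𝕜 => qf T v.1 := by
  unfold qf
  refine RCLike.continuous_re.comp ?_
  have h : Continuous fun v : Fin (2 + 1) → 𝕜 => star v ⬝ᵥ (T *ᵥ v) := by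
    simp only [dotProduct, Matrix.mulVec]
    refine continuous_finset_sum _ fun i _ => ?_
    refine Continuous.mul ?_ (continuous_finset_sum _ fun j _ => ?_)
    · exact continuous_star.comp (continuous_apply i)
    · exact continuous_const.mul (continuous_apply j)
  exact h.comp continuous_subtype_val

/-- the normalised form -/
noncomputable def gT (T : Matrix (Fin (2 + 1)) (Fin (2 + 1)) 𝕜) (p : PP 𝕜) : ℝ :=
  qf T (rp p) / nn (rp p)

theorem gT_pj (T : Matrix (Fin (2 + 1)) (Fin (2 + 1)) 𝕜) (v : NZ 𝕜) :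
    gT T (pj v) = qf T v.1 / nn v.1 := by
  obtain ⟨a, ha, h⟩ := rp_pj v
  unfold gT
  rw [h, qf_smul, nn_smul]
  have h1 : ‖a‖ ^ 2 ≠ 0 := by positivity
  exact mul_div_mul_left _ _ h1

theorem gT_cont (T : Matrix (Fin (2 + 1)) (Fin (2 + 1)) 𝕜) : Continuous (gT T) := by
  rw [pj_quot.continuous_iff]
  have h : gT T ∘ pj = fun v => qf T v.1 / nn v.1 := by
    funext v
    exact gT_pj T v
  rw [h]
  exact (qf_cont T).div nn_cont fun v => (nn_pos v).ne'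

/-- diagonalisation -/
theorem qf_diag {T : Matrix (Fin (2 + 1)) (Fin (2 + 1)) 𝕜} (hT : T.IsHermitian) :
    ∃ (M : (Fin (2 + 1) → 𝕜) ≃ₗ[𝕜] (Fin (2 + 1) → 𝕜)) (l : Fin (2 + 1) → ℝ),
      ∀ x, qf T x = dq l (M x) := by
  refine ⟨Matrix.UnitaryGroup.toLinearEquiv (star hT.eigenvectorUnitary), hT.eigenvalues,
    fun x => ?_⟩
  set U := hT.eigenvectorUnitary with hU
  have hM : Matrix.UnitaryGroup.toLinearEquiv (star U) x =
      (star (U : Matrix (Fin (2 + 1)) (Fin (2 + 1)) 𝕜)) *ᵥ x := rfl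
  rw [hM]
  unfold qf
  conv_lhs => rw [hT.spectral_theorem, Unitary.conjStarAlgAut_apply]
  set y := (star (U : Matrix (Fin (2 + 1)) (Fin (2 + 1)) 𝕜)) *ᵥ x with hy
  have h1 : star x ⬝ᵥ ((U : Matrix (Fin (2 + 1)) (Fin (2 + 1)) 𝕜) *
      (Matrix.diagonal (RCLike.ofReal ∘ hT.eigenvalues)) *
      star (U : Matrix (Fin (2 + 1)) (Fin (2 + 1)) 𝕜)) *ᵥ x =
      star y ⬝ᵥ (Matrix.diagonal (RCLike.ofReal ∘ hT.eigenvalues) : Matrix _ _ 𝕜) *ᵥ y := by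
    rw [hy, ← Matrix.mulVec_mulVec, ← Matrix.mulVec_mulVec, Matrix.dotProduct_mulVec,
      Matrix.star_mulVec]
    congr 1
    rw [← Matrix.star_eq_conjTranspose, star_star]
  rw [h1, dotProduct, map_sum]
  unfold dq
  refine Finset.sum_congr rfl fun i _ => ?_
  rw [Matrix.mulVec_diagonal, Pi.star_apply, RCLike.star_def]
  have h2 : conj (y i) * ((RCLike.ofReal ∘ hT.eigenvalues) i * y i) =
      ((hT.eigenvalues i * ‖y i‖ ^ 2 : ℝ) : 𝕜) := by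
    have h3 : (conj (y i) * y i : 𝕜) = ((‖y i‖ ^ 2 : ℝ) : 𝕜) := by
      rw [RCLike.conj_mul]
      push_cast
      rfl
    rw [Function.comp_apply]
    push_cast at h3 ⊢
    rw [← h3]
    ring
  rw [h2, RCLike.ofReal_re]

/-- the region of a Hermitian form -/
def AT (T : Matrix (Fin (2 + 1)) (Fin (2 + 1)) 𝕜) : Set (PP 𝕜) := {p | 0 ≤ qf T (rp p)}

theorem mem_AT_def (T : Matrix (Fin (2 + 1)) (Fin (2 + 1)) 𝕜) (p : PP 𝕜) :
    p ∈ AT T ↔ 0 ≤ qf T (rp p) := Iff.rfl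

theorem mem_AT (T : Matrix (Fin (2 + 1)) (Fin (2 + 1)) 𝕜) (v : NZ 𝕜) :
    pj v ∈ AT T ↔ 0 ≤ qf T v.1 := by
  obtain ⟨a, ha, h⟩ := rp_pj v
  have h1 : 0 < ‖a‖ ^ 2 := by positivity
  rw [mem_AT_def, h, qf_smul]
  exact mul_nonneg_iff_of_pos_left h1

theorem AT_homeo {T : Matrix (Fin (2 + 1)) (Fin (2 + 1)) 𝕜} (hT : T.IsHermitian) :
    ∃ (h : PP 𝕜 ≃ₜ PP 𝕜) (l : Fin (2 + 1) → ℝ), MapsTo h (AL 𝕜 l) (AT T) ∧
      MapsTo h.symm (AT T) (AL 𝕜 l) := by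
  obtain ⟨M, l, hM⟩ := qf_diag hT
  refine ⟨(lmH M).symm, l, ?_, ?_⟩
  · intro p hp
    obtain ⟨v, rfl⟩ := pj_surj p
    change lm M.symm (pj v) ∈ AT T
    rw [lm_pj, mem_AT, hM]
    rw [mem_AL] at hp
    simpa using hp
  · intro p hp
    obtain ⟨v, rfl⟩ := pj_surj p
    change lm M (pj v) ∈ AL 𝕜 l
    rw [lm_pj, mem_AL]
    rw [mem_AT, hM] at hp
    exact hp

theorem hi_AT {T : Matrix (Fin (2 + 1)) (Fin (2 + 1)) 𝕜} (hT : T.IsHermitian) :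
    HomologyInjective (AT T) := by
  obtain ⟨h, l, h1, h2⟩ := AT_homeo hT
  exact hi_homeo h h1 h2 (hi_AL l)

theorem cech_AT {T : Matrix (Fin (2 + 1)) (Fin (2 + 1)) 𝕜} (hT : T.IsHermitian) :
    CechSurjective (AT T) := by
  letI := ppMetric 𝕜
  obtain ⟨h, l, h1, h2⟩ := AT_homeo hT
  exact cech_of_surA (surA_homeo h h1 h2 (surA_AL l))

/-- the map defined by Hermitian matrices -/
noncomputable def fT {N : ℕ} (T : Fin N → Matrix (Fin (2 + 1)) (Fin (2 + 1)) 𝕜) (p : PP 𝕜) :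
    EuclideanSpace ℝ (Fin N) := WithLp.toLp 2 fun i => gT (T i) p

theorem fT_cont {N : ℕ} (T : Fin N → Matrix (Fin (2 + 1)) (Fin (2 + 1)) 𝕜) :
    Continuous (fT T) :=
  (PiLp.continuous_toLp 2 _).comp (continuous_pi fun i => gT_cont (T i))

theorem fT_level {N : ℕ} (T : Fin N → Matrix (Fin (2 + 1)) (Fin (2 + 1)) 𝕜)
    (z : EuclideanSpace ℝ (Fin N)) (t : ℝ) :
    {p | t ≤ ⟪z, fT T p⟫_ℝ} = AT ((∑ i, ((z i : ℝ) : 𝕜) • T i) + (((-t : ℝ)) : 𝕜) • 1) := by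
  ext p
  obtain ⟨v, rfl⟩ := pj_surj p
  rw [mem_AT, qf_add, qf_sum, qf_smul_left, qf_one]
  have h1 : ⟪z, fT T (pj v)⟫_ℝ = (∑ i, z i * qf (T i) v.1) / nn v.1 := by
    rw [PiLp.inner_apply, Finset.sum_div]
    refine Finset.sum_congr rfl fun i _ => ?_
    change ⟪z i, gT (T i) (pj v)⟫_ℝ = _
    rw [gT_pj, real_inner_eq_re_inner]
    simp
    ring
  change t ≤ ⟪z, fT T (pj v)⟫_ℝ ↔ _
  rw [h1, le_div_iff₀ (nn_pos v)]
  simp only [qf_smul_left]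
  constructor
  · intro h; linarith
  · intro h; linarith

theorem herm_comb {N : ℕ} {T : Fin N → Matrix (Fin (2 + 1)) (Fin (2 + 1)) 𝕜}
    (hT : ∀ i, (T i).IsHermitian) (z : EuclideanSpace ℝ (Fin N)) (t : ℝ) :
    ((∑ i, ((z i : ℝ) : 𝕜) • T i) + (((-t : ℝ)) : 𝕜) • 1).IsHermitian := by
  have h1 : ∀ (r : ℝ) (S : Matrix (Fin (2 + 1)) (Fin (2 + 1)) 𝕜), S.IsHermitian →
      ((r : 𝕜) • S).IsHermitian := by
    intro r S hS
    rw [Matrix.IsHermitian, Matrix.conjTranspose_smul, hS.eq, RCLike.star_def, RCLike.conj_ofReal]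
  refine Matrix.IsHermitian.add ?_ (h1 _ _ Matrix.isHermitian_one)
  rw [Matrix.IsHermitian, Matrix.conjTranspose_sum]
  exact Finset.sum_congr rfl fun i _ => h1 _ _ (hT i)

/-- maps given by Hermitian matrices are tight -/
theorem fT_tight {N : ℕ} {T : Fin N → Matrix (Fin (2 + 1)) (Fin (2 + 1)) 𝕜}
    (hT : ∀ i, (T i).IsHermitian) : TightMap (fT T) := by
  intro z t _
  rw [fT_level]
  exact hi_AT (herm_comb hT z t)

theorem fT_cech {N : ℕ} {T : Fin N → Matrix (Fin (2 + 1)) (Fin (2 + 1)) 𝕜}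
    (hT : ∀ i, (T i).IsHermitian) : CechTightMap (fT T) := by
  intro z t _
  rw [fT_level]
  exact cech_AT (herm_comb hT z t)

end

end Pool.Agent.H61PP
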