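import Pool.Agent.H61PP.Std

/-! Standard projective planes. -/

set_option autoImplicit false

namespace Pool.Agent.H61PP

open Set Topology
open Pool.Agent.Helper775.Tight Pool.Agent.Helper775.Tight.SoftCx
open scoped InnerProductSpace

section

variable {F : Type} [NormedDivisionRing F] [NormedAlgebra ℝ F] [FiniteDimensional ℝ F] {n : ℕ}

theorem ps_charts' {d : ℕ} (hd : Module.finrank ℝ F = d) :
    Nonempty (ChartedSpace (EuclideanSpace ℝ (Fin (n * d))) (ProjSpace F n)) := by
  have h := ps_charts (F := F) (n := n) hd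
  rwa [mul_comm] at h

variable (F n) in
theorem ps_metrizable : TopologicalSpace.MetrizableSpace (ProjSpace F n) := by
  obtain ⟨cs⟩ := ps_charts (F := F) (n := n) rfl
  haveI : CompactSpace (ProjSpace F n) := ps_compact
  haveI : T2Space (ProjSpace F n) := ps_t2
  haveI : SecondCountableTopology (ProjSpace F n) :=
    ChartedSpace.secondCountable_of_sigmaCompact
      (EuclideanSpace ℝ (Fin (Module.finrank ℝ F * n))) (ProjSpace F n)
  exact TopologicalSpace.metrizableSpace_of_t3_secondCountable _

variable (F n) in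
/-- a metric on projective space -/
noncomputable abbrev psMetric : MetricSpace (ProjSpace F n) :=
  @TopologicalSpace.metrizableSpaceMetric (ProjSpace F n) _ (ps_metrizable F n)

omit [NormedDivisionRing F] [NormedAlgebra ℝ F] [FiniteDimensional ℝ F] in
theorem sphere_compact (V : Type*) [NormedAddCommGroup V] [NormedSpace ℝ V]
    [FiniteDimensional ℝ V] : CompactSpace (Metric.sphere (0 : V) 1) := by
  haveI : ProperSpace V := FiniteDimensional.proper ℝ V
  exact isCompact_iff_compactSpace.1 (isCompact_sphere _ _)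

theorem sphere_connected (V : Type*) [NormedAddCommGroup V] [NormedSpace ℝ V]
    [FiniteDimensional ℝ V] (h : 1 < Module.finrank ℝ V) :
    ConnectedSpace (Metric.sphere (0 : V) 1) := by
  have h3 : 1 < Module.rank ℝ V := by
    rw [← Module.finrank_eq_rank]
    exact_mod_cast h
  exact isConnected_iff_connectedSpace.1 (isConnected_sphere h3 0 zero_le_one)

theorem finrank_pi_eq {d : ℕ} (hd : Module.finrank ℝ F = d) (k : ℕ) :
    Module.finrank ℝ (Fin k → F) = k * d := by
  rw [Module.finrank_pi_fintype]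
  simp [hd]

/-- The class on the standard plane. -/
theorem std_ring {d : ℕ} (hd : Module.finrank ℝ F = d) :
    letI := psMetric F 2
    ∃ u : Ch (ProjSpace F 2), (AS (ProjSpace F 2)).Coc univ (d + 1) u ∧
      (∀ ν, 2 ≤ ν → ν ≤ 2 * d → ν ≠ d + 1 → (AS (ProjSpace F 2)).Ex univ ν) ∧
      (∀ c, (AS (ProjSpace F 2)).Coc univ (d + 1) c → (AS (ProjSpace F 2)).Cob univ (d + 1) c ∨
        (AS (ProjSpace F 2)).Cob univ (d + 1) (c - u)) ∧
      ¬ (AS (ProjSpace F 2)).Cob univ (2 * d + 1) (cup d u u) ∧
      (∀ Z : Set (ProjSpace F 2), Z.Nonempty →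
        (2 ≤ d → (AS (Metric.sphere (0 : Fin (2 + 1) → F) 1)).Ex (qmap F 2 ⁻¹' Z) d) →
        (d = 1 → ∀ c, (AS (Metric.sphere (0 : Fin (2 + 1) → F) 1)).Coc (qmap F 2 ⁻¹' Z) 1 c →
          (∀ z ∈ qmap F 2 ⁻¹' Z, c ∈ (AS (Metric.sphere (0 : Fin (2 + 1) → F) 1)).N z 1) ∨
          ∀ z ∈ qmap F 2 ⁻¹' Z, c - one ∈ (AS (Metric.sphere (0 : Fin (2 + 1) → F) 1)).N z 1) →
        ¬ (AS (ProjSpace F 2)).Cob Z (d + 1) u) := by
  letI := psMetric F 2
  haveI : CompactSpace (ProjSpace F 2) := ps_compact
  haveI : ConnectedSpace (ProjSpace F 2) := ps_connected (by norm_num)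
  haveI : CompactSpace (Metric.sphere (0 : Fin (2 + 1) → F) 1) := sphere_compact _
  have hd1 : 1 ≤ d := by rw [← hd]; exact Module.finrank_pos
  have hfr : Module.finrank ℝ (Fin (2 + 1) → F) = (2 + 1) * d := finrank_pi_eq hd _
  haveI : ConnectedSpace (Metric.sphere (0 : Fin (2 + 1) → F) 1) :=
    sphere_connected _ (by rw [hfr]; omega)
  obtain ⟨θ, -, hRT⟩ := nsphere (Fin (2 + 1) → F) hfr (by omega)
  obtain ⟨u, hu, hring, hsq, hZ⟩ := ring_plus (n := 2) (qmap F 2) qmap_continuous hd1
    (fun ν h2 hν => job15702_ex_of_rt hRT ν h2 (by omega)) le_rfl (qmap_loc hd)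
  refine ⟨u, hu, ?_, ?_, hsq, hZ⟩
  · intro ν h2 hν hne c hc
    rcases hring ν h2 (by omega) c hc with h | ⟨i, hi, h⟩
    · exact h
    · exfalso
      have hi1 : i ≠ 1 := by
        rintro rfl
        omega
      rcases Nat.lt_or_ge i 2 with h3 | h3
      · have : i = 0 := by omega
        subst this
        omega
      · have : 2 * d ≤ i * d := Nat.mul_le_mul_right d h3
        omega
  · intro c hc
    rcases hring (d + 1) (by omega) (by omega) c hc with h | ⟨i, hi, h⟩
    · exact Or.inl h
    · right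
      have hi1 : i = 1 := by
        have h3 : i * d = 1 * d := by omega
        exact Nat.eq_of_mul_eq_mul_right (by omega) h3
      subst hi1
      have h4 : (AS (ProjSpace F 2)).Cob univ (d + 1) (upow d u 1 - u) := by
        apply Cob.of_mem
        intro z hz
        change cup d u one - u ∈ Nz z (d + 1)
        refine mem_Nz_of Filter.univ_mem fun l hl _ => ?_
        rw [Pi.sub_apply, cup_of_lt (by omega), List.take_of_length_le (by omega)]
        show u l * 1 - u l = 0
        rw [mul_one, sub_self]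
      have h5 := h.add h4
      rwa [sub_add_sub_cancel] at h5

/-- Tight substantial maps of the standard planes into dimension at most `d + 1` have convex
image. -/
theorem std_conv {d N : ℕ} (hd : Module.finrank ℝ F = d) (hN : N ≤ d + 1)
    (f : ProjSpace F 2 → EuclideanSpace ℝ (Fin N)) (hf : Continuous f) (hs : Substantial f)
    (ht : TightMap f ∨ CechTightMap f) : Convex ℝ (range f) := by
  letI := psMetric F 2
  haveI : CompactSpace (ProjSpace F 2) := ps_compact
  haveI : ConnectedSpace (ProjSpace F 2) := ps_connected (by norm_num)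
  obtain ⟨cs⟩ := ps_charts' (F := F) (n := 2) hd
  have hd1 : 1 ≤ d := by rw [← hd]; exact Module.finrank_pos
  obtain ⟨u, hu, hex, hu2, hsq, -⟩ := std_ring (F := F) hd
  exact conv_metric hd1 hex u hu hu2 hN (fun _ => hsq) f hf hs
    (fun z hz n hn c hc => top_surj (m := 2 * d) f hf ht z hz n hn c hc)

end

end Pool.Agent.H61PP
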