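import Pool.Agent.H61PP.SurA
import Pool.Agent.H61PP.Plane

/-! The standard projective plane over the real or complex numbers: interface. -/

set_option autoImplicit false

namespace Pool.Agent.H61PP

open Set Topology
open Pool.Agent.Helper775.Tight Pool.Agent.Helper775.Tight.SoftCx

section

variable {𝕜 : Type} [RCLike 𝕜]

/-- nonzero vectors -/
abbrev NZ (𝕜 : Type) [RCLike 𝕜] := {v : Fin (2 + 1) → 𝕜 // v ≠ 0}

/-- the projective plane -/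
def PP (𝕜 : Type) [RCLike 𝕜] : Type := ProjSpace 𝕜 2

instance : TopologicalSpace (PP 𝕜) := inferInstanceAs (TopologicalSpace (ProjSpace 𝕜 2))

variable (𝕜) in
theorem pp_compact : CompactSpace (PP 𝕜) := ps_compact (F := 𝕜) (n := 2)

variable (𝕜) in
theorem pp_t2 : T2Space (PP 𝕜) := ps_t2 (F := 𝕜) (n := 2)

variable (𝕜) in
theorem pp_connected : ConnectedSpace (PP 𝕜) := ps_connected (F := 𝕜) (n := 2) (by norm_num)

variable (𝕜) in
/-- the projection from the unit sphere -/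
def pq : Metric.sphere (0 : Fin (2 + 1) → 𝕜) 1 → PP 𝕜 := qmap 𝕜 2

theorem pq_cont : Continuous (pq 𝕜) := qmap_continuous (F := 𝕜) (n := 2)

theorem pq_open : IsOpenMap (pq 𝕜) := j15695_open (F := 𝕜) (n := 2)

theorem pq_surj : Function.Surjective (pq 𝕜) := qmap_surjective (F := 𝕜) (n := 2)

/-- the line of a nonzero vector -/
def pj (v : NZ 𝕜) : PP 𝕜 := j15698_pi 𝕜 2 v

theorem pj_quot : IsQuotientMap (pj (𝕜 := 𝕜)) := j15698_quot (F := 𝕜) (n := 2)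

theorem pj_cont : Continuous (pj (𝕜 := 𝕜)) := pj_quot.continuous

theorem pj_surj (p : PP 𝕜) : ∃ v : NZ 𝕜, pj v = p := pj_quot.surjective p

theorem pj_eq {v w : NZ 𝕜} {a : 𝕜} (h : v.1 = a • w.1) : pj v = pj w := by
  refine (Projectivization.mk_eq_mk_iff' 𝕜 _ _ _ _).2 ⟨a, ?_⟩
  exact h.symm

theorem pj_eq_iff {v w : NZ 𝕜} : pj v = pj w ↔ ∃ a : 𝕜, a • w.1 = v.1 :=
  (Projectivization.mk_eq_mk_iff' 𝕜 _ _ _ _)

/-- a representative -/
noncomputable def rp (p : PP 𝕜) : Fin (2 + 1) → 𝕜 := j15698_rep (F := 𝕜) (n := 2) p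

theorem rp_ne (p : PP 𝕜) : rp p ≠ 0 := j15698_rep_ne (F := 𝕜) (n := 2) p

theorem rp_pj (v : NZ 𝕜) : ∃ a : 𝕜, a ≠ 0 ∧ rp (pj v) = a • v.1 := by
  obtain ⟨a, ha, h⟩ := j15698_rep_pi (F := 𝕜) (n := 2) v
  exact ⟨a, ha, funext h⟩

/-- a unit vector as a nonzero vector -/
def snz (x : Metric.sphere (0 : Fin (2 + 1) → 𝕜) 1) : NZ 𝕜 :=
  ⟨x.1, by
    intro h
    have h1 := x.2
    rw [mem_sphere_zero_iff_norm, h, norm_zero] at h1
    exact zero_ne_one h1⟩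

theorem pq_eq_pj (x : Metric.sphere (0 : Fin (2 + 1) → 𝕜) 1) : pq 𝕜 x = pj (snz x) := rfl

variable (𝕜) in
/-- a metric -/
noncomputable abbrev ppMetric : MetricSpace (PP 𝕜) :=
  @TopologicalSpace.metrizableSpaceMetric (PP 𝕜) _ (ps_metrizable 𝕜 2)

theorem pp_ring {d : ℕ} (hd : Module.finrank ℝ 𝕜 = d) :
    letI := ppMetric 𝕜
    ∃ u : Ch (PP 𝕜), (AS (PP 𝕜)).Coc univ (d + 1) u ∧
      (∀ Z : Set (PP 𝕜), Z.Nonempty →
        (2 ≤ d → (AS (Metric.sphere (0 : Fin (2 + 1) → 𝕜) 1)).Ex (pq 𝕜 ⁻¹' Z) d) →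
        (d = 1 → ∀ c, (AS (Metric.sphere (0 : Fin (2 + 1) → 𝕜) 1)).Coc (pq 𝕜 ⁻¹' Z) 1 c →
          (∀ z ∈ pq 𝕜 ⁻¹' Z, c ∈ (AS (Metric.sphere (0 : Fin (2 + 1) → 𝕜) 1)).N z 1) ∨
          ∀ z ∈ pq 𝕜 ⁻¹' Z, c - one ∈ (AS (Metric.sphere (0 : Fin (2 + 1) → 𝕜) 1)).N z 1) →
        ¬ (AS (PP 𝕜)).Cob Z (d + 1) u) := by
  obtain ⟨u, hu, _, _, _, hZ⟩ := std_ring (F := 𝕜) hd
  exact ⟨u, hu, hZ⟩

/-- the chart domain -/
def ppU (𝕜 : Type) [RCLike 𝕜] (k : Fin (2 + 1)) : Set (PP 𝕜) := {p | rp p k ≠ 0}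

/-- the coordinate line -/
def ppL (𝕜 : Type) [RCLike 𝕜] (k : Fin (2 + 1)) : Set (PP 𝕜) := {p | rp p k = 0}

theorem mem_ppL_def (k : Fin (2 + 1)) (p : PP 𝕜) : p ∈ ppL 𝕜 k ↔ rp p k = 0 := Iff.rfl

theorem mem_ppL (k : Fin (2 + 1)) (v : NZ 𝕜) : pj v ∈ ppL 𝕜 k ↔ v.1 k = 0 := by
  obtain ⟨a, ha, h⟩ := rp_pj v
  rw [mem_ppL_def, h]
  simp [ha]

theorem ppU_homeo {d : ℕ} (hd : Module.finrank ℝ 𝕜 = d) (k : Fin (2 + 1)) :
    Nonempty (((ppL 𝕜 k)ᶜ : Set (PP 𝕜)) ≃ₜ EuclideanSpace ℝ (Fin (2 * d))) := by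
  have hfr : Module.finrank ℝ (Fin 2 → 𝕜) =
      Module.finrank ℝ (EuclideanSpace ℝ (Fin (2 * d))) := by
    rw [finrank_euclideanSpace_fin, Module.finrank_pi_fintype]
    simp [hd]
  have L : (Fin 2 → 𝕜) ≃L[ℝ] EuclideanSpace ℝ (Fin (2 * d)) :=
    ContinuousLinearEquiv.ofFinrankEq hfr
  refine ⟨?_⟩
  exact
    { toFun := fun p => L (j15698_phi (F := 𝕜) (n := 2) k p.1)
      invFun := fun y => ⟨j15698_psi (F := 𝕜) (n := 2) k (L.symm y),
        j15698_psi_mem (F := 𝕜) (n := 2) k _⟩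
      left_inv := by
        rintro ⟨p, hp⟩
        apply Subtype.ext
        simp only
        rw [ContinuousLinearEquiv.symm_apply_apply]
        exact j15698_left (F := 𝕜) (n := 2) k p hp
      right_inv := by
        intro y
        simp only
        rw [j15698_right (F := 𝕜) (n := 2), ContinuousLinearEquiv.apply_symm_apply]
      continuous_toFun := by
        refine L.continuous.comp ?_
        exact (j15698_cont_phi (F := 𝕜) (n := 2) k).comp_continuous continuous_subtype_val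
          (fun p => p.2)
      continuous_invFun := by
        refine Continuous.subtype_mk ?_ _
        exact (j15698_cont_psi (F := 𝕜) (n := 2) k).comp L.symm.continuous }

theorem pp_charts {d : ℕ} (hd : Module.finrank ℝ 𝕜 = d) :
    Nonempty (ChartedSpace (EuclideanSpace ℝ (Fin (2 * d))) (PP 𝕜)) :=
  ps_charts' (F := 𝕜) (n := 2) hd

end

end Pool.Agent.H61PP
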