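import Pool.Agent.Helper775.Tight.Final
import Pool.Agent.Helper775.Proj.Bundle

/-! The radial map of a map whose image misses an interior point of its convex hull. -/

set_option autoImplicit false

namespace Pool.Agent.H61PP

open Set Topology
open Pool.Agent.Helper775.Tight Pool.Agent.Helper775.Tight.SoftCx
open scoped InnerProductSpace

theorem rt_of_atype {Y K : Type*} [TopologicalSpace Y] [AddCommGroup K] {C : SoftCx Y K} {one a : K}
    {d : ℕ} (hd : 1 ≤ d) {Z : Set Y} (h : C.AType one d a Z) : C.RT one (d + 1) a Z := by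
  obtain ⟨h1, h2, h3, h4, h5⟩ := h
  refine ⟨?_, ?_, h5, fun h => by omega⟩
  · intro n c hc
    rcases Nat.lt_or_ge n 2 with hn | hn
    · rcases Nat.eq_zero_or_pos n with rfl | hn0
      · exact Or.inl (cob_index_zero _ _)
      · obtain rfl : n = 1 := by omega
        rcases h2 c hc with h | h
        · exact Or.inl (cob_one.2 h)
        · exact Or.inr (Or.inl ⟨rfl, cob_one.2 h⟩)
    · by_cases hnd : n = d + 1
      · subst hnd
        rcases h4 c hc with h | h
        · exact Or.inl h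
        · exact Or.inr (Or.inr (Or.inl ⟨rfl, h⟩))
      · exact Or.inl (h3 n hn hnd c hc)
  · rw [cob_one]
    exact h1

section

variable {P : Type*} [MetricSpace P] [CompactSpace P] {E : Type*} [NormedAddCommGroup E]
  [InnerProductSpace ℝ E] [FiniteDimensional ℝ E] {f : P → E}

theorem fib_acy (z : E) (hz : ‖z‖ = 1) (h : (AS P).Acy one (top f z)) :
    (AS (P × E)).Acy one (GG f ∩ Prod.snd ⁻¹' {z}) := by
  have hne : (top f z).Nonempty := by
    by_contra hne
    rw [not_nonempty_iff_eq_empty] at hne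
    exact h.1 (by simp [hne])
  refine acy_retract (g := Prod.fst) (g' := fun x => (x, z)) (fun x _ => continuous_fst.continuousAt)
    (fun x _ => (Continuous.prodMk_left z).continuousAt) ?_
    (fun x hx => ⟨⟨hz, hx⟩, rfl⟩) ?_ ?_ h
  · rintro ⟨x, z'⟩ ⟨h1, h2⟩
    have : z' = z := h2
    subst this
    exact h1.2
  · rintro ⟨x, z'⟩ ⟨h1, h2⟩
    have : z' = z := h2
    rw [this]
  · obtain ⟨x, hx⟩ := hne
    exact ⟨(x, z), ⟨⟨hz, hx⟩, rfl⟩⟩

theorem fib_atype {d : ℕ} {a : Ch P} (ha : (AS P).Coc univ (d + 1) a) (z : E) (hz : ‖z‖ = 1)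
    (h : (AS P).AType one d a (top f z)) :
    (AS (P × E)).AType one d (pb Prod.fst a) (GG f ∩ Prod.snd ⁻¹' {z}) := by
  have hne : (top f z).Nonempty := by
    by_contra hne
    rw [not_nonempty_iff_eq_empty] at hne
    exact h.1 (by simp [hne])
  refine atype_transfer (g := Prod.fst) (g' := fun x => (x, z))
    (fun x _ => continuous_fst.continuousAt)
    (fun x _ => (Continuous.prodMk_left z).continuousAt) ?_
    (?_ : MapsTo _ (top f z) _) ?_ (fun _ _ => rfl) ?_ (ha.mono (subset_univ _)) h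
  · rintro ⟨x, z'⟩ ⟨h1, h2⟩
    have : z' = z := h2
    subst this
    exact h1.2
  · intro x hx
    exact ⟨⟨hz, hx⟩, rfl⟩
  · rintro ⟨x, z'⟩ ⟨h1, h2⟩
    have : z' = z := h2
    rw [this]
  · obtain ⟨x, hx⟩ := hne
    exact ⟨(x, z), ⟨⟨hz, hx⟩, rfl⟩⟩

/-- If the origin is interior to the convex hull and not in the image, then the radial map is
not trivial in cohomology. -/
theorem radial_ne (hf : Continuous f) {d N : ℕ} (hd : 1 ≤ d) (hN : N ≤ d + 1)
    (h0 : ∀ z : E, z ≠ 0 → ∃ x, 0 < ⟪z, f x⟫_ℝ) (hne : ∀ x, f x ≠ 0)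
    (a : Ch P) (ha : (AS P).Coc univ (d + 1) a)
    (hfib : ∀ z : E, ‖z‖ = 1 → (AS P).Acy one (top f z) ∨ (AS P).AType one d a (top f z))
    {e : Ch E} (he : (AS E).Coc (Metric.sphere (0 : E) 1) N e)
    (hnb : ¬ (AS E).Cob (Metric.sphere (0 : E) 1) N e) :
    ¬ (AS P).Cob univ N (pb (fun x => ‖f x‖⁻¹ • f x) e) := by
  intro hcob
  set S : Set E := Metric.sphere (0 : E) 1 with hSdef
  have hSc : IsCompact S := isCompact_sphere _ _
  have hG := isCompact_GG hf
  -- the cone is exact in low degrees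
  have hcone : ∀ w ∈ S, ∀ m ≤ N,
      (cone (phi Prod.snd continuous_snd (GG f) hG)).Ex {w} m := by
    intro w hw m hm
    have hw1 : ‖w‖ = 1 := by simpa [hSdef] using hw
    rcases hfib w hw1 with h | h
    · refine cone_ex_of_acy _ one w (one_D_mem w) (acy_singleton w) ?_ m
      rw [push_acy]
      exact fib_acy w hw1 h
    · have h1 := rt_of_atype hd (fib_atype ha w hw1 h)
      have h2 : (PF Prod.snd continuous_snd (GG f) hG).RT one (d + 1) (pb Prod.fst a) {w} := by
        rw [push_rt]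
        exact h1
      exact (one_of_rt (phi Prod.snd continuous_snd (GG f) hG) one (by omega) _ w (one_D_mem w)
        (acy_singleton w) h2).1 m (by omega)
  have hEx : (cone (phi Prod.snd continuous_snd (GG f) hG)).Ex S N :=
    ex_of_pointwise N hSc fun z hz m hm => hcone z hz m hm
  -- the pull back along the second projection is homotopic to the one along the radial map
  have hpos : ∀ q ∈ GG f, 0 < ⟪q.2, f q.1⟫_ℝ := by
    rintro ⟨x, z⟩ ⟨hz, hx⟩
    have hz0 : z ≠ 0 := by
      rintro rfl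
      simp at hz
    obtain ⟨y, hy⟩ := h0 z hz0
    exact lt_of_lt_of_le hy (hx y)
  set r : P → E := fun x => ‖f x‖⁻¹ • f x with hr
  have hrc : Continuous r := by
    refine Continuous.smul (Continuous.inv₀ hf.norm fun x => ?_) hf
    exact norm_ne_zero_iff.2 (hne x)
  have hrpos : ∀ q ∈ GG f, 0 < ⟪q.2, r q.1⟫_ℝ := by
    intro q hq
    rw [hr]
    simp only
    rw [real_inner_smul_right]
    exact mul_pos (inv_pos.2 (norm_pos_iff.2 (hne q.1))) (hpos q hq)
  have hmain : ∀ t ∈ Icc (0 : ℝ) 1, ∀ q ∈ GG f, (1 - t) • r q.1 + t • q.2 ≠ 0 := by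
    intro t ht q hq h00
    have h1 : 0 < ⟪q.2, (1 - t) • r q.1 + t • q.2⟫_ℝ := by
      rw [inner_add_right, real_inner_smul_right _ (r q.1), real_inner_smul_right _ q.2,
        real_inner_self_eq_norm_sq, hq.1]
      have h2 := hrpos q hq
      rcases eq_or_lt_of_le ht.1 with h | h
      · rw [← h]; simpa using h2
      · have h3 : 0 ≤ (1 - t) * ⟪q.2, r q.1⟫_ℝ := mul_nonneg (by linarith [ht.2]) h2.le
        linarith
    rw [h00, inner_zero_right] at h1
    exact lt_irrefl _ h1
  have hnorm : ∀ x, ‖r x‖ = 1 := by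
    intro x
    rw [hr]
    simp only
    rw [norm_smul, norm_inv, norm_norm, inv_mul_cancel₀ (norm_ne_zero_iff.2 (hne x))]
  have hhom := cob_pb_homotopy (F := GG f) hG
    (fun t q => ‖(1 - t) • r q.1 + t • q.2‖⁻¹ • ((1 - t) • r q.1 + t • q.2)) (by
      intro t ht q hq
      have hc : Continuous fun p : ℝ × (P × E) => (1 - p.1) • r p.2.1 + p.1 • p.2.2 := by
        have h1 : Continuous fun p : ℝ × (P × E) => r p.2.1 := hrc.comp (by fun_prop)
        exact ((continuous_const.sub continuous_fst).smul h1).add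
          (continuous_fst.smul (by fun_prop))
      exact ((hc.norm.continuousAt (x := (t, q))).inv₀ (by
        simpa using hmain t ht q hq)).smul hc.continuousAt) (F' := S) (by
      intro t ht q hq
      rw [hSdef, mem_sphere_zero_iff_norm, norm_smul, norm_inv, norm_norm,
        inv_mul_cancel₀ (norm_ne_zero_iff.2 (hmain t ht q hq))]) he
  have h1 : (AS (P × E)).Cob (GG f) N (pb Prod.fst (pb r e)) :=
    cob_pb (F := GG f) (fun x _ => continuous_fst.continuousAt) (mapsTo_univ _ _) hcob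
  -- compare with the two ends
  have hS0 : MapsTo (fun q : P × E => r q.1) (GG f) S := by
    intro q hq
    rw [hSdef, mem_sphere_zero_iff_norm]
    exact hnorm _
  have hS1 : MapsTo (fun q : P × E => q.2) (GG f) S := by
    intro q hq
    rw [hSdef, mem_sphere_zero_iff_norm]
    exact hq.1
  have hcH : ∀ t ∈ Icc (0 : ℝ) 1, ∀ q ∈ GG f, ContinuousAt (fun q : P × E =>
      ‖(1 - t) • r q.1 + t • q.2‖⁻¹ • ((1 - t) • r q.1 + t • q.2)) q := by
    intro t ht q hq
    have hc : Continuous fun q : P × E => (1 - t) • r q.1 + t • q.2 := by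
      have h1 : Continuous fun p : P × E => r p.1 := hrc.comp (by fun_prop)
      fun_prop
    exact (hc.norm.continuousAt.inv₀ (by simpa using hmain t ht q hq)).smul hc.continuousAt
  have m0 : (0 : ℝ) ∈ Icc (0 : ℝ) 1 := left_mem_Icc.2 zero_le_one
  have m1 : (1 : ℝ) ∈ Icc (0 : ℝ) 1 := right_mem_Icc.2 zero_le_one
  have h2 := cob_pb_sub (F := GG f) (g₁ := fun q : P × E => r q.1)
    (g₂ := fun q : P × E => ‖(1 - (0 : ℝ)) • r q.1 + (0 : ℝ) • q.2‖⁻¹ •
      ((1 - (0 : ℝ)) • r q.1 + (0 : ℝ) • q.2))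
    (fun x _ => (hrc.comp continuous_fst).continuousAt) (hcH 0 m0) (by
      intro q hq
      simp [hnorm q.1]) hS0 he
  have h3 := cob_pb_sub (F := GG f) (g₁ := fun q : P × E => q.2)
    (g₂ := fun q : P × E => ‖(1 - (1 : ℝ)) • r q.1 + (1 : ℝ) • q.2‖⁻¹ •
      ((1 - (1 : ℝ)) • r q.1 + (1 : ℝ) • q.2))
    (fun x _ => continuous_snd.continuousAt) (hcH 1 m1) (by
      intro q hq
      simp [hq.1]) hS1 he
  have h4 : (AS (P × E)).Cob (GG f) N (pb Prod.snd e) := by
    have h5 := (h1.sub h2).sub hhom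
    have h6 := h3.add h5
    have e1 : pb (fun q : P × E => r q.1) e = pb Prod.fst (pb r e) := by
      funext l; simp [pb, List.map_map, Function.comp_def]
    rw [e1] at h6
    have e2 : (pb (Prod.snd : P × E → E) e) = pb (fun q : P × E => q.2) e := rfl
    rw [e2]
    convert h6 using 1
    abel
  have h5 : (PF Prod.snd continuous_snd (GG f) hG).Cob S N (pb Prod.snd e) := by
    rw [push_cob]
    exact h4.mono inter_subset_left
  obtain ⟨t, ht⟩ := h5
  have h6 : (cone (phi Prod.snd continuous_snd (GG f) hG)).Coc S N (e, t) := by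
    intro z hz
    rw [cone_D, cone_N]
    refine ⟨he z hz, ?_⟩
    rw [Nat.add_sub_cancel]
    exact ht z hz
  obtain ⟨⟨e', t'⟩, h7⟩ := hEx _ h6
  apply hnb
  refine ⟨e', fun z hz => ?_⟩
  exact (h7 z hz).1

end

end Pool.Agent.H61PP
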