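import Pool.Agent.H61PP.Prism
import Pool.Agent.Helper775.Tight.Compare

/-! Injectivity in singular homology mod 2: homeomorphisms, deformations, duality. -/

set_option autoImplicit false

namespace Pool.Agent.H61PP

open Set Topology
open Pool.Agent.Helper775.Tight Pool.Agent.Helper775.Tight.SoftCx

section push

variable {P Q R : Type*} [TopologicalSpace P] [TopologicalSpace Q] [TopologicalSpace R]

/-- push forward of chains mod 2 -/
noncomputable def cp (h : C(P, Q)) (n : ℕ) :
    (Sing P n →₀ ZMod 2) →ₗ[ZMod 2] (Sing Q n →₀ ZMod 2) :=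
  Finsupp.lmapDomain (ZMod 2) (ZMod 2) (fun σ => h.comp σ)

theorem cp_single (h : C(P, Q)) (n : ℕ) (σ : Sing P n) (x : ZMod 2) :
    cp h n (Finsupp.single σ x) = Finsupp.single (h.comp σ) x := by
  simp [cp]

theorem cp_bdry (h : C(P, Q)) (n : ℕ) (z : Sing P (n + 1) →₀ ZMod 2) :
    bdry Q n (cp h (n + 1) z) = cp h n (bdry P n z) := by
  induction z using Finsupp.induction_linear with
  | zero => simp
  | add f g hf hg => rw [map_add, map_add, map_add, map_add, hf, hg]
  | single τ m =>
    have h1 : (Finsupp.single τ m : Sing P (n + 1) →₀ ZMod 2) = m • Finsupp.single τ 1 := by simp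
    rw [h1, map_smul, map_smul, map_smul, map_smul, cp_single, sx_bdry_single, sx_bdry_single,
      map_sum]
    congr 1
    refine Finset.sum_congr rfl fun i _ => ?_
    rw [cp_single]
    rfl

theorem cp_cp (h : C(P, Q)) (g : C(Q, R)) (n : ℕ) (z : Sing P n →₀ ZMod 2) :
    cp g n (cp h n z) = cp (g.comp h) n z := by
  induction z using Finsupp.induction_linear with
  | zero => simp
  | add f g hf hg => rw [map_add, map_add, map_add, hf, hg]
  | single τ m => rw [cp_single, cp_single, cp_single, ContinuousMap.comp_assoc]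

theorem cp_id (n : ℕ) (z : Sing P n →₀ ZMod 2) : cp (ContinuousMap.id P) n z = z := by
  induction z using Finsupp.induction_linear with
  | zero => simp
  | add f g hf hg => rw [map_add, hf, hg]
  | single τ m => rw [cp_single, ContinuousMap.id_comp]

theorem cp_cycle (h : C(P, Q)) (n : ℕ) (z : Sing P n →₀ ZMod 2) (hz : IsCycle n z) :
    IsCycle n (cp h n z) := by
  rcases n with _ | n
  · trivial
  · change bdry Q n (cp h (n + 1) z) = 0
    have h1 : bdry P n z = 0 := hz
    rw [cp_bdry, h1, map_zero]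

theorem cp_chainIn (h : C(P, Q)) (n : ℕ) (z : Sing P n →₀ ZMod 2) {A : Set P} {B : Set Q}
    (hAB : MapsTo h A B) (hz : ChainIn A z) : ChainIn B (cp h n z) := by
  classical
  intro σ hσ
  have h1 : σ ∈ Finset.image (fun σ : Sing P n => h.comp σ) z.support := by
    apply Finsupp.mapDomain_support
    exact hσ
  obtain ⟨τ, hτ, rfl⟩ := Finset.mem_image.1 h1
  rintro _ ⟨x, rfl⟩
  exact hAB (hz τ hτ ⟨x, rfl⟩)

/-- transfer along a homeomorphism -/
theorem hi_homeo (h : P ≃ₜ Q) {A : Set P} {B : Set Q} (hAB : MapsTo h A B)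
    (hBA : MapsTo h.symm B A) (hA : HomologyInjective A) : HomologyInjective B := by
  intro n c hc hcyc hb
  obtain ⟨b, hb⟩ := hb
  set g : C(P, Q) := ⟨h, h.continuous⟩ with hg
  set g' : C(Q, P) := ⟨h.symm, h.symm.continuous⟩ with hg'
  have hgg : g.comp g' = ContinuousMap.id Q := by
    ext x
    simp [hg, hg']
  obtain ⟨b', hb1, hb2⟩ := hA n (cp g' n c) (cp_chainIn g' n c hBA hc) (cp_cycle g' n c hcyc)
    ⟨cp g' (n + 1) b, by rw [cp_bdry, hb]⟩
  refine ⟨cp g (n + 1) b', cp_chainIn g _ b' hAB hb1, ?_⟩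
  rw [cp_bdry, hb2, cp_cp, hgg, cp_id]

theorem hi_empty : HomologyInjective (∅ : Set P) := by
  intro n c hc _ _
  refine ⟨0, fun σ hσ => absurd hσ (by simp), ?_⟩
  rw [map_zero]
  symm
  rw [← Finsupp.support_eq_empty]
  rw [Finset.eq_empty_iff_forall_notMem]
  intro σ hσ
  exact (hc σ hσ) ⟨stdSimplex.vertex 0, rfl⟩

theorem hi_univ : HomologyInjective (univ : Set P) := by
  intro n c _ _ hb
  obtain ⟨b, hb⟩ := hb
  exact ⟨b, fun σ _ => subset_univ _, hb⟩

end push

section deform

variable {P : Type*} [TopologicalSpace P]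

theorem even_of_sbPhi {V : Set P} {k : ℕ} (z : Sc.Sing V k →₀ ℤ) (h : sbPhi V k z = 0) :
    ∃ y : Sc.Sing V k →₀ ℤ, z = (2 : ℤ) • y := by
  refine ⟨z.mapRange (fun m => m / 2) (by simp), ?_⟩
  ext σ
  rw [Finsupp.smul_apply, Finsupp.mapRange_apply]
  have h0 : sbPhi V k z (sbIota V k σ) = 0 := by rw [h]; rfl
  rw [sbPhi_apply] at h0
  have h2 : (2 : ℤ) ∣ z σ := by
    have := (ZMod.intCast_zmod_eq_zero_iff_dvd (z σ) 2).1 h0
    exact_mod_cast this
  rw [smul_eq_mul]
  omega

theorem two_smul_mod {X : Type*} [TopologicalSpace X] {k : ℕ} (c : Sing X k →₀ ZMod 2) :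
    (2 : ℤ) • c = 0 := by
  ext σ
  rw [Finsupp.smul_apply, zsmul_eq_mul]
  have : ((2 : ℤ) : ZMod 2) = 0 := by decide
  rw [this, zero_mul]
  rfl

theorem bdry_bdry (n : ℕ) (z : Sing P (n + 2) →₀ ZMod 2) : bdry P n (bdry P (n + 1) z) = 0 := by
  obtain ⟨c, hc⟩ := sb_lift univ (n + 2) z (fun σ _ => subset_univ _)
  rw [← hc, sbPhi_bdry, sbPhi_bdry, Sc.sbd_sbd, map_zero]

theorem chainIn_add {X : Type*} [TopologicalSpace X] {A : Set X} {n : ℕ}
    {z z' : Sing X n →₀ ZMod 2} (h : ChainIn A z) (h' : ChainIn A z') : ChainIn A (z + z') := by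
  classical
  intro σ hσ
  rcases Finset.mem_union.1 (Finsupp.support_add hσ) with h1 | h1
  · exact h σ h1
  · exact h' σ h1

theorem sbPhi_chainIn {V : Set P} {k : ℕ} (z : Sc.Sing V k →₀ ℤ) : ChainIn V (sbPhi V k z) := by
  have h := sbPhi_small {univ} V k z (by
    rw [Finsupp.mem_supported]
    intro σ _
    exact ⟨univ, ⟨univ, rfl, by simp⟩, subset_univ _⟩)
  intro σ hσ
  exact (h σ hσ).1

/-- deformations -/
theorem hi_of_deform {A L : Set P} (hLA : L ⊆ A) (H : C(A × unitInterval, A))
    (h0 : ∀ x, H (x, 0) = x) (h1 : ∀ x, (H (x, 1)).1 ∈ L) (hL : HomologyInjective L) :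
    HomologyInjective A := by
  intro n z hz hcyc hb
  obtain ⟨b, hb⟩ := hb
  obtain ⟨z', hz'⟩ := sb_lift A n z hz
  have hs0 : Pr.slice H 0 = ContinuousMap.id A := by
    apply ContinuousMap.ext
    intro x
    exact h0 x
  have hp0 : Pr.cpush (Pr.slice H 0) n z' = z' := by
    rw [hs0]
    induction z' using Finsupp.induction_linear generalizing z with
    | zero => simp
    | add f g hf hg =>
      have e : ∀ w : Sc.Sing A n →₀ ℤ, Pr.cpush (ContinuousMap.id A) n w = w := by
        intro w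
        induction w using Finsupp.induction_linear with
        | zero => simp
        | add f g hf hg => rw [map_add, hf, hg]
        | single τ m => rw [Pr.cpush_single, ContinuousMap.id_comp]
      exact e _
    | single τ m => rw [Pr.cpush_single, ContinuousMap.id_comp]
  set w := sbPhi A (n + 1) (Pr.PD H n z') with hw
  set z1 := sbPhi A n (Pr.cpush (Pr.slice H 1) n z') with hz1
  have hbw : bdry P n w = z1 + z := by
    rw [hw, sbPhi_bdry]
    rcases n with _ | n
    · rw [Pr.sbd_PD_zero, hp0, map_sub, hz', ← hz1]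
      have h2 : z = -z := by
        rw [eq_neg_iff_add_eq_zero, ← two_smul ℤ z]
        exact two_smul_mod z
      rw [sub_eq_add_neg, ← h2]
    · have h3 := Pr.sbd_PD H n z'
      have h4 : sbPhi A n (Sc.sbd A n z') = 0 := by
        rw [← sbPhi_bdry, hz']
        exact hcyc
      obtain ⟨y, hy⟩ := even_of_sbPhi _ h4
      have h5 : sbPhi A (n + 1) (Pr.PD H n (Sc.sbd A n z')) = 0 := by
        rw [hy, map_smul, map_smul, two_smul_mod]
      have h6 := congrArg (sbPhi A (n + 1)) h3
      rw [map_add, h5, add_zero, hp0, map_sub, hz', ← hz1] at h6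
      rw [h6]
      have h2 : z = -z := by
        rw [eq_neg_iff_add_eq_zero, ← two_smul ℤ z]
        exact two_smul_mod z
      rw [sub_eq_add_neg, ← h2]
  have hzz : z + z = 0 := by
    rw [← two_smul ℤ z]
    exact two_smul_mod z
  have hbw2 : z1 = bdry P n w + z := by
    rw [hbw, add_assoc, hzz, add_zero]
  have hz1b : bdry P n (w + b) = z1 := by
    rw [map_add, hb, hbw2]
  have hz1c : IsCycle n z1 := by
    rcases n with _ | n
    · trivial
    · change bdry P n z1 = 0
      rw [← hz1b, bdry_bdry]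
  have hz1L : ChainIn L z1 := by
    have h2 := Sc.supported_map (univ : Set (Sc.Sing A n))
      ((sbPhi A n).comp (Pr.cpush (Pr.slice H 1) n))
      ((Finsupp.supported (ZMod 2) (ZMod 2) {σ : Sing P n | range σ ⊆ L}).restrictScalars ℤ) (by
        intro σ _
        rw [LinearMap.comp_apply, Pr.cpush_single, sbPhi_single, Submodule.restrictScalars_mem]
        apply Finsupp.single_mem_supported
        rintro _ ⟨t, rfl⟩
        exact h1 (σ t)) z' (by simp)
    rw [Submodule.restrictScalars_mem, Finsupp.mem_supported] at h2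
    intro σ hσ
    exact h2 hσ
  obtain ⟨b1, hb1, hb2⟩ := hL n z1 hz1L hz1c ⟨_, hz1b⟩
  refine ⟨b1 + w, chainIn_add (fun σ hσ => (hb1 σ hσ).trans hLA) (sbPhi_chainIn _), ?_⟩
  rw [map_add, hb2, hbw, ← add_assoc]
  have h2 : z1 + z1 = 0 := by
    rw [← two_smul ℤ z1]
    exact two_smul_mod z1
  rw [h2, zero_add]

end deform

end Pool.Agent.H61PP
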