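import Pool.Agent.H61PP.Conv
import Pool.Agent.Helper775.Proj.PSpace

/-! The class of a sphere bundle: more properties. -/

set_option autoImplicit false

namespace Pool.Agent.H61PP

open Set Topology
open Pool.Agent.Helper775.Tight Pool.Agent.Helper775.Tight.SoftCx
open scoped InnerProductSpace

/-- The Euler class of a sphere bundle is not trivial over sets with simple preimage. -/
theorem euler_ne {T P : Type*} [MetricSpace T] [MetricSpace P] [CompactSpace T]
    [CompactSpace P] (q : T → P) (hq : Continuous q) {d : ℕ} (hd : 1 ≤ d) (u : Ch P) (a : Ch T)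
    (ha : ∀ x : T, pb q u - dd a ∈ Nz x (d + 1))
    (hone : ∀ w, (cone (phi q hq univ isCompact_univ)).One w (d + 1) (u, a))
    (Z : Set P) (hZ : Z.Nonempty) (h2 : 2 ≤ d → (AS T).Ex (q ⁻¹' Z) d)
    (h1 : d = 1 → ∀ c, (AS T).Coc (q ⁻¹' Z) 1 c → (∀ z ∈ q ⁻¹' Z, c ∈ (AS T).N z 1) ∨
      ∀ z ∈ q ⁻¹' Z, c - one ∈ (AS T).N z 1) : ¬ (AS P).Cob Z (d + 1) u := by
  rintro ⟨b, hb⟩
  obtain ⟨w, hw⟩ := hZ
  -- `a - q^* b` is a cocycle over `Z`
  have hc : (AS T).Coc (q ⁻¹' Z) d (a - pb q b) := by
    intro x hx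
    have h3 : u - dd b ∈ Nz (q x) (d + 1) := hb (q x) hx
    have h4 : pb q (u - dd b) ∈ Nz x (d + 1) := pb_mem_Nz hq.continuousAt h3
    have h5 := sub_mem h4 (ha x)
    rw [AS_D, AS_N]
    have e : pb q (u - dd b) - (pb q u - dd a) = dd a - dd (pb q b) := by
      have e1 : pb q (u - dd b) = pb q u - pb q (dd b) := rfl
      rw [e1, dd_pb]
      abel
    have e2 : dd (a - pb q b) = dd a - dd (pb q b) := map_sub (DD (Ω := T)) a (pb q b)
    rw [e2, ← e]
    exact h5
  have hfin : ∀ (b' : Ch P) (t : Ch T), u - dd b' ∈ Nz w (d + 1) →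
      (∀ x ∈ q ⁻¹' {w}, a - pb q b' - dd t ∈ Nz x d) → False := by
    intro b' t h3 h4
    apply (hone w).2.2
    refine ⟨(b', -t), fun z hz => ?_⟩
    rw [mem_singleton_iff.1 hz, cone_D, cone_N]
    refine ⟨h3, ?_⟩
    change a - (pb q b' - (PF q hq univ isCompact_univ).D (-t)) ∈
      (PF q hq univ isCompact_univ).N w (d + 1 - 1)
    rw [Nat.add_sub_cancel, mem_push_N]
    intro x hx
    have h5 := h4 x hx.2
    rw [map_neg]
    change a - (pb q b' - -dd t) ∈ Nz x d
    convert h5 using 1
    abel
  have hsub : q ⁻¹' {w} ⊆ q ⁻¹' Z := preimage_mono (singleton_subset_iff.2 hw)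
  rcases Nat.lt_or_ge d 2 with hd2 | hd2
  · obtain rfl : d = 1 := by omega
    rcases h1 rfl _ hc with h3 | h3
    · refine hfin b 0 (hb w hw) fun x hx => ?_
      have h4 : dd (0 : Ch T) = 0 := map_zero (DD (Ω := T))
      rw [h4, sub_zero]
      exact h3 x (hsub hx)
    · refine hfin (b + one) 0 ?_ fun x hx => ?_
      · have h4 : u - dd b ∈ Nz w (1 + 1) := hb w hw
        have h5 : dd (one : Ch P) ∈ Nz w (1 + 1) := one_D_mem w
        have h6 := sub_mem h4 h5
        have e : dd (b + one) = dd b + dd one := dd_add b one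
        rw [e]
        convert h6 using 1
        abel
      · have h4 : dd (0 : Ch T) = 0 := map_zero (DD (Ω := T))
        rw [h4, sub_zero]
        have h5 := h3 x (hsub hx)
        have e : pb q (b + one) = pb q b + one := rfl
        rw [e, ← sub_sub]
        exact h5
  · obtain ⟨t, ht⟩ := h2 hd2 _ hc
    exact hfin b t (hb w hw) fun x hx => ht x (hsub hx)

/-- The square of the Euler class is not trivial. -/
theorem euler_sq {T P : Type*} [MetricSpace T] [MetricSpace P] [CompactSpace T]
    [CompactSpace P] (q : T → P) (hq : Continuous q) {d : ℕ} (hd : 1 ≤ d) (u : Ch P) (a : Ch T)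
    (hu : (AS P).Coc univ (d + 1) u)
    (ha : ∀ x : T, pb q u - dd a ∈ Nz x (d + 1))
    (hone : ∀ w, (cone (phi q hq univ isCompact_univ)).One w (d + 1) (u, a))
    (hne : ¬ (AS P).Cob univ (d + 1) u) (hT : (AS T).Ex univ (2 * d)) :
    ¬ (AS P).Cob univ (2 * d + 1) (cup d u u) := by
  rintro ⟨e, he⟩
  have hEx := j15389_cone q hq hd u a hu ha hone (2 * d + 1)
  -- the correction term
  have hg : (AS T).Coc univ (2 * d) (pb q e - cup (d - 1) a (pb q u)) := by
    intro x _
    have h1 : cup d u u - dd e ∈ Nz (q x) (2 * d + 1) := he (q x) (mem_univ _)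
    have h2 : pb q (cup d u u - dd e) ∈ Nz x (2 * d + 1) := pb_mem_Nz hq.continuousAt h1
    have h3 : cup d (pb q u - dd a) (pb q u) ∈ Nz x (2 * d + 1) :=
      j15388_cup_left d (pb q u) _ (ha x)
    have h4 : dd u ∈ Nz (q x) (d + 2) := hu (q x) (mem_univ _)
    have h5 : pb q (dd u) ∈ Nz x (d + 2) := pb_mem_Nz hq.continuousAt h4
    have h6 : cup (d - 1) a (pb q (dd u)) ∈ Nz x (2 * d + 1) := by
      have h7 := J15386_cup_right (d := d - 1) (u := a) (by omega) h5
      have e1 : d + 2 + (d - 1) = 2 * d + 1 := by omega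
      rwa [e1] at h7
    rw [AS_D, AS_N]
    have e2 : dd (pb q e - cup (d - 1) a (pb q u)) =
        dd (pb q e) - dd (cup (d - 1) a (pb q u)) := map_sub (DD (Ω := T)) _ _
    have e3 : pb q (cup d u u - dd e) = cup d (pb q u) (pb q u) - dd (pb q e) := by
      have e4 : pb q (cup d u u - dd e) = pb q (cup d u u) - pb q (dd e) := rfl
      rw [e4, j15388_pb_cup, dd_pb]
    rw [e2, J15386_leib, Nat.sub_add_cancel hd, dd_pb q u]
    rw [e3] at h2
    rw [cup_sub_left] at h3
    have h8 := sub_mem (sub_mem h3 h2) h6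
    convert h8 using 1
    abel
  obtain ⟨t, ht⟩ := hT _ hg
  -- a cocycle in the cone of the Gysin map
  have hcoc : (cone (Gys q hq hd u a hu ha)).Coc univ (2 * d + 1) (u, (e, t)) := by
    intro z hz
    rw [cone_D, cone_N]
    constructor
    · change (AS P).D u ∈ (AS P).N z (2 * d + 1 + 1 - d)
      have e1 : 2 * d + 1 + 1 - d = d + 1 + 1 := by omega
      rw [e1]
      exact hu z hz
    · rw [Nat.add_sub_cancel, Gys_f, cone_D, cone_N]
      constructor
      · exact he z hz
      · change cup (d - 1) a (pb q u) - (pb q e - (PF q hq univ isCompact_univ).D t) ∈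
          (PF q hq univ isCompact_univ).N z (2 * d + 1 - 1)
        rw [Nat.add_sub_cancel, mem_push_N]
        intro x _
        have h1 : pb q e - cup (d - 1) a (pb q u) - dd t ∈ Nz x (2 * d) := ht x (mem_univ _)
        have h2 := neg_mem h1
        change cup (d - 1) a (pb q u) - (pb q e - dd t) ∈ Nz x (2 * d)
        convert h2 using 1
        abel
  obtain ⟨⟨b, w⟩, hbw⟩ := hEx _ hcoc
  apply hne
  refine ⟨b, fun z hz => ?_⟩
  have h1 := (hbw z hz).1
  change u - (AS P).D b ∈ (AS P).N z (2 * d + 1 - d) at h1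
  have e1 : 2 * d + 1 - d = d + 1 := by omega
  rwa [e1] at h1

/-- The cohomology ring of the base of a sphere bundle, with more information on the class. -/
theorem ring_plus {T P : Type*} [MetricSpace T] [MetricSpace P] [CompactSpace T]
    [ConnectedSpace T]
    [CompactSpace P] [ConnectedSpace P] (q : T → P) (hq : Continuous q) {d n : ℕ} (hd : 1 ≤ d)
    (hT : ∀ ν, 2 ≤ ν → ν ≤ d * n → (AS T).Ex univ ν) (hn : 2 ≤ n)
    (hloc : ∀ w : P, ∃ U : Set P, IsOpen U ∧ w ∈ U ∧ ∃ a : Ch T, (AS T).Coc (q ⁻¹' U) d a ∧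
      ∀ w' ∈ U, (AS T).RT one d a (q ⁻¹' {w'})) :
    ∃ u : Ch P, (AS P).Coc univ (d + 1) u ∧ (∀ ν, 2 ≤ ν → ν ≤ d * n →
      ∀ c, (AS P).Coc univ ν c → (AS P).Cob univ ν c ∨
        ∃ i, ν = i * d + 1 ∧ (AS P).Cob univ ν (c - upow d u i)) ∧
      ¬ (AS P).Cob univ (2 * d + 1) (cup d u u) ∧
      (∀ Z : Set P, Z.Nonempty → (2 ≤ d → (AS T).Ex (q ⁻¹' Z) d) →
        (d = 1 → ∀ c, (AS T).Coc (q ⁻¹' Z) 1 c → (∀ z ∈ q ⁻¹' Z, c ∈ (AS T).N z 1) ∨
          ∀ z ∈ q ⁻¹' Z, c - one ∈ (AS T).N z 1) → ¬ (AS P).Cob Z (d + 1) u) := by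
  obtain ⟨u, a, hu, ha, hone⟩ := j15389_gen q hq hd hloc
  have hZ4 := euler_ne q hq hd u a ha hone
  have hdn : 2 * d ≤ d * n := by nlinarith
  have hne : ¬ (AS P).Cob univ (d + 1) u := by
    refine hZ4 univ univ_nonempty (fun h2 => ?_) (fun h1 c hc => ?_)
    · rw [preimage_univ]
      exact hT d h2 (by omega)
    · rw [preimage_univ] at hc ⊢
      exact coc_one_connected c hc
  refine ⟨u, hu, ?_, euler_sq q hq hd u a hu ha hone hne (hT _ (by omega) hdn), hZ4⟩
  have hEx := j15389_cone q hq hd u a hu ha hone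
  have hkey : ∀ ν k, ((AS P).shift d).Cob univ ν k → (AS P).Cob univ ν (cup d u k) := by
    intro ν k hk
    have h1 := Mor.cob (Gys q hq hd u a hu ha) hk
    rw [Gys_f] at h1
    exact j15389_fst q hq h1
  have hsub : ∀ b b' : Ch P, cup d u (b - b') = cup d u b - cup d u b' := by
    intro b b'
    have h1 := cup_add_right d u (b - b') b'
    rw [sub_add_cancel] at h1
    rw [h1, add_sub_cancel_right]
  intro ν
  induction ν using Nat.strong_induction_on with
  | _ ν ih =>
    intro hν2 hνn c hc
    have hpc : (AS T).Coc univ ν (pb q c) :=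
      coc_pb (F := univ) (F' := univ) (fun x _ => hq.continuousAt) (fun _ _ => mem_univ _) hc
    obtain ⟨f', hf'⟩ := hT ν hν2 hνn _ hpc
    have hcc : (cone (phi q hq univ isCompact_univ)).Coc univ ν (c, f') := by
      intro z hz
      rw [cone_N, cone_D]
      refine ⟨hc z hz, ?_⟩
      show (phi q hq univ isCompact_univ).f c - (PF q hq univ isCompact_univ).D f' ∈
        (PF q hq univ isCompact_univ).N z ν
      rw [mem_push_N]
      intro x _
      exact hf' x (mem_univ _)
    obtain ⟨b, hb1, hb2⟩ := cone_surj (Gys q hq hd u a hu ha) (hEx (ν + 1)) hcc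
    rw [Gys_f] at hb2
    have hb3 : (AS P).Cob univ ν (c - cup d u b) := j15389_fst q hq hb2
    rcases Nat.lt_or_ge d ν with h | h
    · rcases Nat.eq_or_lt_of_le (Nat.succ_le_of_lt h) with h' | h'
      · -- ν = d + 1
        have h'' : ν = d + 1 := h'.symm
        subst h''
        have hb4 : (AS P).Coc univ 1 b := by
          intro z hz
          have h5 := hb1 z hz
          have h6 : d + 1 + 1 - d = 1 + 1 := by omega
          have h7 : (AS P).D b ∈ (AS P).N z (d + 1 + 1 - d) := h5
          rwa [h6] at h7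
        rcases coc_one_connected b hb4 with h8 | h8
        · left
          have h9 : ((AS P).shift d).Cob univ (d + 1) b := by
            apply Cob.of_mem
            intro z hz
            show b ∈ (AS P).N z (d + 1 - d)
            rw [show d + 1 - d = 1 by omega]
            exact h8 z hz
          have h10 := hb3.add (hkey _ _ h9)
          rwa [sub_add_cancel] at h10
        · right
          refine ⟨1, by omega, ?_⟩
          have h9 : ((AS P).shift d).Cob univ (d + 1) (b - one) := by
            apply Cob.of_mem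
            intro z hz
            show b - one ∈ (AS P).N z (d + 1 - d)
            rw [show d + 1 - d = 1 by omega]
            exact h8 z hz
          have h10 := hb3.add (hkey _ _ h9)
          rw [hsub, sub_add_sub_cancel] at h10
          exact h10
      · -- ν ≥ d + 2
        have h2 : d + 2 ≤ ν := h'
        have hb4 : (AS P).Coc univ (ν - d) b := by
          intro z hz
          have h7 : (AS P).D b ∈ (AS P).N z (ν + 1 - d) := hb1 z hz
          have h6 : ν + 1 - d = ν - d + 1 := by omega
          rwa [h6] at h7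
        rcases ih (ν - d) (by omega) (by omega) (by omega) b hb4 with h8 | ⟨i, hi, h8⟩
        · left
          have h10 := hb3.add (hkey ν b h8)
          rwa [sub_add_cancel] at h10
        · right
          refine ⟨i + 1, ?_, ?_⟩
          · have : (i + 1) * d = i * d + d := by ring
            omega
          · have h10 := hb3.add (hkey ν _ h8)
            rw [hsub, sub_add_sub_cancel] at h10
            exact h10
    · -- ν ≤ d
      left
      have h9 : ((AS P).shift d).Cob univ ν b := by
        apply Cob.of_mem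
        intro z hz
        show b ∈ (AS P).N z (ν - d)
        rw [show ν - d = 0 by omega]
        exact (AS P).N_zero z b
      have h10 := hb3.add (hkey _ _ h9)
      rwa [sub_add_cancel] at h10

end Pool.Agent.H61PP
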