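import Pool.Agent.H61PP.Dual
import Pool.Agent.Helper775.Tight.Final
import Pool.Agent.Helper775.Tight.Homot
import Pool.Agent.Helper775.Proj.Bundle

/-! Surjectivity in Alexander-Spanier cohomology. -/

set_option autoImplicit false

namespace Pool.Agent.H61PP

open Set Topology
open Pool.Agent.Helper775.Tight Pool.Agent.Helper775.Tight.SoftCx

/-- surjectivity of the restriction to a subspace -/
def SurA {P : Type*} [MetricSpace P] (Z : Set P) : Prop :=
  ∀ n, 1 ≤ n → ∀ c : Ch Z, (AS Z).Coc univ n c →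
    ∃ c' : Ch P, (AS P).Coc univ n c' ∧ (AS Z).Cob univ n (c - pb Subtype.val c')

variable {P Q : Type*} [MetricSpace P] [MetricSpace Q]

theorem pb_comp' {X Y Z : Type*} (f : X → Y) (g : Y → Z) (c : Ch Z) :
    pb f (pb g c) = pb (g ∘ f) c := by
  funext l; simp [pb, List.map_map]

theorem pb_id' {X : Type*} (c : Ch X) : pb (fun x => x) c = c := by
  funext l; simp [pb]

theorem pb_sub' {X Y : Type*} (f : X → Y) (c c' : Ch Y) : pb f (c - c') = pb f c - pb f c' := rfl

theorem surA_homeo (h : P ≃ₜ Q) {A : Set P} {B : Set Q} (hAB : MapsTo h A B)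
    (hBA : MapsTo h.symm B A) (hA : SurA A) : SurA B := by
  intro n hn c hc
  set g : A → B := fun x => ⟨h x.1, hAB x.2⟩ with hg
  set g' : B → A := fun x => ⟨h.symm x.1, hBA x.2⟩ with hg'
  have hgc : Continuous g := Continuous.subtype_mk (h.continuous.comp continuous_subtype_val) _
  have hgc' : Continuous g' :=
    Continuous.subtype_mk (h.symm.continuous.comp continuous_subtype_val) _
  obtain ⟨c', hc', hcob⟩ := hA n hn (pb g c) (coc_pb (fun x _ => hgc.continuousAt)
    (mapsTo_univ _ _) hc)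
  refine ⟨pb h.symm c', coc_pb (fun x _ => h.symm.continuous.continuousAt) (mapsTo_univ _ _) hc',
    ?_⟩
  have h1 := cob_pb (F := univ) (g := g') (fun x _ => hgc'.continuousAt) (mapsTo_univ _ _) hcob
  rw [pb_sub', pb_comp', pb_comp'] at h1
  have e1 : g ∘ g' = fun x => x := by
    funext x
    apply Subtype.ext
    simp [hg, hg']
  rw [e1, pb_id'] at h1
  have e2 : pb (Subtype.val : B → Q) (pb h.symm c') = pb (Subtype.val ∘ g') c' := by
    rw [pb_comp']
    rfl
  rw [e2]
  exact h1

theorem surA_deform {A L : Set P} (hAc : IsCompact A) (hLA : L ⊆ A)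
    (H : C(A × unitInterval, A)) (h0 : ∀ x, H (x, 0) = x) (h1 : ∀ x, (H (x, 1)).1 ∈ L)
    (hL : SurA L) : SurA A := by
  haveI : CompactSpace A := isCompact_iff_compactSpace.1 hAc
  intro n hn c hc
  set i : L → A := fun x => ⟨x.1, hLA x.2⟩ with hi
  have hic : Continuous i := Continuous.subtype_mk continuous_subtype_val _
  set r : A → L := fun x => ⟨(H (x, 1)).1, h1 x⟩ with hr
  have hrc : Continuous r := by
    refine Continuous.subtype_mk (continuous_subtype_val.comp (H.continuous.comp ?_)) _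
    exact continuous_id.prodMk continuous_const
  obtain ⟨c', hc', hcob⟩ := hL n hn (pb i c) (coc_pb (fun x _ => hic.continuousAt)
    (mapsTo_univ _ _) hc)
  refine ⟨c', hc', ?_⟩
  have h2 := cob_pb (F := univ) (g := r) (fun x _ => hrc.continuousAt) (mapsTo_univ _ _) hcob
  rw [pb_sub', pb_comp', pb_comp'] at h2
  -- the homotopy
  set K : ℝ → A → A := fun t x => H (x, projIcc 0 1 zero_le_one t) with hK
  have hKc : Continuous fun p : ℝ × A => K p.1 p.2 := by
    refine H.continuous.comp ?_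
    exact continuous_snd.prodMk (continuous_projIcc.comp continuous_fst)
  have hK0 : K 0 = fun x => x := by
    funext x
    simp only [hK]
    rw [projIcc_of_le_left _ le_rfl]
    exact h0 x
  have hK1 : K 1 = i ∘ r := by
    funext x
    simp only [hK]
    rw [projIcc_of_right_le _ le_rfl]
    rfl
  have h3 := cob_pb_homotopy (F := (univ : Set A)) isCompact_univ K
    (fun t _ x _ => hKc.continuousAt) (F' := univ) (fun _ _ _ _ => mem_univ _) hc
  rw [hK0, hK1, pb_id'] at h3
  have h4 := cob_pb_homotopy (F := (univ : Set A)) isCompact_univ (fun t x => (K t x).1)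
    (fun t _ x _ => (continuous_subtype_val.comp hKc).continuousAt) (F' := univ)
    (fun _ _ _ _ => mem_univ _) hc'
  have e0 : (fun x => (K 0 x).1) = (Subtype.val : A → P) := by
    rw [hK0]
  have e1 : (fun x => (K 1 x).1) = (Subtype.val : L → P) ∘ r := by
    rw [hK1]
    rfl
  rw [e0, e1] at h4
  have h5 := (h3.add h2).sub h4
  convert h5 using 1
  abel

theorem surA_of_germ {Z : Set P} (hZ : IsCompact Z)
    (h : ∀ n, 1 ≤ n → ∀ c, (AS P).Coc Z n c →
      ∃ c', (AS P).Coc univ n c' ∧ (AS P).Cob Z n (c - c')) : SurA Z := by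
  intro n hn c hc
  rcases Z.eq_empty_or_nonempty with rfl | hne
  · exact ⟨0, coc_zero _ _, Cob.of_mem (fun z _ => absurd z.2 (notMem_empty _))⟩
  obtain ⟨ρ, hρ1, hρ2, hρ3⟩ := exists_retraction hZ hne
  set g : P → Z := fun x => ⟨ρ x, hρ1 x⟩ with hgdef
  have hg : ∀ x ∈ Z, ContinuousAt g x := by
    intro x hx
    rw [ContinuousAt, tendsto_subtype_rng]
    exact hρ3 x hx
  obtain ⟨c', hc', hcob⟩ := h n hn (pb g c) (coc_pb hg (mapsTo_univ _ _) hc)
  refine ⟨c', hc', ?_⟩
  have h1 := cob_pb (F := (univ : Set Z)) (g := (Subtype.val : Z → P))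
    (fun x _ => continuous_subtype_val.continuousAt) (fun x _ => x.2) hcob
  rw [pb_sub', pb_comp'] at h1
  have e : g ∘ (Subtype.val : Z → P) = fun x => x := by
    funext x
    apply Subtype.ext
    exact hρ2 x.1 x.2
  rw [e, pb_id'] at h1
  exact h1

theorem cech_of_surA {Z : Set P} (h : SurA Z) : CechSurjective Z := by
  intro q c hc
  rw [asD_eq, locallyZero_iff] at hc
  obtain ⟨c', hc', b, hb⟩ := h (q + 1) (by omega) c hc
  refine ⟨c', ?_, b, ?_⟩
  · rw [asD_eq, locallyZero_iff]
    exact hc'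
  · rw [asD_eq, locallyZero_iff]
    exact hb

theorem surA_empty : SurA (∅ : Set P) := fun n _ c _ =>
  ⟨0, coc_zero _ _, Cob.of_mem (fun z _ => absurd z.2 (notMem_empty _))⟩

theorem surA_univ : SurA (univ : Set P) := by
  intro n _ c hc
  set g : P → (univ : Set P) := fun x => ⟨x, mem_univ x⟩ with hg
  have hgc : Continuous g := Continuous.subtype_mk continuous_id _
  refine ⟨pb g c, coc_pb (fun x _ => hgc.continuousAt) (mapsTo_univ _ _) hc, ?_⟩
  rw [pb_comp']
  have e : g ∘ Subtype.val = (fun x : (univ : Set P) => x) := by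
    funext x
    rfl
  rw [e, pb_id', sub_self]
  exact cob_zero _ _

theorem surA_singleton (p : P) : SurA ({p} : Set P) := by
  refine surA_of_germ isCompact_singleton ?_
  intro n hn c hc
  rcases Nat.lt_or_ge n 2 with h | h
  · obtain rfl : n = 1 := by omega
    rcases (acy_singleton p).2.1 c hc with h1 | h1
    · exact ⟨0, coc_zero _ _, by rw [sub_zero]; exact cob_one.2 h1⟩
    · exact ⟨one, fun z _ => one_D_mem z, cob_one.2 h1⟩
  · exact ⟨0, coc_zero _ _, by rw [sub_zero]; exact (acy_singleton p).2.2 n h c hc⟩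

/-- transfer of the cohomology of a sphere -/
theorem rt_of_homeo {Z : Set P} (hZ : IsCompact Z) (hne : Z.Nonempty) {V : Type*}
    [NormedAddCommGroup V] [NormedSpace ℝ V] [FiniteDimensional ℝ V] {D : ℕ}
    (hD : Module.finrank ℝ V = D) (hD1 : 1 ≤ D) (e : Z ≃ₜ Metric.sphere (0 : V) 1) :
    ∃ a, (AS P).RT one D a Z := by
  obtain ⟨θ, hθ, hRT⟩ := nsphere V hD hD1
  obtain ⟨ρ, hρ1, hρ2, hρ3⟩ := exists_retraction hZ hne
  set g : P → Z := fun x => ⟨ρ x, hρ1 x⟩ with hgdef
  have hg : ∀ x ∈ Z, ContinuousAt g x := by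
    intro x hx
    rw [ContinuousAt, tendsto_subtype_rng]
    exact hρ3 x hx
  have hgz : ∀ z : Z, g z.1 = z := by
    intro z
    apply Subtype.ext
    exact hρ2 z.1 z.2
  refine ⟨pb (fun x => e (g x)) θ, rt_transfer (F := Z) (F' := univ) (g := fun x => e (g x))
    (g' := fun y => (e.symm y).1)
    (fun x hx => e.continuous.continuousAt.comp (hg x hx))
    (fun y _ => (continuous_subtype_val.comp e.symm.continuous).continuousAt)
    (mapsTo_univ _ _) (fun y _ => (e.symm y).2) ?_ ?_ hθ hRT⟩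
  · intro x hx
    have h1 : g x = ⟨x, hx⟩ := hgz ⟨x, hx⟩
    rw [h1, e.symm_apply_apply]
  · intro y _
    rw [hgz, e.apply_symm_apply]

end Pool.Agent.H61PP
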